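import Mathlib

namespace Pool.Agent.Helper62.D4

open TensorProduct

/-- A derivation vanishing on the base of a formally unramified extension is zero. -/
theorem deriv_eq_zero {S T M : Type*} [CommRing S] [CommRing T] [Algebra S T]
    [Algebra.FormallyUnramified S T] [AddCommGroup M] [Module T M] (d : T →+ M)
    (hd : ∀ x y, d (x * y) = x • d y + y • d x) (h0 : ∀ s, d (algebraMap S T s) = 0) (t : T) :
    d t = 0 := by
  let modS : Module S M := Module.compHom M (algebraMap S T)
  have tow : IsScalarTower S T M := by
    refine ⟨fun s t m => ?_⟩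
    change (s • t) • m = algebraMap S T s • (t • m)
    rw [Algebra.smul_def, mul_smul]
  have hone : d 1 = 0 := by
    have := h0 1
    rwa [map_one] at this
  let D : Derivation S T M :=
    { toFun := d
      map_add' := d.map_add
      map_smul' := fun s x => by
        rw [Algebra.smul_def, hd, h0, smul_zero, add_zero]
        rfl
      map_one_eq_zero' := hone
      leibniz' := fun x y => hd x y }
  have h1 : D.liftKaehlerDifferential.compDer (KaehlerDifferential.D S T) = D :=
    D.liftKaehlerDifferential_comp
  have h2 : D t = 0 := by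
    rw [← h1]
    have h3 : KaehlerDifferential.D S T t = 0 := Subsingleton.elim _ _
    change D.liftKaehlerDifferential (KaehlerDifferential.D S T t) = 0
    rw [h3, map_zero]
  exact h2

/-- The same, with values in a ring through a ring homomorphism. -/
theorem deriv_eq_zero' {S T F : Type*} [CommRing S] [CommRing T] [Algebra S T]
    [Algebra.FormallyUnramified S T] [CommRing F] (f : T →+* F) (d : T →+ F)
    (hd : ∀ x y, d (x * y) = f x * d y + f y * d x) (h0 : ∀ s, d (algebraMap S T s) = 0) (t : T) :
    d t = 0 := by
  let modT : Module T F := Module.compHom F f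
  exact deriv_eq_zero (S := S) (T := T) (M := F) d (fun x y => hd x y) h0 t

/-- Derivations extend along formally etale maps. -/
theorem deriv_lift {S T M : Type*} [CommRing S] [CommRing T] [Algebra S T]
    [Algebra.FormallyEtale S T] [AddCommGroup M] [Module T M] (d : S →+ M)
    (hd : ∀ x y, d (x * y) = algebraMap S T x • d y + algebraMap S T y • d x) :
    ∃ d' : T →+ M, (∀ x y, d' (x * y) = x • d' y + y • d' x) ∧
      ∀ s, d' (algebraMap S T s) = d s := by
  let modS : Module S M := Module.compHom M (algebraMap S T)
  have tow : IsScalarTower S T M := by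
    refine ⟨fun s t m => ?_⟩
    change (s • t) • m = algebraMap S T s • (t • m)
    rw [Algebra.smul_def, mul_smul]
  have hone : d 1 = 0 := by
    have := hd 1 1
    rw [map_one, one_smul, mul_one] at this
    simpa using this
  let D : Derivation ℤ S M :=
    { toFun := d
      map_add' := d.map_add
      map_smul' := fun s x => by
        rw [RingHom.id_apply]
        exact map_zsmul d s x
      map_one_eq_zero' := hone
      leibniz' := fun x y => hd x y }
  let l : T ⊗[S] (Ω[S⁄ℤ]) →ₗ[T] M := LinearMap.liftBaseChange T D.liftKaehlerDifferential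
  let D' : Derivation ℤ T M :=
    (l ∘ₗ (KaehlerDifferential.tensorKaehlerEquivOfFormallyEtale ℤ S T).symm.toLinearMap).compDer
      (KaehlerDifferential.D ℤ T)
  refine ⟨(D' : T →ₗ[ℤ] M).toAddMonoidHom, fun x y => D'.leibniz x y, fun s => ?_⟩
  change l ((KaehlerDifferential.tensorKaehlerEquivOfFormallyEtale ℤ S T).symm
    (KaehlerDifferential.D ℤ T (algebraMap S T s))) = d s
  rw [KaehlerDifferential.tensorKaehlerEquivOfFormallyEtale_symm_D_algebraMap]
  change (LinearMap.liftBaseChange T D.liftKaehlerDifferential) (1 ⊗ₜ (KaehlerDifferential.D ℤ S s)) = d s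
  rw [LinearMap.liftBaseChange_tmul, one_smul]
  exact D.liftKaehlerDifferential_comp_D s

/-- Additive derivations of a commutative ring. -/
structure Der (R : Type*) [CommRing R] where
  /-- the underlying additive map -/
  toHom : R →+ R
  leib : ∀ x y, toHom (x * y) = x * toHom y + y * toHom x

namespace Der

variable {R : Type*} [CommRing R]

instance : CoeFun (Der R) (fun _ => R → R) := ⟨fun d => d.toHom⟩

theorem map_add (d : Der R) (x y : R) : d (x + y) = d x + d y := d.toHom.map_add x y
theorem map_zero (d : Der R) : d 0 = 0 := d.toHom.map_zero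
theorem map_sum (d : Der R) {ι : Type*} (s : Finset ι) (f : ι → R) :
    d (∑ i ∈ s, f i) = ∑ i ∈ s, d (f i) := _root_.map_sum d.toHom f s
theorem map_mul (d : Der R) (x y : R) : d (x * y) = x * d y + y * d x := d.leib x y

theorem map_one (d : Der R) : d 1 = 0 := by
  have := d.map_mul 1 1
  rw [one_mul, one_mul] at this
  exact left_eq_add.1 this

theorem map_pow (d : Der R) (x : R) (k : ℕ) : d (x ^ (k + 1)) = (k + 1) * x ^ k * d x := by
  induction k with
  | zero => simp
  | succ k ih =>
    rw [pow_succ, d.map_mul, ih]
    push_cast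
    ring

end Der

section LogDer

variable {F : Type*} [Field F] (d : Der F)

/-- The logarithmic derivative. -/
def ld (x : F) : F := d x * x⁻¹

theorem ld_mul {x y : F} (hx : x ≠ 0) (hy : y ≠ 0) : ld d (x * y) = ld d x + ld d y := by
  rw [ld, ld, ld, d.map_mul]
  field_simp
  ring

theorem ld_one : ld d 1 = 0 := by
  rw [ld, d.map_one, zero_mul]

theorem ld_inv {x : F} (hx : x ≠ 0) : ld d x⁻¹ = - ld d x := by
  have h := ld_mul d hx (inv_ne_zero hx)
  rw [mul_inv_cancel₀ hx, ld_one] at h
  exact (neg_eq_of_add_eq_zero_right h.symm).symm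

theorem ld_pow {x : F} (hx : x ≠ 0) (k : ℕ) : ld d (x ^ k) = k * ld d x := by
  induction k with
  | zero => simp [ld_one]
  | succ k ih =>
    rw [pow_succ, ld_mul d (pow_ne_zero _ hx) hx, ih]
    push_cast
    ring

theorem ld_zpow {x : F} (hx : x ≠ 0) (k : ℤ) : ld d (x ^ k) = k * ld d x := by
  cases k with
  | ofNat k =>
    rw [Int.ofNat_eq_natCast, zpow_natCast, ld_pow d hx]
    push_cast
    rfl
  | negSucc k =>
    rw [zpow_negSucc, ld_inv d (pow_ne_zero _ hx), ld_pow d hx]
    push_cast
    ring

end LogDer

/-- Derivations of a ring extend to formally etale extensions. -/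
theorem derivation_ext (S T : Type*) [CommRing S] [CommRing T] [Algebra S T]
    [Algebra.FormallyEtale S T] (d : Der S) :
    ∃ d' : Der T, ∀ s, d' (algebraMap S T s) = algebraMap S T (d s) := by
  obtain ⟨d', h1, h2⟩ := deriv_lift (T := T) (M := T)
    ((algebraMap S T).toAddMonoidHom.comp d.toHom) (by
      intro x y
      change algebraMap S T (d (x * y)) = _ • algebraMap S T (d y) + _ • algebraMap S T (d x)
      rw [d.map_mul]
      simp [smul_eq_mul])
  exact ⟨⟨d', h1⟩, h2⟩

/-- The coefficientwise derivation on power series. -/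
noncomputable def coefD {R : Type*} [CommRing R] (d : Der R) : Der (PowerSeries R) where
  toHom :=
    { toFun := fun f => PowerSeries.mk fun n => d (PowerSeries.coeff n f)
      map_zero' := by
        ext n
        simp [d.map_zero]
      map_add' := fun f g => by
        ext n
        simp [d.map_add] }
  leib f g := by
    ext n
    simp only [AddMonoidHom.coe_mk, ZeroHom.coe_mk, PowerSeries.coeff_mk, PowerSeries.coeff_mul,
      _root_.map_add, d.map_sum, d.map_mul, Finset.sum_add_distrib]
    congr 1
    exact (Finset.Nat.sum_antidiagonal_swap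
      (f := fun x : ℕ × ℕ => (PowerSeries.coeff x.2) g * d ((PowerSeries.coeff x.1) f))).symm

theorem coeff_coefD {R : Type*} [CommRing R] (d : Der R) (f : PowerSeries R) (n : ℕ) :
    PowerSeries.coeff n (coefD d f) = d (PowerSeries.coeff n f) := by
  change PowerSeries.coeff n (PowerSeries.mk fun n => d (PowerSeries.coeff n f)) = _
  rw [PowerSeries.coeff_mk]

theorem constantCoeff_coefD {R : Type*} [CommRing R] (d : Der R) (f : PowerSeries R) :
    PowerSeries.constantCoeff (coefD d f) = d (PowerSeries.constantCoeff f) := by
  rw [← PowerSeries.coeff_zero_eq_constantCoeff_apply, coeff_coefD,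
    PowerSeries.coeff_zero_eq_constantCoeff_apply]

theorem coefD_C {R : Type*} [CommRing R] (d : Der R) (a : R) :
    coefD d (PowerSeries.C a) = PowerSeries.C (d a) := by
  ext n
  rw [coeff_coefD, PowerSeries.coeff_C, PowerSeries.coeff_C]
  split_ifs <;> simp [d.map_zero]

theorem coefD_X {R : Type*} [CommRing R] (d : Der R) :
    coefD d (PowerSeries.X) = 0 := by
  ext n
  rw [coeff_coefD, PowerSeries.coeff_X]
  split_ifs <;> simp [d.map_zero, d.map_one]

/-- The derivation `d/dX` on power series. -/
noncomputable def xD (R : Type*) [CommRing R] : Der (PowerSeries R) where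
  toHom := (PowerSeries.derivative R : PowerSeries R →ₗ[R] PowerSeries R).toAddMonoidHom
  leib x y := (PowerSeries.derivative R).leibniz x y

theorem xD_apply {R : Type*} [CommRing R] (f : PowerSeries R) :
    xD R f = PowerSeries.derivative R f := rfl

theorem xD_C {R : Type*} [CommRing R] (a : R) : xD R (PowerSeries.C a) = 0 := by
  rw [xD_apply, PowerSeries.derivative_C]

theorem xD_X {R : Type*} [CommRing R] : xD R (PowerSeries.X) = 1 := by
  rw [xD_apply, PowerSeries.derivative_X]

instance formallyEtale_laurent (F : Type*) [Field F] :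
    Algebra.FormallyEtale (PowerSeries F) (LaurentSeries F) :=
  Algebra.FormallyEtale.of_isLocalization (Submonoid.powers (PowerSeries.X : PowerSeries F))

end Pool.Agent.Helper62.D4
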