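import Mathlib
import Pool.Agent.Helper62.D4.Deriv

namespace Pool.Agent.Helper62.D4

/-- Polynomials in `n` variables. -/
abbrev Ar (n : ℕ) := MvPolynomial (Fin n) ℂ
/-- Rational functions. -/
abbrev Kr (n : ℕ) := FractionRing (Ar n)
/-- Algebraic functions. -/
abbrev Wr (n : ℕ) := AlgebraicClosure (Kr n)

variable {n : ℕ}

instance charZero_Kr : CharZero (Kr n) :=
  charZero_of_injective_algebraMap (algebraMap ℂ (Kr n)).injective

instance charZero_Wr : CharZero (Wr n) :=
  charZero_of_injective_algebraMap (algebraMap (Kr n) (Wr n)).injective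

theorem injAW : Function.Injective (algebraMap (Ar n) (Wr n)) := by
  rw [IsScalarTower.algebraMap_eq (Ar n) (Kr n) (Wr n), RingHom.coe_comp]
  exact (algebraMap (Kr n) (Wr n)).injective.comp (IsFractionRing.injective _ _)

instance etale_AK : Algebra.FormallyEtale (Ar n) (Kr n) :=
  Algebra.FormallyEtale.of_isLocalization (nonZeroDivisors (Ar n))

theorem etale_AE (E : Type) [Field E] [Algebra (Kr n) E] [Algebra (Ar n) E]
    [IsScalarTower (Ar n) (Kr n) E] [Algebra.IsAlgebraic (Kr n) E] :
    Algebra.FormallyEtale (Ar n) E :=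
  have : Algebra.FormallyEtale (Kr n) E := Algebra.FormallyEtale.of_isSeparable (Kr n) E
  Algebra.FormallyEtale.comp (Ar n) (Kr n) E

instance etale_AW : Algebra.FormallyEtale (Ar n) (Wr n) := etale_AE (Wr n)

/-- The directional derivative on polynomials. -/
noncomputable def dA (v : Fin n → ℂ) : Der (Ar n) where
  toHom := (MvPolynomial.mkDerivation ℂ fun i => (MvPolynomial.C (v i) : Ar n) :
    Ar n →ₗ[ℂ] Ar n).toAddMonoidHom
  leib x y := (MvPolynomial.mkDerivation ℂ fun i => (MvPolynomial.C (v i) : Ar n)).leibniz x y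

theorem dA_X (v : Fin n → ℂ) (i : Fin n) : dA v (MvPolynomial.X i) = MvPolynomial.C (v i) :=
  MvPolynomial.mkDerivation_X _ _ _

theorem dA_C (v : Fin n → ℂ) (a : ℂ) : dA v (MvPolynomial.C a) = 0 :=
  (MvPolynomial.mkDerivation ℂ fun i => (MvPolynomial.C (v i) : Ar n)).map_algebraMap a

/-- The directional derivative on algebraic functions. -/
noncomputable def dW (v : Fin n → ℂ) : Der (Wr n) :=
  (derivation_ext (Ar n) (Wr n) (dA v)).choose

theorem dW_alg (v : Fin n → ℂ) (a : Ar n) :
    dW v (algebraMap (Ar n) (Wr n) a) = algebraMap (Ar n) (Wr n) (dA v a) :=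
  (derivation_ext (Ar n) (Wr n) (dA v)).choose_spec a

/-- Translation in direction `u`: `f(X) ↦ f(X + λ u)`. -/
noncomputable def shift (u : Fin n → ℂ) : Ar n →+* Polynomial (Ar n) :=
  (MvPolynomial.aeval fun i => (Polynomial.C (MvPolynomial.X i) +
    Polynomial.X * Polynomial.C (MvPolynomial.C (u i)) : Polynomial (Ar n))).toRingHom

theorem shift_X (u : Fin n → ℂ) (i : Fin n) : shift u (MvPolynomial.X i) =
    Polynomial.C (MvPolynomial.X i) + Polynomial.X * Polynomial.C (MvPolynomial.C (u i)) := by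
  change MvPolynomial.aeval _ (MvPolynomial.X i) = _
  rw [MvPolynomial.aeval_X]

theorem shift_C (u : Fin n → ℂ) (a : ℂ) : shift u (MvPolynomial.C a) =
    Polynomial.C (MvPolynomial.C a) := by
  change MvPolynomial.aeval _ (MvPolynomial.C a) = _
  rw [MvPolynomial.aeval_C]
  rfl

theorem shift_eval_zero (u : Fin n → ℂ) (a : Ar n) : (shift u a).eval 0 = a := by
  have h : (Polynomial.evalRingHom (0 : Ar n)).comp (shift u) = RingHom.id (Ar n) := by
    apply MvPolynomial.ringHom_ext
    · intro r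
      simp [shift_C]
    · intro i
      simp [shift_X]
  exact RingHom.congr_fun h a

theorem shift_injective (u : Fin n → ℂ) : Function.Injective (shift u) := by
  intro a b h
  rw [← shift_eval_zero u a, ← shift_eval_zero u b, h]

/-- Translation with values in polynomials over the algebraic functions. -/
noncomputable def sW (u : Fin n → ℂ) : Ar n →+* Polynomial (Wr n) :=
  (Polynomial.mapRingHom (algebraMap (Ar n) (Wr n))).comp (shift u)

theorem sW_injective (u : Fin n → ℂ) : Function.Injective (sW u) := by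
  rw [sW, RingHom.coe_comp]
  exact (Polynomial.map_injective _ injAW).comp (shift_injective u)

theorem sW_X (u : Fin n → ℂ) (i : Fin n) : sW u (MvPolynomial.X i) =
    Polynomial.C (algebraMap (Ar n) (Wr n) (MvPolynomial.X i)) +
    Polynomial.X * Polynomial.C (algebraMap (Ar n) (Wr n) (MvPolynomial.C (u i))) := by
  rw [sW, RingHom.comp_apply, shift_X]
  simp

theorem sW_C (u : Fin n → ℂ) (a : ℂ) : sW u (MvPolynomial.C a) =
    Polynomial.C (algebraMap (Ar n) (Wr n) (MvPolynomial.C a)) := by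
  rw [sW, RingHom.comp_apply, shift_C]
  simp

/-- The generating functions of the class `S m`. -/
noncomputable def gen {m : ℕ} (β : Wr n) (ξ : Fin m → Wr n) (v : Fin m → Fin n → ℂ) : Wr n :=
  β * (Matrix.of fun i j => ld (dW (v j)) (ξ i)).det

/-- The class `S m` of log forms with integral coefficients. -/
noncomputable def S (m n : ℕ) : AddSubgroup ((Fin m → Fin n → ℂ) → Wr n) :=
  AddSubgroup.closure {R | ∃ (β : Wr n) (ξ : Fin m → Wr n), IsIntegral (Ar n) β ∧
    (∀ i, ξ i ≠ 0) ∧ R = gen β ξ}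

theorem gen_mem {m : ℕ} {β : Wr n} {ξ : Fin m → Wr n} (hβ : IsIntegral (Ar n) β)
    (hξ : ∀ i, ξ i ≠ 0) : gen β ξ ∈ S m n :=
  AddSubgroup.subset_closure ⟨β, ξ, hβ, hξ, rfl⟩

theorem mem_S {m : ℕ} {ω : (Fin m → Fin n → ℂ) → Wr n} (h : ω ∈ S m n) :
    ∃ (ι : Type) (_ : Fintype ι) (β : ι → Wr n) (ξ : ι → Fin m → Wr n),
      (∀ l, IsIntegral (Ar n) (β l)) ∧ (∀ l i, ξ l i ≠ 0) ∧ ω = fun v => ∑ l, gen (β l) (ξ l) v := by
  induction h using AddSubgroup.closure_induction with
  | mem x hx =>
    obtain ⟨β, ξ, h1, h2, rfl⟩ := hx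
    exact ⟨Unit, inferInstance, fun _ => β, fun _ => ξ, fun _ => h1, fun _ => h2, by
      funext v
      simp⟩
  | zero =>
    exact ⟨Empty, inferInstance, fun l => l.elim, fun l => l.elim, fun l => l.elim,
      fun l => l.elim, by
        funext v
        simp⟩
  | add x y _ _ hx hy =>
    obtain ⟨ι, fι, β, ξ, h1, h2, rfl⟩ := hx
    obtain ⟨ι', fι', β', ξ', h1', h2', rfl⟩ := hy
    refine ⟨ι ⊕ ι', inferInstance, Sum.elim β β', Sum.elim ξ ξ', ?_, ?_, ?_⟩
    · rintro (l | l)
      · exact h1 l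
      · exact h1' l
    · rintro (l | l)
      · exact h2 l
      · exact h2' l
    · funext v
      simp
  | neg x _ hx =>
    obtain ⟨ι, fι, β, ξ, h1, h2, rfl⟩ := hx
    refine ⟨ι, fι, fun l => - β l, ξ, fun l => (h1 l).neg, h2, ?_⟩
    funext v
    simp [gen]

end Pool.Agent.Helper62.D4
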