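import Mathlib
import Pool.Agent.Helper62.D4.Deriv

namespace Pool.Agent.Helper62.D4

open Polynomial

variable {F : Type*} [Field F]

/-- Substitution of `c + ρ` in a polynomial. -/
noncomputable def sub (c : F) (ρ : PowerSeries F) : F[X] →+* PowerSeries F :=
  eval₂RingHom PowerSeries.C (PowerSeries.C c + ρ)

theorem sub_C (c : F) (ρ : PowerSeries F) (a : F) : sub c ρ (C a) = PowerSeries.C a := by
  simp [sub]

theorem sub_X (c : F) (ρ : PowerSeries F) : sub c ρ X = PowerSeries.C c + ρ := by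
  simp [sub]

theorem sub_X_sub_C (c : F) (ρ : PowerSeries F) : sub c ρ (X - C c) = ρ := by
  rw [map_sub, sub_C, sub_X]
  ring

theorem constantCoeff_sub (c : F) {ρ : PowerSeries F} (hρ : PowerSeries.constantCoeff ρ = 0)
    (p : F[X]) : PowerSeries.constantCoeff (sub c ρ p) = p.eval c := by
  have h : (PowerSeries.constantCoeff (R := F)).comp (sub c ρ) = evalRingHom c := by
    apply Polynomial.ringHom_ext
    · intro a
      simp [sub_C]
    · simp [sub_X, hρ]
  exact RingHom.congr_fun h p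

theorem exists_order {ρ : PowerSeries F} (hρ : ρ ≠ 0) :
    ∃ (e : ℕ) (ρ1 : PowerSeries F), ρ = PowerSeries.X ^ e * ρ1 ∧
      PowerSeries.constantCoeff ρ1 ≠ 0 := by
  refine ⟨ρ.order.toNat, PowerSeries.divXPowOrder ρ, ?_, ?_⟩
  · exact (PowerSeries.X_pow_order_mul_divXPowOrder (f := ρ)).symm
  · exact PowerSeries.constantCoeff_divXPowOrder_eq_zero_iff.not.2 hρ

theorem X_pow_dvd_unit {m k : ℕ} {U H : PowerSeries F} (hU : PowerSeries.constantCoeff U ≠ 0)
    (h : PowerSeries.X ^ m * U = PowerSeries.X ^ k * H) : k ≤ m := by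
  by_contra hlt
  push Not at hlt
  obtain ⟨j, hj⟩ := Nat.exists_eq_add_of_lt hlt
  have hX : (PowerSeries.X : PowerSeries F) ^ m ≠ 0 := pow_ne_zero _ PowerSeries.X_ne_zero
  have h1 : U = PowerSeries.X ^ (j + 1) * H := by
    apply mul_left_cancel₀ hX
    rw [h, hj]
    ring
  apply hU
  rw [h1]
  simp

theorem xD_X_pow_mul (e : ℕ) (ρ1 : PowerSeries F) :
    PowerSeries.X * xD F (PowerSeries.X ^ e * ρ1) =
      PowerSeries.X ^ e * ((e : PowerSeries F) * ρ1 + PowerSeries.X * xD F ρ1) := by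
  cases e with
  | zero => simp
  | succ e =>
    rw [(xD F).map_mul, (xD F).map_pow, xD_X]
    push_cast
    ring

theorem xD_ne_zero [CharZero F] {ρ : PowerSeries F} (hρ0 : PowerSeries.constantCoeff ρ = 0)
    (hρ : ρ ≠ 0) : xD F ρ ≠ 0 := by
  obtain ⟨e, ρ1, h1, h2⟩ := exists_order hρ
  intro h
  have h3 := xD_X_pow_mul e ρ1
  rw [← h1, h, mul_zero] at h3
  have he : e ≠ 0 := by
    rintro rfl
    rw [pow_zero, one_mul] at h1
    rw [h1] at hρ0
    exact h2 hρ0
  rcases mul_eq_zero.1 h3.symm with h4 | h4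
  · exact pow_ne_zero _ PowerSeries.X_ne_zero h4
  · have h5 := congrArg (PowerSeries.constantCoeff (R := F)) h4
    simp only [map_add, map_mul, map_natCast, PowerSeries.constantCoeff_X, zero_mul, add_zero,
      map_zero, mul_eq_zero, Nat.cast_eq_zero] at h5
    rcases h5 with h5 | h5
    · exact he h5
    · exact h2 h5

/-- Comparison of residues: the parameter `ρ` has order `e`. -/
theorem compare [CharZero F] {ρ : PowerSeries F} (hρ0 : PowerSeries.constantCoeff ρ = 0)
    (hρ : ρ ≠ 0) : ∃ e : ℕ, e ≠ 0 ∧ ∀ (c : F) (H : PowerSeries F) (N Q1 : F[X]) (q : ℕ),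
      Q1.eval c ≠ 0 →
      PowerSeries.X * xD F ρ * sub c ρ N = H * sub c ρ ((X - C c) ^ q * Q1) →
      ∃ N1 : F[X], (X - C c) * N = (X - C c) ^ q * N1 ∧
        PowerSeries.constantCoeff H * Q1.eval c = e * N1.eval c := by
  obtain ⟨e, ρ1, h1, h2⟩ := exists_order hρ
  have he : e ≠ 0 := by
    rintro rfl
    rw [pow_zero, one_mul] at h1
    rw [h1] at hρ0
    exact h2 hρ0
  refine ⟨e, he, ?_⟩
  intro c H N Q1 q hQ1 hmain
  set ρ2 : PowerSeries F := (e : PowerSeries F) * ρ1 + PowerSeries.X * xD F ρ1 with hρ2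
  have hρ2c : PowerSeries.constantCoeff ρ2 = e * PowerSeries.constantCoeff ρ1 := by
    rw [hρ2]
    simp
  have hXρ : PowerSeries.X * xD F ρ = PowerSeries.X ^ e * ρ2 := by
    conv_lhs => rw [h1]
    exact xD_X_pow_mul e ρ1
  have hsubpow : ∀ k : ℕ, sub c ρ ((X - C c) ^ k) = ρ ^ k := by
    intro k
    rw [map_pow, sub_X_sub_C]
  rw [hXρ, map_mul, hsubpow] at hmain
  -- existence of N1
  have hN1 : ∃ N1 : F[X], (X - C c) * N = (X - C c) ^ q * N1 := by
    rcases eq_or_ne N 0 with rfl | hN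
    · exact ⟨0, by simp⟩
    obtain ⟨N0, hN0, hN0c⟩ := Polynomial.exists_eq_pow_rootMultiplicity_mul_and_not_dvd N hN c
    set p := N.rootMultiplicity c
    have hN0e : N0.eval c ≠ 0 := by
      intro h
      exact hN0c (dvd_iff_isRoot.2 h)
    have hle : q ≤ p + 1 := by
      have h3 : PowerSeries.X ^ (e * (p + 1)) * (ρ2 * ρ1 ^ p * sub c ρ N0) =
          PowerSeries.X ^ (e * q) * (H * ρ1 ^ q * sub c ρ Q1) := by
        rw [hN0, map_mul, hsubpow] at hmain
        have e1 : ρ ^ p = PowerSeries.X ^ (e * p) * ρ1 ^ p := by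
          conv_lhs => rw [h1]
          rw [mul_pow, pow_mul]
        have e2 : ρ ^ q = PowerSeries.X ^ (e * q) * ρ1 ^ q := by
          conv_lhs => rw [h1]
          rw [mul_pow, pow_mul]
        rw [e1, e2] at hmain
        rw [mul_add, mul_one, pow_add]
        linear_combination hmain
      have h4 := X_pow_dvd_unit (by
        simp only [map_mul, map_pow]
        refine mul_ne_zero (mul_ne_zero ?_ (pow_ne_zero _ h2)) ?_
        · rw [hρ2c]
          exact mul_ne_zero (Nat.cast_ne_zero.2 he) h2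
        · rw [constantCoeff_sub c hρ0]
          exact hN0e) h3
      exact Nat.le_of_mul_le_mul_left h4 (Nat.pos_of_ne_zero he)
    refine ⟨(X - C c) ^ (p + 1 - q) * N0, ?_⟩
    rw [← mul_assoc, ← pow_add, Nat.add_sub_cancel' hle, hN0, pow_succ]
    ring
  obtain ⟨N1, hN1⟩ := hN1
  refine ⟨N1, hN1, ?_⟩
  have hρq : ρ ^ q ≠ 0 := pow_ne_zero _ hρ
  have h5 : ρ * sub c ρ N = ρ ^ q * sub c ρ N1 := by
    have := congrArg (sub c ρ) hN1
    rwa [map_mul, map_mul, hsubpow, sub_X_sub_C] at this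
  have h6 : ρ2 * sub c ρ N1 = H * ρ1 * sub c ρ Q1 := by
    apply mul_left_cancel₀ hρq
    have h7 : ρ * ρ2 * sub c ρ N = H * ρ1 * (ρ ^ q * sub c ρ Q1) := by
      have h10 : ρ * ρ2 * sub c ρ N = (PowerSeries.X ^ e * ρ1) * ρ2 * sub c ρ N := by
        rw [← h1]
      rw [h10]
      linear_combination ρ1 * hmain
    calc ρ ^ q * (ρ2 * sub c ρ N1) = ρ2 * (ρ ^ q * sub c ρ N1) := by ring
      _ = ρ2 * (ρ * sub c ρ N) := by rw [h5]
      _ = ρ * ρ2 * sub c ρ N := by ring
      _ = _ := by rw [h7]; ring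
  have h8 := congrArg (PowerSeries.constantCoeff (R := F)) h6
  rw [map_mul, map_mul, map_mul, hρ2c, constantCoeff_sub c hρ0, constantCoeff_sub c hρ0] at h8
  have h9 : PowerSeries.constantCoeff ρ1 * (PowerSeries.constantCoeff H * Q1.eval c) =
      PowerSeries.constantCoeff ρ1 * (e * N1.eval c) := by
    linear_combination - h8
  exact mul_left_cancel₀ h2 h9

end Pool.Agent.Helper62.D4
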