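import Mathlib

/-!
# Power series expansions

A discrete valuation ring with a coefficient field embeds into a power series ring, and a finite
extension of a rational function field over an algebraically closed field of characteristic zero
embeds into the field of Laurent series, with the variable going to `c + ρ`, `ρ` of positive order.
-/

namespace Pool.Agent.Helper62.D4

open Polynomial

section DVR

variable {F O : Type*} [Field F] [CommRing O] [IsDomain O] [IsDiscreteValuationRing O]
  [Algebra F O]

theorem exists_expansion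
    (hs : ∀ b : O, ∃ a : F, b - algebraMap F O a ∈ IsLocalRing.maximalIdeal O) :
    ∃ ι : O →+* PowerSeries F, Function.Injective ι ∧
      (∀ a, ι (algebraMap F O a) = PowerSeries.C a) ∧
      (∀ b ∈ IsLocalRing.maximalIdeal O, PowerSeries.constantCoeff (ι b) = 0) := by
  obtain ⟨w, hw⟩ := IsDiscreteValuationRing.exists_irreducible O
  have hmax : IsLocalRing.maximalIdeal O = Ideal.span {w} := hw.maximalIdeal_eq
  have hw0 : w ≠ 0 := hw.ne_zero
  have key : ∀ b : O, ∃ a : F, ∃ t : O, b = algebraMap F O a + w * t := by
    intro b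
    obtain ⟨a, ha⟩ := hs b
    rw [hmax, Ideal.mem_span_singleton] at ha
    obtain ⟨t, ht⟩ := ha
    exact ⟨a, t, by rw [← ht]; ring⟩
  choose r T hrT using key
  have hinj : ∀ a : F, algebraMap F O a ∈ IsLocalRing.maximalIdeal O → a = 0 := by
    intro a ha
    by_contra h
    have hu : IsUnit (algebraMap F O a) := (IsUnit.mk0 a h).map _
    exact (IsLocalRing.mem_maximalIdeal _).1 ha hu
  have huniq : ∀ (a a' : F) (t t' : O),
      algebraMap F O a + w * t = algebraMap F O a' + w * t' → a = a' ∧ t = t' := by
    intro a a' t t' h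
    have h1 : algebraMap F O (a - a') = w * (t' - t) := by
      rw [map_sub]
      linear_combination h
    have h2 : a - a' = 0 := by
      apply hinj
      rw [h1, hmax]
      exact Ideal.mul_mem_right _ _ (Ideal.subset_span rfl)
    have h3 : a = a' := sub_eq_zero.1 h2
    refine ⟨h3, ?_⟩
    rw [h2, map_zero] at h1
    rcases mul_eq_zero.1 h1.symm with h4 | h4
    · exact absurd h4 hw0
    · exact (sub_eq_zero.1 h4).symm
  have hrC : ∀ a : F, r (algebraMap F O a) = a ∧ T (algebraMap F O a) = 0 := by
    intro a
    apply huniq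
    rw [← hrT]
    ring
  have hadd : ∀ b b' : O, r (b + b') = r b + r b' ∧ T (b + b') = T b + T b' := by
    intro b b'
    apply huniq
    rw [← hrT, map_add]
    conv_lhs => rw [hrT b, hrT b']
    ring
  have hmul : ∀ b b' : O, r (b * b') = r b * r b' ∧
      T (b * b') = T b * b' + algebraMap F O (r b) * T b' := by
    intro b b'
    apply huniq
    rw [← hrT, map_mul]
    have h1 := hrT b
    have h2 := hrT b'
    linear_combination b' * h1 + algebraMap F O (r b) * h2
  have hT0 : ∀ n : ℕ, T^[n] 0 = 0 := by
    intro n
    have h0 : T 0 = 0 := by simpa using (hrC 0).2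
    exact Function.iterate_fixed h0 n
  have hr0 : r 0 = 0 := by simpa using (hrC 0).1
  have hTadd : ∀ (n : ℕ) (b b' : O), T^[n] (b + b') = T^[n] b + T^[n] b' := by
    intro n
    induction n with
    | zero => intro b b'; rfl
    | succ n ih =>
      intro b b'
      rw [Function.iterate_succ_apply, Function.iterate_succ_apply, Function.iterate_succ_apply,
        (hadd b b').2, ih]
  let j : O → PowerSeries F := fun b => PowerSeries.mk fun n => r (T^[n] b)
  have hj : ∀ b, j b = PowerSeries.C (r b) + PowerSeries.X * j (T b) := by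
    intro b
    ext n
    cases n with
    | zero => simp [j]
    | succ n =>
      simp only [j, PowerSeries.coeff_mk, map_add, PowerSeries.coeff_succ_X_mul,
        PowerSeries.coeff_C, Function.iterate_succ_apply]
      simp
  have hjc : ∀ b, PowerSeries.constantCoeff (j b) = r b := by
    intro b
    rw [← PowerSeries.coeff_zero_eq_constantCoeff_apply]
    simp [j]
  have hjadd : ∀ b b', j (b + b') = j b + j b' := by
    intro b b'
    ext n
    simp only [j, PowerSeries.coeff_mk, map_add]
    rw [hTadd, (hadd _ _).1]
  have hjC : ∀ a : F, j (algebraMap F O a) = PowerSeries.C a := by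
    intro a
    rw [hj, (hrC a).1, (hrC a).2]
    have : j 0 = 0 := by
      ext n
      simp only [j, PowerSeries.coeff_mk]
      rw [hT0, hr0, map_zero]
    rw [this]
    simp
  have hjmulC : ∀ (n : ℕ) (a : F) (b : O), PowerSeries.coeff n (j (algebraMap F O a * b)) =
      a * PowerSeries.coeff n (j b) := by
    intro n
    induction n with
    | zero =>
      intro a b
      rw [PowerSeries.coeff_zero_eq_constantCoeff_apply, PowerSeries.coeff_zero_eq_constantCoeff_apply,
        hjc, hjc, (hmul _ _).1, (hrC a).1]
    | succ n ih =>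
      intro a b
      rw [hj, hj b]
      simp only [map_add, PowerSeries.coeff_succ_X_mul, PowerSeries.coeff_C]
      rw [(hmul _ _).2, (hrC a).1, (hrC a).2, zero_mul, zero_add, ih]
      simp
  have hjmul : ∀ (n : ℕ) (b b' : O), PowerSeries.coeff n (j (b * b')) =
      PowerSeries.coeff n (j b * j b') := by
    intro n
    induction n with
    | zero =>
      intro b b'
      rw [PowerSeries.coeff_zero_eq_constantCoeff_apply, PowerSeries.coeff_zero_eq_constantCoeff_apply,
        map_mul, hjc, hjc, hjc, (hmul _ _).1]
    | succ n ih =>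
      intro b b'
      rw [hj (b * b')]
      have e1 : j b * j b' = PowerSeries.C (r b) * j b' + PowerSeries.X * (j (T b) * j b') := by
        conv_lhs => rw [hj b]
        ring
      rw [e1, map_add, map_add, PowerSeries.coeff_succ_X_mul, PowerSeries.coeff_succ_X_mul,
        PowerSeries.coeff_C_mul, (hmul b b').2, hjadd, map_add, ih, hjmulC]
      have e2 : PowerSeries.coeff (n + 1) (j b') = PowerSeries.coeff n (j (T b')) := by
        rw [hj b', map_add, PowerSeries.coeff_succ_X_mul, PowerSeries.coeff_C]
        simp
      rw [e2, PowerSeries.coeff_C]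
      simp
      ring
  let ι : O →+* PowerSeries F :=
    { toFun := j
      map_one' := by
        have := hjC 1
        rwa [map_one, map_one] at this
      map_mul' := fun b b' => by ext n; exact hjmul n b b'
      map_zero' := by
        have := hjC 0
        rwa [map_zero, map_zero] at this
      map_add' := hjadd }
  refine ⟨ι, ?_, hjC, ?_⟩
  · rw [injective_iff_map_eq_zero]
    intro b hb
    have hcoef : ∀ n, r (T^[n] b) = 0 := by
      intro n
      have := congrArg (PowerSeries.coeff n) hb
      simpa [ι, j] using this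
    have hdvd : ∀ n, b = w ^ n * T^[n] b := by
      intro n
      induction n with
      | zero => simp
      | succ n ih =>
        have h1 := hrT (T^[n] b)
        rw [hcoef n, map_zero, zero_add] at h1
        rw [Function.iterate_succ_apply', pow_succ, mul_assoc, ← h1]
        exact ih
    by_contra hb0
    have hmem : ∀ n, b ∈ IsLocalRing.maximalIdeal O ^ n := by
      intro n
      rw [hmax, Ideal.span_singleton_pow, Ideal.mem_span_singleton]
      exact ⟨_, hdvd n⟩
    have h0 : (⨅ n : ℕ, IsLocalRing.maximalIdeal O ^ n) = ⊥ :=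
      Ideal.iInf_pow_eq_bot_of_isLocalRing _ (IsLocalRing.maximalIdeal.isMaximal O).ne_top
    have : b ∈ (⨅ n : ℕ, IsLocalRing.maximalIdeal O ^ n) := by
      rw [Submodule.mem_iInf]
      exact hmem
    rw [h0] at this
    exact hb0 this
  · intro b hb
    change PowerSeries.constantCoeff (j b) = 0
    rw [hjc]
    apply hinj
    have h1 := hrT b
    have h2 : algebraMap F O (r b) = b - w * T b := by
      linear_combination - h1
    rw [h2]
    refine Ideal.sub_mem _ hb ?_
    rw [hmax]
    exact Ideal.mul_mem_right _ _ (Ideal.subset_span rfl)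

end DVR

section Maximal

variable {F B O : Type*} [Field F] [CommRing B]

theorem expansion_aux [CommRing O] [IsDomain O] [IsDiscreteValuationRing O] [Algebra B O]
    (f : F →+* B) (Q : Ideal B) [Q.IsMaximal] [IsLocalization.AtPrime O Q]
    (hBO : Function.Injective (algebraMap B O)) (hBres : ∀ b : B, ∃ a : F, b - f a ∈ Q) :
    ∃ ι : B →+* PowerSeries F, Function.Injective ι ∧ (∀ a, ι (f a) = PowerSeries.C a) ∧
      ∀ b ∈ Q, PowerSeries.constantCoeff (ι b) = 0 := by
  let algFO : Algebra F O := ((algebraMap B O).comp f).toAlgebra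
  have halgFO : ∀ a : F, algebraMap F O a = algebraMap B O (f a) := fun _ => rfl
  have hmemO : ∀ b : B, b ∈ Q → algebraMap B O b ∈ IsLocalRing.maximalIdeal O := by
    intro b hb
    exact (IsLocalization.AtPrime.to_map_mem_maximal_iff O Q b).2 hb
  have hs : ∀ z : O, ∃ a : F, z - algebraMap F O a ∈ IsLocalRing.maximalIdeal O := by
    intro z
    obtain ⟨x, s, rfl⟩ := IsLocalization.exists_mk'_eq Q.primeCompl z
    obtain ⟨ax, hax⟩ := hBres x
    obtain ⟨as, has⟩ := hBres (s : B)
    have has0 : as ≠ 0 := by
      rintro rfl
      rw [map_zero, sub_zero] at has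
      exact s.2 has
    refine ⟨ax / as, ?_⟩
    have hunit : IsUnit (algebraMap B O (s : B)) := IsLocalization.map_units O s
    have h1 : algebraMap B O (s : B) * (IsLocalization.mk' O x s - algebraMap F O (ax / as)) ∈
        IsLocalRing.maximalIdeal O := by
      have e1 : algebraMap B O (s : B) * IsLocalization.mk' O x s = algebraMap B O x :=
        IsLocalization.mk'_spec' O x s
      have e2 : algebraMap F O ax = algebraMap F O (ax / as) * algebraMap F O as := by
        rw [← map_mul, div_mul_cancel₀ _ has0]
      have e3 : algebraMap B O (s : B) * (IsLocalization.mk' O x s - algebraMap F O (ax / as)) =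
          algebraMap B O (x - f ax) -
          algebraMap F O (ax / as) * algebraMap B O ((s : B) - f as) := by
        rw [map_sub, map_sub, ← halgFO, ← halgFO, e2, ← e1]
        ring
      rw [e3]
      exact Ideal.sub_mem _ (hmemO _ hax) (Ideal.mul_mem_left _ _ (hmemO _ has))
    have h2 := (IsLocalRing.maximalIdeal.isMaximal O).isPrime.mem_or_mem h1
    rcases h2 with h2 | h2
    · exact absurd hunit ((IsLocalRing.mem_maximalIdeal _).1 h2)
    · exact h2
  obtain ⟨ι, hιinj, hιC, hιmax⟩ := exists_expansion hs
  refine ⟨ι.comp (algebraMap B O), ?_, ?_, ?_⟩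
  · rw [RingHom.coe_comp]
    exact hιinj.comp hBO
  · intro a
    rw [RingHom.comp_apply, ← halgFO, hιC]
  · intro b hb
    exact hιmax _ (hmemO _ hb)

theorem exists_expansion_of_maximal [IsDedekindDomain B] (f : F →+* B) (Q : Ideal B) [hm : Q.IsMaximal]
    (hQ : Q ≠ ⊥) (hBres : ∀ b : B, ∃ a : F, b - f a ∈ Q) :
    ∃ ι : B →+* PowerSeries F, Function.Injective ι ∧ (∀ a, ι (f a) = PowerSeries.C a) ∧
      ∀ b ∈ Q, PowerSeries.constantCoeff (ι b) = 0 := by
  have hQprime : Q.IsPrime := hm.isPrime
  have : IsDiscreteValuationRing (Localization.AtPrime Q) :=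
    IsLocalization.AtPrime.isDiscreteValuationRing_of_dedekind_domain B hQ _
  exact expansion_aux (O := Localization.AtPrime Q) f Q
    (IsLocalization.injective _ Q.primeCompl_le_nonZeroDivisors) hBres

end Maximal

section FiniteExt

variable {F L B : Type*} [Field F] [IsAlgClosed F]

theorem residue_surj [CommRing B] (c : F) (a : F[X] →+* B) (ha : a.IsIntegral) (Q : Ideal B)
    [Q.IsMaximal] (hXc : a (X - C c) ∈ Q) (b : B) : ∃ x : F, b - (a.comp C) x ∈ Q := by
  let g : F →+* B ⧸ Q := (Ideal.Quotient.mk Q).comp (a.comp C)
  have hfg : ∀ p : F[X], Ideal.Quotient.mk Q (a p) = g (p.eval c) := by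
    intro p
    change _ = Ideal.Quotient.mk Q (a (C (p.eval c)))
    rw [Ideal.Quotient.eq, ← map_sub]
    obtain ⟨t, ht⟩ := X_sub_C_dvd_sub_C_eval (a := c) (p := p)
    rw [ht, map_mul]
    exact Ideal.mul_mem_right _ _ hXc
  have hdom : IsDomain (B ⧸ Q) := Ideal.Quotient.isDomain Q
  have hgsurj : Function.Surjective g := by
    let algg : Algebra F (B ⧸ Q) := g.toAlgebra
    have hint : Algebra.IsIntegral F (B ⧸ Q) := by
      constructor
      intro z
      obtain ⟨b, rfl⟩ := Ideal.Quotient.mk_surjective z
      obtain ⟨p, hpm, hp⟩ := ha b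
      refine ⟨p.map (evalRingHom c), hpm.map _, ?_⟩
      have h1 : (algebraMap F (B ⧸ Q)) = g := rfl
      rw [h1, eval₂_map]
      have h2 : g.comp (evalRingHom c) = (Ideal.Quotient.mk Q).comp a := by
        apply RingHom.ext
        intro p
        exact (hfg p).symm
      rw [h2, ← hom_eval₂, hp, map_zero]
    exact (IsAlgClosed.algebraMap_bijective_of_isIntegral (k := F) (K := B ⧸ Q)).2
  obtain ⟨x, hx⟩ := hgsurj (Ideal.Quotient.mk Q b)
  refine ⟨x, ?_⟩
  rw [← Ideal.Quotient.eq]
  exact hx.symm

variable [CharZero F] [Field L]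

/-- A finite extension of `F(X)`, `F` algebraically closed of characteristic zero, embeds into
Laurent series over `F`, with `X` going to `c + ρ`, `ρ ≠ 0` without constant term. -/
theorem exists_laurent [Algebra (RatFunc F) L] [FiniteDimensional (RatFunc F) L] (c : F) :
    ∃ (φ : L →+* LaurentSeries F) (ρ : PowerSeries F), PowerSeries.constantCoeff ρ = 0 ∧ ρ ≠ 0 ∧
      (∀ a : F, φ (algebraMap (RatFunc F) L (RatFunc.C a)) =
        algebraMap (PowerSeries F) (LaurentSeries F) (PowerSeries.C a)) ∧
      φ (algebraMap (RatFunc F) L RatFunc.X) =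
        algebraMap (PowerSeries F) (LaurentSeries F) (PowerSeries.C c + ρ) := by
  let alg1 : Algebra F[X] L :=
    ((algebraMap (RatFunc F) L).comp (algebraMap F[X] (RatFunc F))).toAlgebra
  have tow1 : IsScalarTower F[X] (RatFunc F) L := IsScalarTower.of_algebraMap_eq fun _ => rfl
  have hcz : CharZero (RatFunc F) :=
    charZero_of_injective_algebraMap (algebraMap F (RatFunc F)).injective
  let B := integralClosure F[X] L
  have hDed : IsDedekindDomain B := integralClosure.isDedekindDomain F[X] (RatFunc F) L
  have hfrac : IsFractionRing B L := integralClosure.isFractionRing_of_finite_extension (RatFunc F) L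
  have hint : Algebra.IsIntegral F[X] B := inferInstance
  have hinjB : Function.Injective (algebraMap F[X] B) := by
    have h1 : Function.Injective (algebraMap F[X] L) :=
      (algebraMap (RatFunc F) L).injective.comp (IsFractionRing.injective F[X] (RatFunc F))
    have h2 : algebraMap F[X] L = (algebraMap B L).comp (algebraMap F[X] B) :=
      IsScalarTower.algebraMap_eq F[X] B L
    rw [h2, RingHom.coe_comp] at h1
    exact Function.Injective.of_comp h1
  have hPmax : (Ideal.span {(X - C c : F[X])}).IsMaximal :=
    PrincipalIdealRing.isMaximal_of_irreducible (Polynomial.irreducible_X_sub_C c)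
  obtain ⟨Q, hQmax, hQcomap⟩ := Ideal.exists_ideal_over_maximal_of_isIntegral (S := B)
    (Ideal.span {(X - C c : F[X])}) (by
      rw [(RingHom.injective_iff_ker_eq_bot _).1 hinjB]
      exact bot_le)
  have hXc : algebraMap F[X] B (X - C c) ∈ Q := by
    have : (X - C c : F[X]) ∈ Q.comap (algebraMap F[X] B) := by
      rw [hQcomap]
      exact Ideal.subset_span rfl
    exact this
  have hXc0 : algebraMap F[X] B (X - C c) ≠ 0 := by
    intro h
    have h1 := hinjB (h.trans (map_zero (algebraMap F[X] B)).symm)
    exact X_sub_C_ne_zero c h1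
  have hQbot : Q ≠ ⊥ := by
    intro h
    rw [h] at hXc
    exact hXc0 (by simpa using hXc)
  obtain ⟨ι, hιinj, hιC, hιQ⟩ := exists_expansion_of_maximal ((algebraMap F[X] B).comp C) Q hQbot
    (residue_surj c (algebraMap F[X] B) (fun b => Algebra.IsIntegral.isIntegral b) Q hXc)
  have hκinj : Function.Injective
      ((algebraMap (PowerSeries F) (LaurentSeries F)).comp ι) := by
    rw [RingHom.coe_comp]
    exact (IsFractionRing.injective (PowerSeries F) (LaurentSeries F)).comp hιinj
  have hφ : ∀ b : B, IsFractionRing.lift (K := L) hκinj (algebraMap B L b) =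
      ((algebraMap (PowerSeries F) (LaurentSeries F)).comp ι) b :=
    fun b => IsFractionRing.lift_algebraMap hκinj b
  have hφp : ∀ p : F[X], IsFractionRing.lift (K := L) hκinj
      (algebraMap (RatFunc F) L (algebraMap F[X] (RatFunc F) p)) =
      (algebraMap (PowerSeries F) (LaurentSeries F)) (ι (algebraMap F[X] B p)) := by
    intro p
    have := hφ (algebraMap F[X] B p)
    rw [RingHom.comp_apply] at this
    rw [← this]
    rfl
  refine ⟨IsFractionRing.lift (K := L) hκinj, ι (algebraMap F[X] B (X - C c)), ?_, ?_, ?_, ?_⟩
  · exact hιQ _ hXc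
  · intro h
    have h1 := hιinj (h.trans (map_zero ι).symm)
    exact hXc0 h1
  · intro a
    rw [← RatFunc.algebraMap_C, hφp]
    congr 1
    exact hιC a
  · rw [← RatFunc.algebraMap_X, hφp]
    congr 1
    have e1 : (X : F[X]) = C c + (X - C c) := by ring
    conv_lhs => rw [e1]
    rw [map_add, map_add]
    congr 1
    exact hιC c

end FiniteExt

end Pool.Agent.Helper62.D4
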