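import Mathlib
import Pool.Agent.Helper62.D4.Expand

namespace Pool.Agent.Helper62.D4

open Polynomial TensorProduct

universe u

/-- Compositum: a finite extension `E / K` and a field `R` over `K` sit in a finite extension of
`R`. -/
theorem exists_compositum (K E R : Type u) [Field K] [Field E] [Field R] [Algebra K E]
    [FiniteDimensional K E] [Algebra K R] :
    ∃ (L : Type u) (_ : Field L) (_ : Algebra R L), FiniteDimensional R L ∧
      ∃ ν : E →+* L, ∀ k : K, ν (algebraMap K E k) = algebraMap R L (algebraMap K R k) := by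
  have hnt : Nontrivial (R ⊗[K] E) := inferInstance
  obtain ⟨m, hm⟩ := Ideal.exists_maximal (R ⊗[K] E)
  let fld : Field ((R ⊗[K] E) ⧸ m) := Ideal.Quotient.field m
  refine ⟨(R ⊗[K] E) ⧸ m, fld, inferInstance, ?_, ?_⟩
  · have h1 : Module.Finite R (R ⊗[K] E) := inferInstance
    exact Module.Finite.of_surjective
      ((Ideal.Quotient.mkₐ R m).toLinearMap) (Ideal.Quotient.mkₐ_surjective R m)
  · refine ⟨(Ideal.Quotient.mk m).comp
      (Algebra.TensorProduct.includeRight (R := K) (A := R) (B := E)).toRingHom, ?_⟩
    intro k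
    have h1 : (Algebra.TensorProduct.includeRight (R := K) (A := R) (B := E)) (algebraMap K E k) =
        algebraMap R (R ⊗[K] E) (algebraMap K R k) := by
      rw [AlgHom.commutes]
      rfl
    change Ideal.Quotient.mk m ((Algebra.TensorProduct.includeRight (R := K) (A := R) (B := E))
      (algebraMap K E k)) = _
    rw [h1]
    rfl

theorem exists_psi {A K E W : Type u} [CommRing A] [IsDomain A] [Field K] [Algebra A K]
    [IsFractionRing A K] [Field E] [Algebra K E] [Algebra A E] [IsScalarTower A K E]
    [FiniteDimensional K E] [Field W] [IsAlgClosed W] [CharZero W] (s : A →+* W[X])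
    (hs : Function.Injective s) (c : W) :
    ∃ (ψ : E →+* LaurentSeries W) (ρ : PowerSeries W), PowerSeries.constantCoeff ρ = 0 ∧ ρ ≠ 0 ∧
      ∀ a : A, ψ (algebraMap A E a) =
        algebraMap (PowerSeries W) (LaurentSeries W)
          ((s a).eval₂ PowerSeries.C (PowerSeries.C c + ρ)) := by
  have hinj : Function.Injective ((algebraMap W[X] (RatFunc W)).comp s) := by
    rw [RingHom.coe_comp]
    exact (IsFractionRing.injective W[X] (RatFunc W)).comp hs
  let sK : K →+* RatFunc W := IsFractionRing.lift hinj
  have hsK : ∀ a : A, sK (algebraMap A K a) = algebraMap W[X] (RatFunc W) (s a) :=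
    fun a => IsFractionRing.lift_algebraMap hinj a
  obtain ⟨L, fL, aL, fin, ν, hν⟩ := @exists_compositum K E (RatFunc W) _ _ _ _ _ sK.toAlgebra
  obtain ⟨φ, ρ, h0, h1, h2, h3⟩ := exists_laurent (F := W) (L := L) c
  refine ⟨φ.comp ν, ρ, h0, h1, ?_⟩
  intro a
  have hp : ∀ p : W[X], φ (algebraMap (RatFunc W) L (algebraMap W[X] (RatFunc W) p)) =
      algebraMap (PowerSeries W) (LaurentSeries W)
        (p.eval₂ PowerSeries.C (PowerSeries.C c + ρ)) := by
    have key : (φ.comp (algebraMap (RatFunc W) L)).comp (algebraMap W[X] (RatFunc W)) =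
        (algebraMap (PowerSeries W) (LaurentSeries W)).comp
          (eval₂RingHom PowerSeries.C (PowerSeries.C c + ρ)) := by
      apply Polynomial.ringHom_ext
      · intro x
        simp only [RingHom.comp_apply, coe_eval₂RingHom, eval₂_C]
        rw [RatFunc.algebraMap_C]
        exact h2 x
      · simp only [RingHom.comp_apply, coe_eval₂RingHom, eval₂_X]
        rw [RatFunc.algebraMap_X]
        exact h3
    intro p
    exact RingHom.congr_fun key p
  rw [IsScalarTower.algebraMap_apply A K E, RingHom.comp_apply, hν, ← hp]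
  congr 2
  exact hsK a

end Pool.Agent.Helper62.D4
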