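import Mathlib
import Pool.Agent.Helper62.D4.Basic
import Pool.Agent.Helper62.D4.Compare
import Pool.Agent.Helper62.D4.Compositum

namespace Pool.Agent.Helper62.D4

variable {n : ℕ}

/-- The Taylor expansion at `c + ρ` in direction `u`. -/
noncomputable def tau (u : Fin n → ℂ) (c : Wr n) (ρ : PowerSeries (Wr n)) :
    Ar n →+* PowerSeries (Wr n) := (sub c ρ).comp (sW u)

theorem tau_C (u : Fin n → ℂ) (c : Wr n) (ρ : PowerSeries (Wr n)) (a : ℂ) :
    tau u c ρ (MvPolynomial.C a) =
      PowerSeries.C (algebraMap (Ar n) (Wr n) (MvPolynomial.C a)) := by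
  rw [tau, RingHom.comp_apply, sW_C, sub_C]

theorem tau_X (u : Fin n → ℂ) (c : Wr n) (ρ : PowerSeries (Wr n)) (i : Fin n) :
    tau u c ρ (MvPolynomial.X i) =
      PowerSeries.C (algebraMap (Ar n) (Wr n) (MvPolynomial.X i)) +
      (PowerSeries.C c + ρ) *
        PowerSeries.C (algebraMap (Ar n) (Wr n) (MvPolynomial.C (u i))) := by
  rw [tau, RingHom.comp_apply, sW_X, map_add, map_mul, sub_C, sub_C, sub_X]

theorem dW_C (v : Fin n → ℂ) (a : ℂ) :
    dW v (algebraMap (Ar n) (Wr n) (MvPolynomial.C a)) = 0 := by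
  rw [dW_alg, dA_C, map_zero]

theorem dW_X (v : Fin n → ℂ) (i : Fin n) :
    dW v (algebraMap (Ar n) (Wr n) (MvPolynomial.X i)) =
      algebraMap (Ar n) (Wr n) (MvPolynomial.C (v i)) := by
  rw [dW_alg, dA_X]

theorem tau_rel (v u : Fin n → ℂ) (c : Wr n) (ρ : PowerSeries (Wr n)) (a : Ar n) :
    xD _ ρ * tau u c ρ (dA v a) = xD _ ρ * coefD (dW v) (tau u c ρ a) -
      (PowerSeries.C (dW v c) + coefD (dW v) ρ) * xD _ (tau u c ρ a) := by
  induction a using MvPolynomial.induction_on with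
  | C a =>
    rw [tau_C, dA_C, map_zero, coefD_C, dW_C, xD_C, map_zero]
    ring
  | add p q hp hq =>
    rw [(dA v).map_add, map_add, map_add, (coefD (dW v)).map_add, (xD _).map_add, mul_add, hp, hq]
    ring
  | mul_X p i hp =>
    have hX : xD _ ρ * tau u c ρ (dA v (MvPolynomial.X i)) =
        xD _ ρ * coefD (dW v) (tau u c ρ (MvPolynomial.X i)) -
        (PowerSeries.C (dW v c) + coefD (dW v) ρ) * xD _ (tau u c ρ (MvPolynomial.X i)) := by
      rw [dA_X, tau_C, tau_X, (coefD (dW v)).map_add, (coefD (dW v)).map_mul,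
        (coefD (dW v)).map_add, coefD_C, coefD_C, coefD_C, dW_X, dW_C, (xD _).map_add, (xD _).map_mul,
        (xD _).map_add, xD_C, xD_C, xD_C, map_zero]
      ring
    rw [(dA v).map_mul, map_add, map_mul, map_mul, map_mul, (coefD (dW v)).map_mul, (xD _).map_mul]
    linear_combination (tau u c ρ p) * hX + (tau u c ρ (MvPolynomial.X i)) * hp

theorem tau_rel' (u : Fin n → ℂ) (c : Wr n) (ρ : PowerSeries (Wr n)) (a : Ar n) :
    xD _ ρ * tau u c ρ (dA u a) = xD _ (tau u c ρ a) := by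
  induction a using MvPolynomial.induction_on with
  | C a =>
    rw [tau_C, dA_C, map_zero, xD_C]
    ring
  | add p q hp hq =>
    rw [(dA u).map_add, map_add, map_add, (xD _).map_add, mul_add, hp, hq]
  | mul_X p i hp =>
    have hX : xD _ ρ * tau u c ρ (dA u (MvPolynomial.X i)) =
        xD _ (tau u c ρ (MvPolynomial.X i)) := by
      rw [dA_X, tau_C, tau_X, (xD _).map_add, (xD _).map_mul,
        (xD _).map_add, xD_C, xD_C, xD_C]
      ring
    rw [(dA u).map_mul, map_add, map_mul, map_mul, map_mul, (xD _).map_mul]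
    linear_combination (tau u c ρ p) * hX + (tau u c ρ (MvPolynomial.X i)) * hp

theorem coe_algE (E : IntermediateField (Kr n) (Wr n)) (b : Ar n) :
    ((algebraMap (Ar n) E b : E) : Wr n) = algebraMap (Ar n) (Wr n) b := by
  rw [IsScalarTower.algebraMap_apply (Ar n) (Kr n) E b,
    IsScalarTower.algebraMap_apply (Ar n) (Kr n) (Wr n) b]
  rfl

/-- Directional derivatives on an intermediate field. -/
theorem exists_dE (E : IntermediateField (Kr n) (Wr n)) (v : Fin n → ℂ) :
    ∃ d : Der E, (∀ a : Ar n, d (algebraMap (Ar n) E a) = algebraMap (Ar n) E (dA v a)) ∧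
      ∀ x : E, ((d x : E) : Wr n) = dW v (x : Wr n) := by
  have hE : Algebra.FormallyEtale (Ar n) E := etale_AE E
  obtain ⟨d, hd⟩ := derivation_ext (Ar n) E (dA v)
  refine ⟨d, hd, fun x => ?_⟩
  let δ : E →+ Wr n :=
    { toFun := fun x => ((d x : E) : Wr n) - dW v (x : Wr n)
      map_zero' := by
        rw [d.map_zero]
        simp [(dW v).map_zero]
      map_add' := fun x y => by
        rw [d.map_add]
        push_cast
        rw [(dW v).map_add]
        ring }
  have h := deriv_eq_zero' (S := Ar n) (T := E) (algebraMap E (Wr n)) δ (by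
    intro x y
    change ((d (x * y) : E) : Wr n) - dW v ((x * y : E) : Wr n) =
      (x : Wr n) * (((d y : E) : Wr n) - dW v (y : Wr n)) +
      (y : Wr n) * (((d x : E) : Wr n) - dW v (x : Wr n))
    rw [d.map_mul]
    push_cast
    rw [(dW v).map_mul]
    ring) (by
    intro a
    change ((d (algebraMap (Ar n) E a) : E) : Wr n) - dW v ((algebraMap (Ar n) E a : E) : Wr n) = 0
    rw [hd, coe_algE, coe_algE, dW_alg, sub_self]) x
  exact sub_eq_zero.1 h

/-- Power series into Laurent series. -/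
noncomputable abbrev toL (F : Type*) [Field F] : PowerSeries F →+* LaurentSeries F :=
  algebraMap (PowerSeries F) (LaurentSeries F)

theorem toL_injective (F : Type*) [Field F] : Function.Injective (toL F) :=
  IsFractionRing.injective (PowerSeries F) (LaurentSeries F)

theorem psi_rel {E : IntermediateField (Kr n) (Wr n)} {v u : Fin n → ℂ} {c : Wr n}
    {ρ : PowerSeries (Wr n)} {ψ : E →+* LaurentSeries (Wr n)}
    (hψ : ∀ a : Ar n, ψ (algebraMap (Ar n) E a) = toL (Wr n) (tau u c ρ a))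
    {d : Der E} (hd : ∀ a : Ar n, d (algebraMap (Ar n) E a) = algebraMap (Ar n) E (dA v a))
    {DL DX : Der (LaurentSeries (Wr n))}
    (hDL : ∀ f, DL (toL (Wr n) f) = toL (Wr n) (coefD (dW v) f))
    (hDX : ∀ f, DX (toL (Wr n) f) = toL (Wr n) (xD _ f)) (x : E) :
    toL (Wr n) (xD _ ρ) * ψ (d x) = toL (Wr n) (xD _ ρ) * DL (ψ x) -
      toL (Wr n) (PowerSeries.C (dW v c) + coefD (dW v) ρ) * DX (ψ x) := by
  have hE : Algebra.FormallyEtale (Ar n) E := etale_AE E
  let δ : E →+ LaurentSeries (Wr n) :=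
    { toFun := fun x => toL (Wr n) (xD _ ρ) * ψ (d x) - (toL (Wr n) (xD _ ρ) * DL (ψ x) -
        toL (Wr n) (PowerSeries.C (dW v c) + coefD (dW v) ρ) * DX (ψ x))
      map_zero' := by
        rw [d.map_zero, map_zero, DL.map_zero, DX.map_zero]
        ring
      map_add' := fun x y => by
        rw [d.map_add, map_add, map_add, DL.map_add, DX.map_add]
        ring }
  have h := deriv_eq_zero' (S := Ar n) (T := E) ψ δ (by
    intro x y
    change toL (Wr n) (xD _ ρ) * ψ (d (x * y)) - (toL (Wr n) (xD _ ρ) * DL (ψ (x * y)) -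
        toL (Wr n) (PowerSeries.C (dW v c) + coefD (dW v) ρ) * DX (ψ (x * y))) =
      ψ x * (toL (Wr n) (xD _ ρ) * ψ (d y) - (toL (Wr n) (xD _ ρ) * DL (ψ y) -
        toL (Wr n) (PowerSeries.C (dW v c) + coefD (dW v) ρ) * DX (ψ y))) +
      ψ y * (toL (Wr n) (xD _ ρ) * ψ (d x) - (toL (Wr n) (xD _ ρ) * DL (ψ x) -
        toL (Wr n) (PowerSeries.C (dW v c) + coefD (dW v) ρ) * DX (ψ x)))
    rw [d.map_mul, map_add, map_mul, map_mul, map_mul, DL.map_mul, DX.map_mul]
    ring) (by
    intro a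
    change toL (Wr n) (xD _ ρ) * ψ (d (algebraMap (Ar n) E a)) -
      (toL (Wr n) (xD _ ρ) * DL (ψ (algebraMap (Ar n) E a)) -
        toL (Wr n) (PowerSeries.C (dW v c) + coefD (dW v) ρ) * DX (ψ (algebraMap (Ar n) E a))) = 0
    rw [hd, hψ, hψ, hDL, hDX, ← map_mul, ← map_mul, ← map_mul, ← map_sub, tau_rel, sub_self]) x
  exact sub_eq_zero.1 h

theorem psi_rel' {E : IntermediateField (Kr n) (Wr n)} {u : Fin n → ℂ} {c : Wr n}
    {ρ : PowerSeries (Wr n)} {ψ : E →+* LaurentSeries (Wr n)}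
    (hψ : ∀ a : Ar n, ψ (algebraMap (Ar n) E a) = toL (Wr n) (tau u c ρ a))
    {d : Der E} (hd : ∀ a : Ar n, d (algebraMap (Ar n) E a) = algebraMap (Ar n) E (dA u a))
    {DX : Der (LaurentSeries (Wr n))}
    (hDX : ∀ f, DX (toL (Wr n) f) = toL (Wr n) (xD _ f)) (x : E) :
    toL (Wr n) (xD _ ρ) * ψ (d x) = DX (ψ x) := by
  have hE : Algebra.FormallyEtale (Ar n) E := etale_AE E
  let δ : E →+ LaurentSeries (Wr n) :=
    { toFun := fun x => toL (Wr n) (xD _ ρ) * ψ (d x) - DX (ψ x)
      map_zero' := by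
        rw [d.map_zero, map_zero, DX.map_zero]
        ring
      map_add' := fun x y => by
        rw [d.map_add, map_add, map_add, DX.map_add]
        ring }
  have h := deriv_eq_zero' (S := Ar n) (T := E) ψ δ (by
    intro x y
    change toL (Wr n) (xD _ ρ) * ψ (d (x * y)) - DX (ψ (x * y)) =
      ψ x * (toL (Wr n) (xD _ ρ) * ψ (d y) - DX (ψ y)) +
      ψ y * (toL (Wr n) (xD _ ρ) * ψ (d x) - DX (ψ x))
    rw [d.map_mul, map_add, map_mul, map_mul, map_mul, DX.map_mul]
    ring) (by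
    intro a
    change toL (Wr n) (xD _ ρ) * ψ (d (algebraMap (Ar n) E a)) -
      DX (ψ (algebraMap (Ar n) E a)) = 0
    rw [hd, hψ, hψ, hDX, ← map_mul, tau_rel', sub_self]) x
  exact sub_eq_zero.1 h

section Laurent

variable {F : Type*} [Field F]

theorem laurent_decomp (x : LaurentSeries F) (hx : x ≠ 0) :
    ∃ (a : ℤ) (U : PowerSeries F), PowerSeries.constantCoeff U ≠ 0 ∧
      x = (toL F PowerSeries.X) ^ a * toL F U := by
  refine ⟨x.order, x.powerSeriesPart, ?_, ?_⟩
  · rw [← PowerSeries.coeff_zero_eq_constantCoeff_apply, LaurentSeries.powerSeriesPart_coeff]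
    simpa using (HahnSeries.coeff_order_eq_zero.not.2 hx)
  · have h1 := LaurentSeries.single_order_mul_powerSeriesPart x
    have h2 : (toL F PowerSeries.X) = HahnSeries.single 1 1 := PowerSeries.coe_X
    rw [h2, ← RatFunc.single_zpow]
    exact h1.symm

theorem toL_X_ne_zero : toL F PowerSeries.X ≠ 0 := by
  intro h
  exact PowerSeries.X_ne_zero (toL_injective F (h.trans (map_zero _).symm))

theorem toL_inv {U : PowerSeries F} (hU : PowerSeries.constantCoeff U ≠ 0) :
    (toL F U)⁻¹ = toL F U⁻¹ := by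
  have h1 : U * U⁻¹ = 1 := PowerSeries.mul_inv_cancel U hU
  have h2 : toL F U * toL F U⁻¹ = 1 := by rw [← map_mul, h1, map_one]
  exact inv_eq_of_mul_eq_one_right h2

theorem toL_ne_zero {U : PowerSeries F} (hU : PowerSeries.constantCoeff U ≠ 0) : toL F U ≠ 0 := by
  intro h
  have : U = 0 := toL_injective F (h.trans (map_zero _).symm)
  rw [this] at hU
  simp at hU

theorem ld_coef (D : Der (LaurentSeries F)) (d : Der F)
    (hD : ∀ f, D (toL F f) = toL F (coefD d f)) (a : ℤ) {U : PowerSeries F}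
    (hU : PowerSeries.constantCoeff U ≠ 0) :
    ld D ((toL F PowerSeries.X) ^ a * toL F U) = toL F (coefD d U * U⁻¹) := by
  rw [ld_mul D (zpow_ne_zero _ toL_X_ne_zero) (toL_ne_zero hU), ld_zpow D toL_X_ne_zero]
  have h1 : ld D (toL F PowerSeries.X) = 0 := by
    rw [ld, hD, coefD_X, map_zero, zero_mul]
  rw [h1, ld, hD, toL_inv hU, map_mul]
  ring

theorem ld_x (D : Der (LaurentSeries F))
    (hD : ∀ f, D (toL F f) = toL F (xD F f)) (a : ℤ) {U : PowerSeries F}
    (hU : PowerSeries.constantCoeff U ≠ 0) :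
    toL F PowerSeries.X * ld D ((toL F PowerSeries.X) ^ a * toL F U) =
      toL F ((a : PowerSeries F) + PowerSeries.X * (xD F U * U⁻¹)) := by
  rw [ld_mul D (zpow_ne_zero _ toL_X_ne_zero) (toL_ne_zero hU), ld_zpow D toL_X_ne_zero]
  have h1 : toL F PowerSeries.X * ld D (toL F PowerSeries.X) = 1 := by
    rw [ld, hD, xD_X, map_one, one_mul, mul_inv_cancel₀ toL_X_ne_zero]
  have h2 : ld D (toL F U) = toL F (xD F U * U⁻¹) := by
    rw [ld, hD, toL_inv hU, map_mul]
  rw [h2, mul_add, map_add, map_mul (toL F) PowerSeries.X, map_intCast]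
  linear_combination (a : LaurentSeries F) * h1

end Laurent

end Pool.Agent.Helper62.D4
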