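import Mathlib
import Pool.Agent.Helper62.D4.Residue

namespace Pool.Agent.Helper62.D4

/-- The change of frame. -/
noncomputable def frame {F : Type*} [Field F] (m : ℕ) (r : F) (H : Fin m → F) :
    Matrix (Fin (m + 1)) (Fin (m + 1)) F :=
  Matrix.of fun k j => Fin.lastCases (motive := fun _ => F)
    (Fin.lastCases (motive := fun _ => F) r⁻¹ (fun _ => 0) k)
    (fun j' => Fin.lastCases (motive := fun _ => F) (-(H j' * r⁻¹))
      (fun k' => if k' = j' then 1 else 0) k) j

theorem frame_det {F : Type*} [Field F] (m : ℕ) (r : F) (H : Fin m → F) :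
    (frame m r H).det = r⁻¹ := by
  rw [Matrix.det_of_isLowerTriangular]
  · rw [Fin.prod_univ_castSucc]
    simp [frame]
  · intro i j hij
    have hij' : i < j := hij
    induction j using Fin.lastCases with
    | last =>
      induction i using Fin.lastCases with
      | last => exact absurd hij' (lt_irrefl _)
      | cast i => simp [frame]
    | cast j =>
      induction i using Fin.lastCases with
      | last =>
        exact absurd hij' (not_lt.2 (Fin.le_last _))
      | cast i =>
        have hne : i ≠ j := by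
          rintro rfl
          exact absurd hij' (lt_irrefl _)
        simp [frame, hne]

variable {n : ℕ}

theorem det_formula {m : ℕ} {E : IntermediateField (Kr n) (Wr n)} {v : Fin m → Fin n → ℂ}
    {u : Fin n → ℂ} {c : Wr n} {ρ : PowerSeries (Wr n)} {ψ : E →+* LaurentSeries (Wr n)}
    (hψ : ∀ a : Ar n, ψ (algebraMap (Ar n) E a) = toL (Wr n) (tau u c ρ a))
    (hρ : xD _ ρ ≠ 0)
    {d : Fin (m + 1) → Der E}
    (hd : ∀ j (a : Ar n), d j (algebraMap (Ar n) E a) =
      algebraMap (Ar n) E (dA (Fin.snoc (α := fun _ => Fin n → ℂ) v u j) a))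
    (ξ : Fin (m + 1) → E) (a : Fin (m + 1) → ℤ) (U : Fin (m + 1) → PowerSeries (Wr n))
    (hU : ∀ i, PowerSeries.constantCoeff (U i) ≠ 0)
    (hξ : ∀ i, ψ (ξ i) = (toL (Wr n) PowerSeries.X) ^ (a i) * toL (Wr n) (U i)) :
    toL (Wr n) (PowerSeries.X * xD _ ρ) * ψ (Matrix.of fun i j => ld (d j) (ξ i)).det =
      toL (Wr n) (Matrix.of fun i j => Fin.snoc (α := fun _ => PowerSeries (Wr n))
        (fun k => coefD (dW (v k)) (U i) * (U i)⁻¹)
        ((a i : PowerSeries (Wr n)) + PowerSeries.X * (xD _ (U i) * (U i)⁻¹)) j).det := by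
  obtain ⟨DX, hDX⟩ := derivation_ext (PowerSeries (Wr n)) (LaurentSeries (Wr n)) (xD (Wr n))
  have hDL' : ∀ k : Fin m, ∃ D : Der (LaurentSeries (Wr n)), ∀ f,
      D (toL (Wr n) f) = toL (Wr n) (coefD (dW (v k)) f) :=
    fun k => derivation_ext (PowerSeries (Wr n)) (LaurentSeries (Wr n)) (coefD (dW (v k)))
  choose DL hDL using hDL'
  set r : LaurentSeries (Wr n) := toL (Wr n) (xD _ ρ) with hr
  have hr0 : r ≠ 0 := by
    intro h
    exact hρ (toL_injective _ (h.trans (map_zero _).symm))
  set H : Fin m → LaurentSeries (Wr n) :=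
    fun k => toL (Wr n) (PowerSeries.C (dW (v k) c) + coefD (dW (v k)) ρ) with hH
  let P : Matrix (Fin (m + 1)) (Fin (m + 1)) (LaurentSeries (Wr n)) :=
    Matrix.of fun i j => Fin.snoc (α := fun _ => LaurentSeries (Wr n))
      (fun k => ld (DL k) (ψ (ξ i))) (ld DX (ψ (ξ i))) j
  have h1 : (Matrix.of fun i j => ld (d j) (ξ i)).map ψ = P * frame m r H := by
    ext1 i j
    rw [Matrix.map_apply, Matrix.of_apply, Matrix.mul_apply, Fin.sum_univ_castSucc]
    rw [ld, map_mul, map_inv₀]
    induction j using Fin.lastCases with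
    | last =>
      have h2 := psi_rel' (E := E) (u := u) (c := c) hψ (d := d (Fin.last m)) (by
        intro a
        rw [hd, Fin.snoc_last]) hDX (ξ i)
      have h3 : ψ ((d (Fin.last m)) (ξ i)) = r⁻¹ * DX (ψ (ξ i)) := by
        rw [← h2, ← hr]
        field_simp
      rw [h3]
      simp only [P, frame, Matrix.of_apply, Fin.snoc_castSucc, Fin.snoc_last, Fin.lastCases_last,
        Fin.lastCases_castSucc, mul_zero, Finset.sum_const_zero, zero_add, ld]
      ring
    | cast j =>
      have h2 := psi_rel (E := E) (v := v j) (u := u) (c := c) hψ (d := d j.castSucc) (by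
        intro a
        rw [hd, Fin.snoc_castSucc]) (hDL j) hDX (ξ i)
      have h3 : ψ ((d j.castSucc) (ξ i)) = DL j (ψ (ξ i)) - H j * r⁻¹ * DX (ψ (ξ i)) := by
        apply mul_left_cancel₀ hr0
        rw [← hr] at h2
        rw [h2]
        simp only [hH]
        field_simp
      rw [h3]
      simp only [P, frame, Matrix.of_apply, Fin.snoc_castSucc, Fin.snoc_last, Fin.lastCases_last,
        Fin.lastCases_castSucc, mul_ite, mul_one, mul_zero, Finset.sum_ite_eq', Finset.mem_univ,
        if_true, ld]
      ring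
  have h4 : ψ (Matrix.of fun i j => ld (d j) (ξ i)).det = P.det * r⁻¹ := by
    have h5 := RingHom.map_det ψ (Matrix.of fun i j => ld (d j) (ξ i))
    have h6 : ψ.mapMatrix (Matrix.of fun i j => ld (d j) (ξ i)) = P * frame m r H := h1
    rw [h5, h6, Matrix.det_mul, frame_det]
  have h7 : toL (Wr n) (Matrix.of fun i j => Fin.snoc (α := fun _ => PowerSeries (Wr n))
        (fun k => coefD (dW (v k)) (U i) * (U i)⁻¹)
        ((a i : PowerSeries (Wr n)) + PowerSeries.X * (xD _ (U i) * (U i)⁻¹)) j).det =
      toL (Wr n) PowerSeries.X * P.det := by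
    rw [RingHom.map_det]
    have h8 : (toL (Wr n)).mapMatrix (Matrix.of fun i j => Fin.snoc
        (α := fun _ => PowerSeries (Wr n)) (fun k => coefD (dW (v k)) (U i) * (U i)⁻¹)
        ((a i : PowerSeries (Wr n)) + PowerSeries.X * (xD _ (U i) * (U i)⁻¹)) j) =
        P.updateCol (Fin.last m) (toL (Wr n) PowerSeries.X • fun i => P i (Fin.last m)) := by
      ext1 i j
      rw [RingHom.mapMatrix_apply, Matrix.map_apply, Matrix.of_apply, Matrix.updateCol_apply]
      induction j using Fin.lastCases with
      | last =>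
        rw [if_pos rfl]
        simp only [P, Matrix.of_apply, Fin.snoc_last, Pi.smul_apply, smul_eq_mul]
        rw [hξ, ld_x DX hDX (a i) (hU i)]
      | cast j =>
        rw [if_neg (Fin.castSucc_lt_last j).ne]
        simp only [P, Matrix.of_apply, Fin.snoc_castSucc]
        rw [hξ, ld_coef (DL j) (dW (v j)) (hDL j) (a i) (hU i)]
    rw [h8, Matrix.det_updateCol_smul]
    congr 2
    ext1 i j
    rw [Matrix.updateCol_apply]
    split_ifs with h
    · rw [h]
    · rfl
  rw [h4, h7, map_mul, ← hr]
  field_simp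

end Pool.Agent.Helper62.D4
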