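import Mathlib
import Pool.Agent.Helper62.D4.DetFormula

namespace Pool.Agent.Helper62.D4

open Polynomial

variable {n : ℕ}

theorem isIntegral_eval_sW (u : Fin n → ℂ) {c : Wr n} (hc : IsIntegral (Ar n) c) (a : Ar n) :
    IsIntegral (Ar n) ((sW u a).eval c) := by
  induction a using MvPolynomial.induction_on with
  | C a =>
    rw [sW_C, eval_C]
    exact isIntegral_algebraMap
  | add p q hp hq =>
    rw [map_add, eval_add]
    exact hp.add hq
  | mul_X p i hp =>
    rw [map_mul, eval_mul, sW_X]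
    refine hp.mul ?_
    rw [eval_add, eval_mul, eval_C, eval_C, eval_X]
    exact isIntegral_algebraMap.add (hc.mul isIntegral_algebraMap)

/-- Integral elements expand without polar part, with integral constant term. -/
theorem psi_integral {E : IntermediateField (Kr n) (Wr n)} {u : Fin n → ℂ} {c : Wr n}
    (hc : IsIntegral (Ar n) c) {ρ : PowerSeries (Wr n)} (hρ0 : PowerSeries.constantCoeff ρ = 0)
    {ψ : E →+* LaurentSeries (Wr n)}
    (hψ : ∀ a : Ar n, ψ (algebraMap (Ar n) E a) = toL (Wr n) (tau u c ρ a)) (x : E)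
    (hx : IsIntegral (Ar n) (x : Wr n)) :
    ∃ B : PowerSeries (Wr n), ψ x = toL (Wr n) B ∧
      IsIntegral (Ar n) (PowerSeries.constantCoeff B) := by
  obtain ⟨p, hpm, hp⟩ := hx
  have hinjE : Function.Injective (algebraMap E (Wr n)) := (algebraMap E (Wr n)).injective
  have hpE : eval₂ (algebraMap (Ar n) E) x p = 0 := by
    apply hinjE
    rw [map_zero, hom_eval₂]
    have h1 : (algebraMap E (Wr n)).comp (algebraMap (Ar n) E) = algebraMap (Ar n) (Wr n) := by
      apply RingHom.ext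
      intro a
      exact coe_algE E a
    rw [h1]
    exact hp
  have hpL : eval₂ ((toL (Wr n)).comp (tau u c ρ)) (ψ x) p = 0 := by
    have h2 : (toL (Wr n)).comp (tau u c ρ) = ψ.comp (algebraMap (Ar n) E) := by
      apply RingHom.ext
      intro a
      exact (hψ a).symm
    rw [h2, ← hom_eval₂, hpE, map_zero]
  have hint : IsIntegral (PowerSeries (Wr n)) (ψ x) := by
    refine ⟨p.map (tau u c ρ), hpm.map _, ?_⟩
    rw [eval₂_map]
    exact hpL
  obtain ⟨B, hB⟩ := IsIntegrallyClosed.algebraMap_eq_of_integral hint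
  refine ⟨B, hB.symm, ?_⟩
  have hpB : eval₂ (tau u c ρ) B p = 0 := by
    apply toL_injective (Wr n)
    rw [map_zero, hom_eval₂, hB]
    exact hpL
  have hp0 : eval₂ ((PowerSeries.constantCoeff (R := Wr n)).comp (tau u c ρ))
      (PowerSeries.constantCoeff B) p = 0 := by
    rw [← hom_eval₂, hpB, map_zero]
  have hev : ∀ a : Ar n, ((PowerSeries.constantCoeff (R := Wr n)).comp (tau u c ρ)) a =
      (sW u a).eval c := by
    intro a
    rw [RingHom.comp_apply, tau, RingHom.comp_apply, constantCoeff_sub c hρ0]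
  let κ : Ar n →+* integralClosure (Ar n) (Wr n) :=
    RingHom.codRestrict ((PowerSeries.constantCoeff (R := Wr n)).comp (tau u c ρ))
      (integralClosure (Ar n) (Wr n)) (by
        intro a
        rw [hev]
        exact isIntegral_eval_sW u hc a)
  have h3 : IsIntegral (integralClosure (Ar n) (Wr n)) (PowerSeries.constantCoeff B) := by
    refine ⟨p.map κ, hpm.map _, ?_⟩
    rw [eval₂_map]
    exact hp0
  exact isIntegral_trans _ h3

theorem residue {m : ℕ} {ω : (Fin (m + 1) → Fin n → ℂ) → Wr n} (hω : ω ∈ S (m + 1) n)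
    (u : Fin n → ℂ) {c : Wr n} (hc : IsIntegral (Ar n) c) :
    ∃ ω' ∈ S m n, ∀ (v : Fin m → Fin n → ℂ) (N Q : Ar n),
      algebraMap (Ar n) (Wr n) Q * ω (Fin.snoc (α := fun _ => Fin n → ℂ) v u) =
        algebraMap (Ar n) (Wr n) N →
      ∀ (q : ℕ) (Q1 : (Wr n)[X]), sW u Q = (X - C c) ^ q * Q1 → Q1.eval c ≠ 0 →
        ∃ N1 : (Wr n)[X], (X - C c) * sW u N = (X - C c) ^ q * N1 ∧
          ω' v * Q1.eval c = N1.eval c := by
  obtain ⟨ι, fι, β, ξ, hβ, hξ, rfl⟩ := mem_S hω
  let gens : Set (Wr n) := Set.range β ∪ Set.range (fun p : ι × Fin (m + 1) => ξ p.1 p.2)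
  let E : IntermediateField (Kr n) (Wr n) := IntermediateField.adjoin (Kr n) gens
  have hfin : FiniteDimensional (Kr n) E := by
    have : Finite gens := by
      exact (Set.finite_range β |>.union (Set.finite_range _)).to_subtype
    apply IntermediateField.finiteDimensional_adjoin
    intro x _
    exact Algebra.IsIntegral.isIntegral x
  obtain ⟨ψ, ρ, hρ0, hρne, hψ⟩ := exists_psi (A := Ar n) (K := Kr n) (E := E) (W := Wr n)
    (sW u) (sW_injective u) c
  have hψ' : ∀ a : Ar n, ψ (algebraMap (Ar n) E a) = toL (Wr n) (tau u c ρ a) := hψ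
  have hρ' : xD _ ρ ≠ 0 := xD_ne_zero hρ0 hρne
  obtain ⟨e, he, hcomp⟩ := compare hρ0 hρne
  have hβE : ∀ l, β l ∈ E := fun l =>
    IntermediateField.subset_adjoin _ _ (Or.inl ⟨l, rfl⟩)
  have hξE : ∀ l i, ξ l i ∈ E := fun l i =>
    IntermediateField.subset_adjoin _ _ (Or.inr ⟨(l, i), rfl⟩)
  have hB' : ∀ l, ∃ B : PowerSeries (Wr n), ψ ⟨β l, hβE l⟩ = toL (Wr n) B ∧
      IsIntegral (Ar n) (PowerSeries.constantCoeff B) := fun l =>
    psi_integral hc hρ0 hψ' ⟨β l, hβE l⟩ (hβ l)
  choose B hB hBint using hB'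
  have hU' : ∀ l i, ∃ (a : ℤ) (U : PowerSeries (Wr n)), PowerSeries.constantCoeff U ≠ 0 ∧
      ψ ⟨ξ l i, hξE l i⟩ = (toL (Wr n) PowerSeries.X) ^ a * toL (Wr n) U := by
    intro l i
    apply laurent_decomp
    rw [Ne, map_eq_zero]
    intro h
    exact hξ l i (congrArg Subtype.val h)
  choose a U hU hξU using hU'
  -- the residue
  let β' : ι → Fin (m + 1) → Wr n := fun l i =>
    PowerSeries.constantCoeff (B l) * algebraMap (Ar n) (Wr n)
      (MvPolynomial.C ((-1) ^ ((i : ℕ) + m) * (a l i : ℂ) / (e : ℂ)))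
  let ω' : (Fin m → Fin n → ℂ) → Wr n := ∑ l, ∑ i, gen (β' l i)
    (fun i' => PowerSeries.constantCoeff (U l (i.succAbove i')))
  refine ⟨ω', ?_, ?_⟩
  · refine AddSubgroup.sum_mem _ fun l _ => AddSubgroup.sum_mem _ fun i _ => gen_mem ?_ ?_
    · exact (hBint l).mul isIntegral_algebraMap
    · intro i'
      exact hU l _
  intro v N Q hNQ q Q1 hQ1 hQ1c
  have hd' : ∀ j : Fin (m + 1), ∃ d : Der E,
      (∀ a : Ar n, d (algebraMap (Ar n) E a) = algebraMap (Ar n) E
        (dA (Fin.snoc (α := fun _ => Fin n → ℂ) v u j) a)) ∧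
      ∀ x : E, ((d x : E) : Wr n) = dW (Fin.snoc (α := fun _ => Fin n → ℂ) v u j) (x : Wr n) :=
    fun j => exists_dE E _
  choose d hd hdW using hd'
  let ξE : ι → Fin (m + 1) → E := fun l i => ⟨ξ l i, hξE l i⟩
  let FE : E := ∑ l, ⟨β l, hβE l⟩ * (Matrix.of fun i j => ld (d j) (ξE l i)).det
  have hFE : (FE : Wr n) = ∑ l, gen (β l) (ξ l) (Fin.snoc (α := fun _ => Fin n → ℂ) v u) := by
    change (algebraMap E (Wr n)) FE = _
    rw [map_sum]
    refine Finset.sum_congr rfl fun l _ => ?_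
    rw [map_mul, RingHom.map_det, gen]
    congr 2
    ext1 i j
    rw [RingHom.mapMatrix_apply, Matrix.map_apply, Matrix.of_apply, Matrix.of_apply, ld, ld, map_mul,
      map_inv₀]
    congr 1
    exact hdW j (ξE l i)
  have hrelE : algebraMap (Ar n) E Q * FE = algebraMap (Ar n) E N := by
    apply (algebraMap E (Wr n)).injective
    rw [map_mul]
    change ((algebraMap (Ar n) E Q : E) : Wr n) * (FE : Wr n) = ((algebraMap (Ar n) E N : E) : Wr n)
    rw [coe_algE, coe_algE, hFE]
    exact hNQ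
  let H : PowerSeries (Wr n) := ∑ l, B l * (Matrix.of fun i j => Fin.snoc
        (α := fun _ => PowerSeries (Wr n)) (fun k => coefD (dW (v k)) (U l i) * (U l i)⁻¹)
        ((a l i : PowerSeries (Wr n)) + PowerSeries.X * (xD _ (U l i) * (U l i)⁻¹)) j).det
  have hH : toL (Wr n) (PowerSeries.X * xD _ ρ) * ψ FE = toL (Wr n) H := by
    simp only [FE, H]
    rw [map_sum, map_sum, Finset.mul_sum]
    refine Finset.sum_congr rfl fun l _ => ?_
    rw [map_mul ψ, map_mul (toL (Wr n)) (B l),
      ← det_formula hψ' hρ' hd (ξE l) (a l) (U l) (hU l) (hξU l), hB]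
    ring
  have hmain : PowerSeries.X * xD _ ρ * sub c ρ (sW u N) =
      H * sub c ρ ((X - C c) ^ q * Q1) := by
    apply toL_injective (Wr n)
    rw [← hQ1, map_mul (toL (Wr n)), map_mul (toL (Wr n)) H]
    have h1 : ψ (algebraMap (Ar n) E Q) = toL (Wr n) (sub c ρ (sW u Q)) := hψ' Q
    have h2 : ψ (algebraMap (Ar n) E N) = toL (Wr n) (sub c ρ (sW u N)) := hψ' N
    rw [← h1, ← h2, ← hrelE, map_mul ψ, ← hH]
    ring
  obtain ⟨N1, hN1, hval⟩ := hcomp c H (sW u N) Q1 q hQ1c hmain
  refine ⟨N1, hN1, ?_⟩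
  have heW : ((e : ℕ) : Wr n) ≠ 0 := Nat.cast_ne_zero.2 he
  have hHc : PowerSeries.constantCoeff H = e * ω' v := by
    simp only [H, ω']
    rw [map_sum, Finset.sum_apply, Finset.mul_sum]
    refine Finset.sum_congr rfl fun l _ => ?_
    rw [map_mul, RingHom.map_det, Finset.sum_apply, Matrix.det_succ_column _ (Fin.last m),
      Finset.mul_sum, Finset.mul_sum]
    refine Finset.sum_congr rfl fun i _ => ?_
    rw [gen]
    have h1 : ((PowerSeries.constantCoeff (R := Wr n)).mapMatrix (Matrix.of fun i j => Fin.snoc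
        (α := fun _ => PowerSeries (Wr n)) (fun k => coefD (dW (v k)) (U l i) * (U l i)⁻¹)
        ((a l i : PowerSeries (Wr n)) + PowerSeries.X * (xD _ (U l i) * (U l i)⁻¹)) j)) i
          (Fin.last m) = (a l i : Wr n) := by
      rw [RingHom.mapMatrix_apply, Matrix.map_apply, Matrix.of_apply, Fin.snoc_last, map_add,
        map_mul, PowerSeries.constantCoeff_X, zero_mul, add_zero, map_intCast]
    have h2 : (((PowerSeries.constantCoeff (R := Wr n)).mapMatrix (Matrix.of fun i j => Fin.snoc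
        (α := fun _ => PowerSeries (Wr n)) (fun k => coefD (dW (v k)) (U l i) * (U l i)⁻¹)
        ((a l i : PowerSeries (Wr n)) + PowerSeries.X * (xD _ (U l i) * (U l i)⁻¹)) j)).submatrix
          i.succAbove (Fin.last m).succAbove) =
        Matrix.of fun i' j => ld (dW (v j)) (PowerSeries.constantCoeff (U l (i.succAbove i'))) := by
      ext1 i' j
      rw [Matrix.submatrix_apply, RingHom.mapMatrix_apply, Matrix.map_apply, Matrix.of_apply,
        Matrix.of_apply, Fin.succAbove_last, Fin.snoc_castSucc, map_mul, constantCoeff_coefD, ld,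
        PowerSeries.constantCoeff_inv]
    rw [h1, h2]
    have h3 : algebraMap (Ar n) (Wr n) (MvPolynomial.C ((-1) ^ ((i : ℕ) + m) * (a l i : ℂ) /
        (e : ℂ))) * (e : Wr n) = (-1) ^ ((i : ℕ) + m) * (a l i : Wr n) := by
      have h4 : ((e : ℕ) : Wr n) = algebraMap (Ar n) (Wr n) (MvPolynomial.C (e : ℂ)) := by
        simp
      rw [h4, ← map_mul, ← MvPolynomial.C_mul, div_mul_cancel₀ _ (Nat.cast_ne_zero.2 he)]
      simp
    simp only [β', Fin.val_last]
    linear_combination (- PowerSeries.constantCoeff (B l) * (Matrix.of fun i' j => ld (dW (v j))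
      (PowerSeries.constantCoeff (U l (i.succAbove i')))).det) * h3
  rw [hHc] at hval
  apply mul_left_cancel₀ heW
  rw [← hval]
  ring

end Pool.Agent.Helper62.D4
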