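import Mathlib
import Pool.Agent.Helper62.D4.Basic

namespace Pool.Agent.Helper62.D4

open Polynomial

variable {n : ℕ}

instance torsionFree_AW : Module.IsTorsionFree (Ar n) (Wr n) :=
  Module.isTorsionFree_iff_algebraMap_injective.2 injAW

/-- Polynomials in `λ` of joint total degree at most `k`, with coefficient `e` at `λ^k`. -/
def Bnd (k : ℕ) (e : ℂ) (p : (Ar n)[X]) : Prop :=
  (∀ i, p.coeff i ≠ 0 → i + (p.coeff i).totalDegree ≤ k) ∧ p.coeff k = MvPolynomial.C e

/-- Joint total degree at most `k`. -/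
def TD (k : ℕ) (p : (Ar n)[X]) : Prop := ∀ i, p.coeff i ≠ 0 → i + (p.coeff i).totalDegree ≤ k

theorem TD.natDegree_le {k : ℕ} {p : (Ar n)[X]} (h : TD k p) : p.natDegree ≤ k := by
  rw [natDegree_le_iff_coeff_eq_zero]
  intro i hi
  by_contra h0
  have := h i h0
  omega

theorem TD.mono {k l : ℕ} {p : (Ar n)[X]} (h : TD k p) (hkl : k ≤ l) : TD l p :=
  fun i hi => (h i hi).trans hkl

theorem TD.mul {k l : ℕ} {p q : (Ar n)[X]} (hp : TD k p) (hq : TD l q) : TD (k + l) (p * q) := by
  classical
  intro i hi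
  rw [coeff_mul] at hi ⊢
  have key : ∀ x ∈ Finset.HasAntidiagonal.antidiagonal i, p.coeff x.1 * q.coeff x.2 ≠ 0 →
      i + (p.coeff x.1 * q.coeff x.2).totalDegree ≤ k + l := by
    intro x hx hne
    have h1 := hp x.1 (left_ne_zero_of_mul hne)
    have h2 := hq x.2 (right_ne_zero_of_mul hne)
    have h3 := MvPolynomial.totalDegree_mul (p.coeff x.1) (q.coeff x.2)
    have h4 : x.1 + x.2 = i := Finset.HasAntidiagonal.mem_antidiagonal.1 hx
    omega
  obtain ⟨x, hx, hxne⟩ := Finset.exists_ne_zero_of_sum_ne_zero hi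
  have hi' : i ≤ k + l := le_trans (Nat.le_add_right _ _) (key x hx hxne)
  have hbound : ∀ x ∈ Finset.HasAntidiagonal.antidiagonal i,
      (p.coeff x.1 * q.coeff x.2).totalDegree ≤ k + l - i := by
    intro x hx
    by_cases h0 : p.coeff x.1 * q.coeff x.2 = 0
    · rw [h0]
      simp
    · have := key x hx h0
      omega
  have := MvPolynomial.totalDegree_finsetSum_le hbound
  omega

theorem TD.add {k : ℕ} {p q : (Ar n)[X]} (hp : TD k p) (hq : TD k q) : TD k (p + q) := by
  intro i hi
  rw [coeff_add] at hi ⊢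
  have h1 := MvPolynomial.totalDegree_add (p.coeff i) (q.coeff i)
  by_cases h2 : p.coeff i = 0
  · rw [h2, zero_add] at hi ⊢
    exact hq i hi
  by_cases h3 : q.coeff i = 0
  · rw [h3, add_zero] at hi ⊢
    exact hp i hi
  have h4 := hp i h2
  have h5 := hq i h3
  rcases le_max_iff.1 h1 with h | h <;> omega

theorem TD.zero (k : ℕ) : TD k (0 : (Ar n)[X]) := by
  intro i hi
  simp at hi

theorem TD.sum {ι : Type*} {s : Finset ι} {f : ι → (Ar n)[X]} {k : ℕ} (h : ∀ i ∈ s, TD k (f i)) :
    TD k (∑ i ∈ s, f i) := by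
  classical
  induction s using Finset.induction_on with
  | empty => rw [Finset.sum_empty]; exact TD.zero k
  | insert a s ha ih =>
    rw [Finset.sum_insert ha]
    exact (h a (Finset.mem_insert_self _ _)).add (ih fun i hi => h i (Finset.mem_insert_of_mem hi))

theorem Bnd.mul {k l : ℕ} {e f : ℂ} {p q : (Ar n)[X]} (hp : Bnd k e p) (hq : Bnd l f q) :
    Bnd (k + l) (e * f) (p * q) := by
  refine ⟨TD.mul hp.1 hq.1, ?_⟩
  rw [coeff_mul_add_eq_of_natDegree_le (TD.natDegree_le hp.1) (TD.natDegree_le hq.1), hp.2, hq.2,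
    MvPolynomial.C_mul]

theorem Bnd.one : Bnd 0 1 (1 : (Ar n)[X]) := by
  refine ⟨?_, ?_⟩
  · intro i hi
    rw [coeff_one] at hi ⊢
    split_ifs at hi ⊢ with h
    · subst h
      simp
    · exact absurd rfl hi
  · simp

theorem Bnd.pow {k : ℕ} {e : ℂ} {p : (Ar n)[X]} (hp : Bnd k e p) (m : ℕ) :
    Bnd (m * k) (e ^ m) (p ^ m) := by
  induction m with
  | zero => simpa using Bnd.one
  | succ m ih =>
    rw [pow_succ, pow_succ, add_mul, one_mul]
    exact ih.mul hp

theorem Bnd.prod {ι : Type*} {s : Finset ι} {f : ι → (Ar n)[X]} {k : ι → ℕ} {e : ι → ℂ}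
    (h : ∀ i ∈ s, Bnd (k i) (e i) (f i)) : Bnd (∑ i ∈ s, k i) (∏ i ∈ s, e i) (∏ i ∈ s, f i) := by
  classical
  induction s using Finset.induction_on with
  | empty => simpa using Bnd.one
  | insert a s ha ih =>
    rw [Finset.sum_insert ha, Finset.prod_insert ha, Finset.prod_insert ha]
    exact (h a (Finset.mem_insert_self _ _)).mul (ih fun i hi => h i (Finset.mem_insert_of_mem hi))

theorem Bnd_X (u : Fin n → ℂ) (i : Fin n) : Bnd 1 (u i) (shift u (MvPolynomial.X i)) := by
  rw [shift_X]
  refine ⟨?_, ?_⟩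
  · intro j hj
    rcases j with _ | _ | j
    · simp
    · rw [coeff_add, coeff_X_mul, coeff_C, coeff_C]
      simp
    · rw [coeff_add, coeff_X_mul, coeff_C, coeff_C] at hj
      simp at hj
  · rw [coeff_add, show (1 : ℕ) = 0 + 1 from rfl, coeff_X_mul, coeff_C, coeff_C]
    simp

theorem Bnd_C (u : Fin n → ℂ) (a : ℂ) : Bnd 0 a (shift u (MvPolynomial.C a)) := by
  rw [shift_C]
  refine ⟨?_, ?_⟩
  · intro j hj
    rw [coeff_C] at hj ⊢
    split_ifs at hj ⊢ with h
    · subst h
      simp
    · exact absurd rfl hj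
  · simp

theorem Bnd_monomial (u : Fin n → ℂ) (m : Fin n →₀ ℕ) (a : ℂ) :
    Bnd m.degree (MvPolynomial.eval u (MvPolynomial.monomial m a))
      (shift u (MvPolynomial.monomial m a)) := by
  rw [MvPolynomial.monomial_eq, map_mul, map_mul, MvPolynomial.eval_C, Finsupp.prod, map_prod,
    map_prod]
  have h := (Bnd_C u a).mul (Bnd.prod (s := m.support) (f := fun i => shift u (MvPolynomial.X i ^ m i))
    (k := fun i => m i * 1) (e := fun i => (u i) ^ m i) (fun i _ => by
      rw [map_pow]
      exact (Bnd_X u i).pow (m i)))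
  simp only [mul_one, zero_add] at h
  have h2 : ∀ i, MvPolynomial.eval u (MvPolynomial.X i ^ m i) = u i ^ m i := by
    intro i
    rw [map_pow, MvPolynomial.eval_X]
  simp only [h2]
  rw [Finsupp.degree_apply]
  exact h

theorem degree_le_of_mem {a : Ar n} {m : Fin n →₀ ℕ} (hm : m ∈ a.support) :
    m.degree ≤ a.totalDegree := MvPolynomial.le_totalDegree hm

theorem shift_TD (u : Fin n → ℂ) (a : Ar n) : TD a.totalDegree (shift u a) := by
  conv_rhs => rw [a.as_sum, map_sum]
  apply TD.sum
  intro m hm
  exact TD.mono (Bnd_monomial u m _).1 (degree_le_of_mem hm)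

theorem shift_coeff_top (u : Fin n → ℂ) (a : Ar n) {d : ℕ} (hd : a.totalDegree ≤ d) :
    (shift u a).coeff d =
      MvPolynomial.C (MvPolynomial.eval u (MvPolynomial.homogeneousComponent d a)) := by
  rw [MvPolynomial.homogeneousComponent_apply, map_sum, map_sum]
  conv_lhs => rw [a.as_sum, map_sum, finsetSum_coeff]
  rw [Finset.sum_filter]
  refine Finset.sum_congr rfl fun m hm => ?_
  have h := Bnd_monomial u m (MvPolynomial.coeff m a)
  have hle := (degree_le_of_mem hm).trans hd
  split_ifs with hmd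
  · rw [← hmd]
    exact h.2
  · by_contra h0
    have := h.1 d h0
    omega

/-- The substitution of `X + λ u` on polynomials in `λ`. -/
noncomputable def theta (u : Fin n → ℂ) : (Ar n)[X] →+* (Ar n)[X] :=
  eval₂RingHom (shift u) X

theorem theta_C (u : Fin n → ℂ) (a : Ar n) : theta u (C a) = shift u a := by
  simp [theta]

theorem theta_X (u : Fin n → ℂ) : theta u (X : (Ar n)[X]) = X := by
  simp [theta]

theorem theta_shift (u : Fin n → ℂ) (a : Ar n) : theta (-u) (shift u a) = C a := by
  have h : (theta (-u)).comp (shift u) = (C : Ar n →+* (Ar n)[X]) := by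
    apply MvPolynomial.ringHom_ext
    · intro r
      rw [RingHom.comp_apply, shift_C, theta_C, shift_C]
    · intro i
      rw [RingHom.comp_apply, shift_X, map_add, map_mul, theta_C, theta_C, theta_X, shift_X, shift_C,
        Pi.neg_apply, map_neg, map_neg]
      ring
  exact RingHom.congr_fun h a

theorem theta_theta (u : Fin n → ℂ) (p : (Ar n)[X]) : theta (-u) (theta u p) = p := by
  have h : (theta (-u)).comp (theta u) = RingHom.id _ := by
    apply Polynomial.ringHom_ext
    · intro a
      rw [RingHom.comp_apply, theta_C, theta_shift]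
      rfl
    · rw [RingHom.comp_apply, theta_X, theta_X]
      rfl
  exact RingHom.congr_fun h p

theorem theta_theta' (u : Fin n → ℂ) (p : (Ar n)[X]) : theta u (theta (-u) p) = p := by
  have := theta_theta (-u) p
  rwa [neg_neg] at this

theorem irreducible_shift (u : Fin n → ℂ) {P : Ar n} (hP : Irreducible P) :
    Irreducible (shift u P) := by
  have hCP : Irreducible (C P : (Ar n)[X]) := by
    have h1 : Prime P := hP.prime
    exact (Polynomial.prime_C_iff.2 h1).irreducible
  let e : (Ar n)[X] ≃+* (Ar n)[X] := RingEquiv.ofRingHom (theta u) (theta (-u))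
    (by
      apply RingHom.ext
      intro p
      exact theta_theta' u p)
    (by
      apply RingHom.ext
      intro p
      exact theta_theta u p)
  have h2 : shift u P = e (C P) := (theta_C u P).symm
  rw [h2]
  exact (MulEquiv.irreducible_iff e.toMulEquiv).2 hCP

theorem dvd_of_shift_dvd (u : Fin n → ℂ) {P a : Ar n} (h : shift u P ∣ shift u a) : P ∣ a := by
  obtain ⟨z, hz⟩ := h
  refine ⟨z.eval 0, ?_⟩
  rw [← shift_eval_zero u a, hz, eval_mul, shift_eval_zero]

/-- Evaluation at `q + λ u`. -/
theorem eval_shift (u q : Fin n → ℂ) (l : ℂ) (a : Ar n) :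
    ((shift u a).map (MvPolynomial.eval q)).eval l = MvPolynomial.eval (q + l • u) a := by
  have h : ((evalRingHom l).comp (mapRingHom (MvPolynomial.eval q))).comp (shift u) =
      (MvPolynomial.eval (q + l • u)) := by
    apply MvPolynomial.ringHom_ext
    · intro r
      simp [shift_C]
    · intro i
      simp only [RingHom.comp_apply, shift_X, map_add, map_mul, coe_mapRingHom, map_C, map_X,
        coe_evalRingHom, eval_C, eval_X, MvPolynomial.eval_X, MvPolynomial.eval_C, Pi.add_apply,
        Pi.smul_apply, smul_eq_mul]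
  exact RingHom.congr_fun h a

section Monic

variable {u : Fin n → ℂ} {P : Ar n} (hP : Irreducible P)
  (htop : MvPolynomial.eval u (MvPolynomial.homogeneousComponent P.totalDegree P) = 1)

include htop in
theorem shift_monic : (shift u P).Monic ∧ (shift u P).natDegree = P.totalDegree := by
  have h1 := shift_coeff_top u P le_rfl
  rw [htop, map_one] at h1
  have h2 := (shift_TD u P).natDegree_le
  have h3 : (shift u P).natDegree = P.totalDegree := by
    refine le_antisymm h2 (le_natDegree_of_ne_zero ?_)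
    rw [h1]
    exact one_ne_zero
  refine ⟨?_, h3⟩
  rw [Monic, leadingCoeff, h3, h1]

include hP htop in
theorem minpoly_eq {c : Wr n} (hc : (sW u P).eval c = 0) :
    IsIntegral (Ar n) c ∧ minpoly (Ar n) c = shift u P := by
  have hm := (shift_monic htop).1
  have hroot : aeval c (shift u P) = 0 := by
    rw [aeval_def, ← eval_map]
    exact hc
  have hint : IsIntegral (Ar n) c := ⟨shift u P, hm, by rwa [aeval_def] at hroot⟩
  refine ⟨hint, ?_⟩
  have hdvd : minpoly (Ar n) c ∣ shift u P := minpoly.isIntegrallyClosed_dvd hint hroot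
  obtain ⟨z, hz⟩ := hdvd
  have hirr := irreducible_shift u hP
  have hnu : ¬ IsUnit (minpoly (Ar n) c) := minpoly.not_isUnit (Ar n) c
  have hzu : IsUnit z := by
    rcases hirr.isUnit_or_isUnit hz with h | h
    · exact absurd h hnu
    · exact h
  have hzm : z.Monic := (minpoly.monic hint).of_mul_monic_left (by rw [← hz]; exact hm)
  have hz1 : z = 1 := hzm.eq_one_of_isUnit hzu
  rw [hz, hz1, mul_one]

include hP htop in
theorem dvd_of_root {c : Wr n} (hc : (sW u P).eval c = 0) {a : Ar n}
    (ha : (sW u a).eval c = 0) : P ∣ a := by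
  obtain ⟨hint, hmin⟩ := minpoly_eq hP htop hc
  apply dvd_of_shift_dvd u
  rw [← hmin]
  apply minpoly.isIntegrallyClosed_dvd hint
  rw [aeval_def, ← eval_map]
  exact ha

include hP htop in
theorem deriv_ne_zero {c : Wr n} (hc : (sW u P).eval c = 0) :
    (derivative (sW u P)).eval c ≠ 0 := by
  obtain ⟨hint, hmin⟩ := minpoly_eq hP htop hc
  intro h0
  have h1 : derivative (sW u P) = (derivative (shift u P)).map (algebraMap (Ar n) (Wr n)) := by
    rw [sW, RingHom.comp_apply, coe_mapRingHom, derivative_map]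
  rw [h1] at h0
  have h2 : minpoly (Ar n) c ∣ derivative (shift u P) := by
    apply minpoly.isIntegrallyClosed_dvd hint
    rw [aeval_def, ← eval_map]
    exact h0
  rw [hmin] at h2
  have hm := (shift_monic htop).1
  have hdeg : (shift u P).natDegree ≠ 0 := by
    intro h
    have h3 : minpoly (Ar n) c = 1 := by
      rw [hmin]
      exact (Polynomial.Monic.natDegree_eq_zero hm).1 h
    exact minpoly.not_isUnit (Ar n) c (by rw [h3]; exact isUnit_one)
  have hd0 : derivative (shift u P) = 0 := by
    apply Polynomial.eq_zero_of_dvd_of_natDegree_lt h2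
    exact natDegree_derivative_lt hdeg
  have : (shift u P).natDegree = 0 := derivative_eq_zero.1 hd0
  exact hdeg this

end Monic

end Pool.Agent.Helper62.D4
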