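import Mathlib
import Pool.Agent.Helper62.D4.Shift

namespace Pool.Agent.Helper62.D4

variable {n : ℕ}

theorem dW_add (v w : Fin n → ℂ) (x : Wr n) : dW (v + w) x = dW v x + dW w x := by
  let δ : Wr n →+ Wr n :=
    { toFun := fun x => dW (v + w) x - (dW v x + dW w x)
      map_zero' := by simp [Der.map_zero]
      map_add' := fun x y => by
        rw [Der.map_add, Der.map_add, Der.map_add]
        ring }
  have hA : ∀ a : Ar n, dA (v + w) a = dA v a + dA w a := by
    intro a
    induction a using MvPolynomial.induction_on with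
    | C a => rw [dA_C, dA_C, dA_C, add_zero]
    | add p q hp hq =>
      rw [Der.map_add, Der.map_add, Der.map_add, hp, hq]
      ring
    | mul_X p i hp =>
      rw [Der.map_mul, Der.map_mul, Der.map_mul, hp, dA_X, dA_X, dA_X, Pi.add_apply, map_add]
      ring
  have h := deriv_eq_zero' (S := Ar n) (T := Wr n) (RingHom.id (Wr n)) δ (by
    intro x y
    change dW (v + w) (x * y) - (dW v (x * y) + dW w (x * y)) =
      x * (dW (v + w) y - (dW v y + dW w y)) + y * (dW (v + w) x - (dW v x + dW w x))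
    rw [Der.map_mul, Der.map_mul, Der.map_mul]
    ring) (by
    intro a
    change dW (v + w) (algebraMap (Ar n) (Wr n) a) - (dW v (algebraMap (Ar n) (Wr n) a) +
      dW w (algebraMap (Ar n) (Wr n) a)) = 0
    rw [dW_alg, dW_alg, dW_alg, hA, map_add, sub_self]) x
  exact sub_eq_zero.1 h

theorem dW_smul (r : ℂ) (v : Fin n → ℂ) (x : Wr n) :
    dW (r • v) x = algebraMap (Ar n) (Wr n) (MvPolynomial.C r) * dW v x := by
  let δ : Wr n →+ Wr n :=
    { toFun := fun x => dW (r • v) x - algebraMap (Ar n) (Wr n) (MvPolynomial.C r) * dW v x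
      map_zero' := by simp [Der.map_zero]
      map_add' := fun x y => by
        rw [Der.map_add, Der.map_add]
        ring }
  have hA : ∀ a : Ar n, dA (r • v) a = MvPolynomial.C r * dA v a := by
    intro a
    induction a using MvPolynomial.induction_on with
    | C a => rw [dA_C, dA_C, mul_zero]
    | add p q hp hq =>
      rw [Der.map_add, Der.map_add, hp, hq]
      ring
    | mul_X p i hp =>
      rw [Der.map_mul, Der.map_mul, hp, dA_X, dA_X, Pi.smul_apply, smul_eq_mul, map_mul]
      ring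
  have h := deriv_eq_zero' (S := Ar n) (T := Wr n) (RingHom.id (Wr n)) δ (by
    intro x y
    change dW (r • v) (x * y) - algebraMap (Ar n) (Wr n) (MvPolynomial.C r) * dW v (x * y) =
      x * (dW (r • v) y - algebraMap (Ar n) (Wr n) (MvPolynomial.C r) * dW v y) +
      y * (dW (r • v) x - algebraMap (Ar n) (Wr n) (MvPolynomial.C r) * dW v x)
    rw [Der.map_mul, Der.map_mul]
    ring) (by
    intro a
    change dW (r • v) (algebraMap (Ar n) (Wr n) a) - algebraMap (Ar n) (Wr n) (MvPolynomial.C r) *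
      dW v (algebraMap (Ar n) (Wr n) a) = 0
    rw [dW_alg, dW_alg, hA, map_mul, sub_self]) x
  exact sub_eq_zero.1 h

theorem gen_update {m : ℕ} (β : Wr n) (ξ : Fin m → Wr n) (v : Fin m → Fin n → ℂ) (j : Fin m)
    (x : Fin n → ℂ) : gen β ξ (Function.update v j x) =
      β * ((Matrix.of fun i j => ld (dW (v j)) (ξ i)).updateCol j
        (fun i => ld (dW x) (ξ i))).det := by
  rw [gen]
  congr 2
  ext1 i k
  rw [Matrix.updateCol_apply, Matrix.of_apply, Matrix.of_apply]
  split_ifs with h
  · rw [h, Function.update_self]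
  · rw [Function.update_of_ne h]

/-- Elements of `S m` are additive in each argument. -/
theorem S_add {m : ℕ} {ω : (Fin m → Fin n → ℂ) → Wr n} (hω : ω ∈ S m n)
    (v : Fin m → Fin n → ℂ) (j : Fin m) (x y : Fin n → ℂ) :
    ω (Function.update v j (x + y)) = ω (Function.update v j x) + ω (Function.update v j y) := by
  obtain ⟨ι, fι, β, ξ, -, -, rfl⟩ := mem_S hω
  change ∑ l, _ = ∑ l, _ + ∑ l, _
  rw [← Finset.sum_add_distrib]
  refine Finset.sum_congr rfl fun l _ => ?_
  rw [gen_update, gen_update, gen_update, ← mul_add]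
  congr 1
  have h1 : (fun i => ld (dW (x + y)) (ξ l i)) =
      (fun i => ld (dW x) (ξ l i)) + (fun i => ld (dW y) (ξ l i)) := by
    funext i
    rw [Pi.add_apply, ld, ld, ld, dW_add]
    ring
  rw [h1, Matrix.det_updateCol_add]

theorem S_smul {m : ℕ} {ω : (Fin m → Fin n → ℂ) → Wr n} (hω : ω ∈ S m n)
    (v : Fin m → Fin n → ℂ) (j : Fin m) (r : ℂ) (x : Fin n → ℂ) :
    ω (Function.update v j (r • x)) =
      algebraMap (Ar n) (Wr n) (MvPolynomial.C r) * ω (Function.update v j x) := by
  obtain ⟨ι, fι, β, ξ, -, -, rfl⟩ := mem_S hω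
  change ∑ l, _ = _ * ∑ l, _
  rw [Finset.mul_sum]
  refine Finset.sum_congr rfl fun l _ => ?_
  rw [gen_update, gen_update]
  have h1 : (fun i => ld (dW (r • x)) (ξ l i)) =
      (algebraMap (Ar n) (Wr n) (MvPolynomial.C r)) • (fun i => ld (dW x) (ξ l i)) := by
    funext i
    rw [Pi.smul_apply, ld, ld, dW_smul, smul_eq_mul]
    ring
  rw [h1, Matrix.det_updateCol_smul]
  ring

/-- Multiplication of `S m` by integral elements. -/
theorem S_integral_mul {m : ℕ} {ω : (Fin m → Fin n → ℂ) → Wr n} (hω : ω ∈ S m n) {b : Wr n}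
    (hb : IsIntegral (Ar n) b) : (fun v => b * ω v) ∈ S m n := by
  obtain ⟨ι, fι, β, ξ, h1, h2, rfl⟩ := mem_S hω
  have h3 : (fun v => b * (fun v => ∑ l, gen (β l) (ξ l) v) v) =
      ∑ l, gen (b * β l) (ξ l) := by
    funext v
    rw [Finset.sum_apply]
    change b * ∑ l, _ = _
    rw [Finset.mul_sum]
    refine Finset.sum_congr rfl fun l _ => ?_
    rw [gen, gen]
    ring
  rw [h3]
  exact AddSubgroup.sum_mem _ fun l _ => gen_mem (hb.mul (h1 l)) (h2 l)

/-- Products of polynomials of degree at most `D`. -/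
noncomputable def PD (n D : ℕ) : Submonoid (Ar n) :=
  Submonoid.closure {h | h ≠ 0 ∧ h.totalDegree ≤ D}

theorem PD_ne_zero {D : ℕ} {g : Ar n} (hg : g ∈ PD n D) : g ≠ 0 := by
  induction hg using Submonoid.closure_induction with
  | mem x hx => exact hx.1
  | one => exact one_ne_zero
  | mul x y _ _ hx hy => exact mul_ne_zero hx hy

theorem mem_PD {D : ℕ} {g : Ar n} (h0 : g ≠ 0) (hd : g.totalDegree ≤ D) : g ∈ PD n D :=
  Submonoid.subset_closure ⟨h0, hd⟩

/-- `U` hits all products of polynomials of degree at most `D`. -/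
def Rich (U : Set (Fin n → ℂ)) (D : ℕ) : Prop := ∀ g ∈ PD n D, ∃ u ∈ U, MvPolynomial.eval u g ≠ 0

/-- A nonzero linear map is nonzero off the zero set of a nonzero polynomial of degree one. -/
theorem exists_linear {M : Type*} [AddCommGroup M] [Module ℂ M] (L : (Fin n → ℂ) →ₗ[ℂ] M)
    {x0 : Fin n → ℂ} (h0 : L x0 ≠ 0) :
    ∃ H : Ar n, H ≠ 0 ∧ H.totalDegree ≤ 1 ∧ ∀ x, MvPolynomial.eval x H ≠ 0 → L x ≠ 0 := by
  classical
  obtain ⟨φ, hφ⟩ : ∃ φ : M →ₗ[ℂ] ℂ, φ (L x0) ≠ 0 := by
    by_contra h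
    push Not at h
    exact h0 ((Module.forall_dual_apply_eq_zero_iff ℂ (L x0)).1 h)
  let H : Ar n := ∑ i, MvPolynomial.C (φ (L (Pi.single i 1))) * MvPolynomial.X i
  have hev : ∀ x, MvPolynomial.eval x H = φ (L x) := by
    intro x
    have hx : x = ∑ i, x i • (Pi.single i (1 : ℂ) : Fin n → ℂ) := by
      conv_lhs => rw [← Finset.univ_sum_single x]
      refine Finset.sum_congr rfl fun i _ => ?_
      rw [← Pi.single_smul, smul_eq_mul, mul_one]
    conv_rhs => rw [hx]
    rw [map_sum, map_sum, map_sum]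
    refine Finset.sum_congr rfl fun i _ => ?_
    rw [map_smul, map_smul, map_mul, MvPolynomial.eval_C, MvPolynomial.eval_X, smul_eq_mul]
    ring
  refine ⟨H, ?_, ?_, ?_⟩
  · intro h
    apply hφ
    rw [← hev, h, map_zero]
  · apply MvPolynomial.totalDegree_finsetSum_le
    intro i _
    refine (MvPolynomial.totalDegree_mul _ _).trans ?_
    rw [MvPolynomial.totalDegree_C, zero_add, MvPolynomial.totalDegree_X]
  · intro x hx h
    apply hx
    rw [hev, h, map_zero]

/-- The linear map in the `j`-th argument. -/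
noncomputable def argLin {m : ℕ} {ω : (Fin m → Fin n → ℂ) → Wr n} (hω : ω ∈ S m n)
    (v : Fin m → Fin n → ℂ) (j : Fin m) : (Fin n → ℂ) →ₗ[ℂ] Wr n where
  toFun x := ω (Function.update v j x)
  map_add' x y := S_add hω v j x y
  map_smul' r x := by
    rw [S_smul hω, RingHom.id_apply, Algebra.smul_def]
    rfl

theorem argLin_apply {m : ℕ} {ω : (Fin m → Fin n → ℂ) → Wr n} (hω : ω ∈ S m n)
    (v : Fin m → Fin n → ℂ) (j : Fin m) (x : Fin n → ℂ) :
    argLin hω v j x = ω (Function.update v j x) := rfl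

/-- Nonvanishing at a tuple of vectors of a rich set. -/
theorem exists_rich_tuple {m : ℕ} {ω : (Fin m → Fin n → ℂ) → Wr n} (hω : ω ∈ S m n)
    {v : Fin m → Fin n → ℂ} (h0 : ω v ≠ 0) {U : Set (Fin n → ℂ)} {D : ℕ} (hD : 1 ≤ D)
    (hU : Rich U D) : ∃ u : Fin m → Fin n → ℂ, (∀ i, u i ∈ U) ∧ ω u ≠ 0 := by
  classical
  have key : ∀ s : Finset (Fin m), ∃ u : Fin m → Fin n → ℂ, (∀ i ∈ s, u i ∈ U) ∧ ω u ≠ 0 := by
    intro s
    induction s using Finset.induction_on with
    | empty => exact ⟨v, by simp, h0⟩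
    | insert j s hj ih =>
      obtain ⟨u, hu, hne⟩ := ih
      have h1 : argLin hω u j (u j) ≠ 0 := by
        rw [argLin_apply, Function.update_eq_self]
        exact hne
      obtain ⟨H, hH0, hHd, hH⟩ := exists_linear (argLin hω u j) h1
      obtain ⟨x, hxU, hx⟩ := hU H (mem_PD hH0 (hHd.trans hD))
      refine ⟨Function.update u j x, ?_, hH x hx⟩
      intro i hi
      rcases Finset.mem_insert.1 hi with hij | hi'
      · rw [hij, Function.update_self]
        exact hxU
      · have hij : i ≠ j := by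
          intro hij
          rw [hij] at hi'
          exact hj hi'
        rw [Function.update_of_ne hij]
        exact hu i hi'
  obtain ⟨u, hu, hne⟩ := key Finset.univ
  exact ⟨u, fun i => hu i (Finset.mem_univ i), hne⟩

end Pool.Agent.Helper62.D4
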