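import Mathlib
import Pool.Agent.Helper62.D4.Shift
import Pool.Agent.Helper62.D4.Multilin
import Pool.Agent.Helper41.D4.M5

namespace Pool.Agent.Helper62.D4

open Polynomial

variable {n : ℕ}

/-- The degree bound for algebraic functions. -/
noncomputable def Bd (n : ℕ) : ℕ → Wr n → Prop := (Pool.Agent.Helper41.D4.exists_Bd n).choose

theorem Bd_alg {D : ℕ} {a : Ar n} (h : a.totalDegree ≤ D) :
    Bd n D (algebraMap (Ar n) (Wr n) a) :=
  (Pool.Agent.Helper41.D4.exists_Bd n).choose_spec.1 D a h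

theorem Bd_add {D : ℕ} {x y : Wr n} (hx : Bd n D x) (hy : Bd n D y) : Bd n D (x + y) :=
  (Pool.Agent.Helper41.D4.exists_Bd n).choose_spec.2.1 D x y hx hy

theorem Bd_mul {D E : ℕ} {x y : Wr n} (hx : Bd n D x) (hy : Bd n E y) : Bd n (D + E) (x * y) :=
  (Pool.Agent.Helper41.D4.exists_Bd n).choose_spec.2.2.1 D E x y hx hy

theorem Bd_mono {D E : ℕ} {x : Wr n} (h : D ≤ E) (hx : Bd n D x) : Bd n E x :=
  (Pool.Agent.Helper41.D4.exists_Bd n).choose_spec.2.2.2.1 D E x h hx

theorem Bd_root {p : (Ar n)[X]} {c : Wr n} (hp : p.Monic)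
    (hdeg : ∀ i ≤ p.natDegree, (p.coeff i).totalDegree ≤ p.natDegree - i) (hc : aeval c p = 0) :
    Bd n 1 c :=
  (Pool.Agent.Helper41.D4.exists_Bd n).choose_spec.2.2.2.2.1 p c hp hdeg hc

theorem Bd_conv {D : ℕ} {a : Ar n} (h : Bd n D (algebraMap (Ar n) (Wr n) a)) :
    a.totalDegree ≤ D :=
  (Pool.Agent.Helper41.D4.exists_Bd n).choose_spec.2.2.2.2.2 D a h

theorem Bd_zero (D : ℕ) : Bd n D 0 := by
  have := Bd_alg (n := n) (D := D) (a := 0) (by simp)
  rwa [map_zero] at this

theorem Bd_one : Bd n 0 1 := by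
  have := Bd_alg (n := n) (D := 0) (a := 1) (by simp)
  rwa [map_one] at this

theorem Bd_pow {D : ℕ} {x : Wr n} (hx : Bd n D x) (k : ℕ) : Bd n (k * D) (x ^ k) := by
  induction k with
  | zero => simpa using Bd_one
  | succ k ih =>
    rw [pow_succ, add_mul, one_mul]
    exact Bd_mul ih hx

theorem Bd_sum {ι : Type*} {s : Finset ι} {f : ι → Wr n} {D : ℕ} (h : ∀ i ∈ s, Bd n D (f i)) :
    Bd n D (∑ i ∈ s, f i) := by
  classical
  induction s using Finset.induction_on with
  | empty => rw [Finset.sum_empty]; exact Bd_zero D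
  | insert a s ha ih =>
    rw [Finset.sum_insert ha]
    exact Bd_add (h a (Finset.mem_insert_self _ _)) (ih fun i hi => h i (Finset.mem_insert_of_mem hi))

theorem Bd_prod {ι : Type*} {s : Finset ι} {f : ι → Wr n} {D : ℕ} (h : ∀ i ∈ s, Bd n D (f i)) :
    Bd n (s.card * D) (∏ i ∈ s, f i) := by
  classical
  induction s using Finset.induction_on with
  | empty => simpa using Bd_one
  | insert a s ha ih =>
    rw [Finset.prod_insert ha, Finset.card_insert_of_notMem ha, add_mul, one_mul, add_comm]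
    exact Bd_mul (h a (Finset.mem_insert_self _ _)) (ih fun i hi => h i (Finset.mem_insert_of_mem hi))

theorem Bd_aeval {D : ℕ} {p : (Ar n)[X]} (hp : TD D p) {c : Wr n} (hc : Bd n 1 c) :
    Bd n D (aeval c p) := by
  rw [aeval_eq_sum_range]
  apply Bd_sum
  intro i hi
  rw [Algebra.smul_def]
  by_cases h0 : p.coeff i = 0
  · rw [h0, map_zero, zero_mul]
    exact Bd_zero D
  · have h1 := hp i h0
    have h2 : Bd n (D - i) (algebraMap (Ar n) (Wr n) (p.coeff i)) := Bd_alg (by omega)
    have h3 := Bd_mul h2 (Bd_pow hc i)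
    refine Bd_mono ?_ h3
    omega

/-- Galois-invariant integral elements are polynomials. -/
theorem descend {x : Wr n} (hint : IsIntegral (Ar n) x)
    (hfix : ∀ σ : Wr n ≃ₐ[Kr n] Wr n, σ x = x) {D : ℕ} (hD : Bd n D x) :
    ∃ a : Ar n, algebraMap (Ar n) (Wr n) a = x ∧ a.totalDegree ≤ D := by
  have hgal : IsGalois (Kr n) (Wr n) := inferInstance
  obtain ⟨k, hk⟩ := (InfiniteGalois.mem_range_algebraMap_iff_fixed (k := Kr n) (K := Wr n) x).2 hfix
  have hint' : IsIntegral (Ar n) k := by
    rw [← hk] at hint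
    exact (isIntegral_algebraMap_iff (algebraMap (Kr n) (Wr n)).injective).1 hint
  obtain ⟨a, ha⟩ := IsIntegrallyClosed.algebraMap_eq_of_integral hint'
  have hax : algebraMap (Ar n) (Wr n) a = x := by
    rw [IsScalarTower.algebraMap_apply (Ar n) (Kr n) (Wr n), ha, hk]
  exact ⟨a, hax, Bd_conv (by rw [hax]; exact hD)⟩

theorem isIntegral_aeval' {c : Wr n} (hc : IsIntegral (Ar n) c) (p : (Ar n)[X]) :
    IsIntegral (Ar n) (aeval c p) := by
  rw [aeval_eq_sum_range]
  refine IsIntegral.sum _ fun i _ => ?_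
  rw [Algebra.smul_def]
  exact isIntegral_algebraMap.mul (hc.pow i)

theorem eval_sW_eq (u : Fin n → ℂ) (a : Ar n) (c : Wr n) :
    (sW u a).eval c = aeval c (shift u a) := by
  rw [sW, RingHom.comp_apply, coe_mapRingHom, eval_map, aeval_def]

/-- The roots of `P(X + λ u)`. -/
noncomputable def Rts (u : Fin n → ℂ) (P : Ar n) : Finset (Wr n) := by
  classical exact (sW u P).roots.toFinset

section Roots

variable {u : Fin n → ℂ} {P : Ar n} (hP : Irreducible P)
  (htop : MvPolynomial.eval u (MvPolynomial.homogeneousComponent P.totalDegree P) = 1)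

include htop in
theorem sW_ne_zero : sW u P ≠ 0 := by
  have h := (shift_monic htop).1
  have : (sW u P).Monic := h.map _
  exact this.ne_zero

include htop in
theorem mem_Rts {c : Wr n} : c ∈ Rts u P ↔ (sW u P).eval c = 0 := by
  classical
  unfold Rts
  rw [Multiset.mem_toFinset, mem_roots (sW_ne_zero htop), IsRoot]

include htop in
theorem card_Rts_le : (Rts u P).card ≤ P.totalDegree := by
  classical
  unfold Rts
  refine (Multiset.toFinset_card_le _).trans ((card_roots' _).trans ?_)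
  rw [sW, RingHom.comp_apply, coe_mapRingHom]
  exact natDegree_map_le.trans (shift_monic htop).2.le

include hP htop in
theorem Rts_nonempty : (Rts u P).Nonempty := by
  have h1 : (sW u P).degree ≠ 0 := by
    intro h
    have h2 : (sW u P).natDegree = 0 := natDegree_eq_zero_iff_degree_le_zero.2 h.le
    have h3 : (sW u P).natDegree = (shift u P).natDegree := by
      rw [sW, RingHom.comp_apply, coe_mapRingHom]
      exact (shift_monic htop).1.natDegree_map _
    rw [h3] at h2
    have h4 := (Monic.natDegree_eq_zero (shift_monic htop).1).1 h2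
    exact (irreducible_shift u hP).not_isUnit (by rw [h4]; exact isUnit_one)
  obtain ⟨c, hc⟩ := IsAlgClosed.exists_root (sW u P) h1
  exact ⟨c, (mem_Rts htop).2 hc⟩

include htop in
theorem sigma_mem_Rts {c : Wr n} (σ : Wr n ≃ₐ[Kr n] Wr n) (hc : c ∈ Rts u P) : σ c ∈ Rts u P := by
  rw [mem_Rts htop, eval_sW_eq] at hc ⊢
  have h1 : aeval (σ c) (shift u P) = σ (aeval c (shift u P)) := by
    have : aeval (σ c) (shift u P) = (σ.toAlgHom.restrictScalars (Ar n)) (aeval c (shift u P)) :=
      (aeval_algHom_apply (σ.toAlgHom.restrictScalars (Ar n)) c (shift u P))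
    exact this
  rw [h1, hc, map_zero]

theorem sigma_aeval (σ : Wr n ≃ₐ[Kr n] Wr n) (c : Wr n) (p : (Ar n)[X]) :
    σ (aeval c p) = aeval (σ c) p :=
  (aeval_algHom_apply (σ.toAlgHom.restrictScalars (Ar n)) c p).symm

include htop in
theorem sum_Rts_sigma (σ : Wr n ≃ₐ[Kr n] Wr n) {M : Type*} [AddCommMonoid M] (f : Wr n → M) :
    ∑ c ∈ Rts u P, f (σ c) = ∑ c ∈ Rts u P, f c := by
  refine Finset.sum_nbij' (fun c => σ c) (fun c => σ.symm c) ?_ ?_ ?_ ?_ ?_
  · intro c hc
    exact sigma_mem_Rts htop σ hc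
  · intro c hc
    exact sigma_mem_Rts htop σ.symm hc
  · intro c _
    simp
  · intro c _
    simp
  · intro c _
    rfl

include htop in
theorem prod_Rts_sigma (σ : Wr n ≃ₐ[Kr n] Wr n) {M : Type*} [CommMonoid M] (f : Wr n → M) :
    ∏ c ∈ Rts u P, f (σ c) = ∏ c ∈ Rts u P, f c := by
  refine Finset.prod_nbij' (fun c => σ c) (fun c => σ.symm c) ?_ ?_ ?_ ?_ ?_
  · intro c hc
    exact sigma_mem_Rts htop σ hc
  · intro c hc
    exact sigma_mem_Rts htop σ.symm hc
  · intro c _
    simp
  · intro c _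
    simp
  · intro c _
    rfl

include hP htop in
theorem isIntegral_Rts {c : Wr n} (hc : c ∈ Rts u P) : IsIntegral (Ar n) c :=
  (minpoly_eq hP htop ((mem_Rts htop).1 hc)).1

include htop in
theorem Bd_Rts {c : Wr n} (hc : c ∈ Rts u P) : Bd n 1 c := by
  have h1 := shift_monic htop
  refine Bd_root h1.1 ?_ (by rw [← eval_sW_eq]; exact (mem_Rts htop).1 hc)
  intro i hi
  by_cases h0 : (shift u P).coeff i = 0
  · rw [h0]
    simp
  · have := shift_TD u P i h0
    rw [h1.2]
    omega

include hP htop in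
/-- The product of the values at the roots. -/
theorem exists_s {w : (Ar n)[X]} {D2 : ℕ} (hw : TD D2 w) :
    ∃ s : Ar n, algebraMap (Ar n) (Wr n) s = ∏ c ∈ Rts u P, aeval c w ∧
      s.totalDegree ≤ P.totalDegree * D2 := by
  refine descend ?_ ?_ ?_
  · exact IsIntegral.prod _ fun c hc => isIntegral_aeval' (isIntegral_Rts hP htop hc) w
  · intro σ
    rw [map_prod]
    simp only [sigma_aeval]
    exact prod_Rts_sigma htop σ (fun c => aeval c w)
  · refine Bd_mono (Nat.mul_le_mul_right _ (card_Rts_le htop))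
      (Bd_prod fun c hc => Bd_aeval hw (Bd_Rts htop hc))

include hP htop in
/-- The twisted sum over the roots. -/
theorem exists_M [DecidableEq (Wr n)] {w N' : (Ar n)[X]} {D1 D2 : ℕ} (hw : TD D2 w) (hN : TD D1 N') (j : ℕ) :
    ∃ M : Ar n, algebraMap (Ar n) (Wr n) M =
      ∑ c ∈ Rts u P, c ^ j * aeval c N' * ∏ c' ∈ (Rts u P).erase c, aeval c' w ∧
      M.totalDegree ≤ j + D1 + (P.totalDegree - 1) * D2 := by
  refine descend ?_ ?_ ?_
  · refine IsIntegral.sum _ fun c hc => ?_
    refine (((isIntegral_Rts hP htop hc).pow j).mul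
      (isIntegral_aeval' (isIntegral_Rts hP htop hc) N')).mul ?_
    exact IsIntegral.prod _ fun c' hc' => isIntegral_aeval'
      (isIntegral_Rts hP htop (Finset.mem_of_mem_erase hc')) w
  · intro σ
    rw [map_sum]
    have key : ∀ c ∈ Rts u P, σ (c ^ j * aeval c N' * ∏ c' ∈ (Rts u P).erase c, aeval c' w) =
        (fun c => c ^ j * aeval c N' * ∏ c' ∈ (Rts u P).erase c, aeval c' w) (σ c) := by
      intro c hc
      rw [map_mul, map_mul, map_pow, sigma_aeval, map_prod]
      simp only [sigma_aeval]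
      congr 1
      refine Finset.prod_nbij' (fun c => σ c) (fun c => σ.symm c) ?_ ?_ ?_ ?_ ?_
      · intro x hx
        rw [Finset.mem_erase] at hx ⊢
        exact ⟨fun h => hx.1 (σ.injective h), sigma_mem_Rts htop σ hx.2⟩
      · intro x hx
        rw [Finset.mem_erase] at hx ⊢
        refine ⟨fun h => hx.1 ?_, sigma_mem_Rts htop σ.symm hx.2⟩
        rw [← h]
        simp
      · intro x _
        simp
      · intro x _
        simp
      · intro x _
        rfl
    rw [Finset.sum_congr rfl key]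
    exact sum_Rts_sigma htop σ (fun c => c ^ j * aeval c N' * ∏ c' ∈ (Rts u P).erase c, aeval c' w)
  · refine Bd_sum fun c hc => ?_
    refine Bd_mul (Bd_mul ?_ (Bd_aeval hN (Bd_Rts htop hc))) ?_
    · have := Bd_pow (Bd_Rts htop hc) j
      rwa [mul_one] at this
    · refine Bd_mono (Nat.mul_le_mul_right _ ?_)
        (Bd_prod fun c' hc' => Bd_aeval hw (Bd_Rts htop (Finset.mem_of_mem_erase hc')))
      rw [Finset.card_erase_of_mem hc]
      exact Nat.sub_le_sub_right (card_Rts_le htop) 1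

end Roots

end Pool.Agent.Helper62.D4
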