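import Mathlib
import Pool.Agent.Helper62.D4.Prop1
import Pool.Agent.Helper62.D4.Sym

namespace Pool.Agent.Helper62.D4

open Polynomial

variable {n : ℕ}

/-- A form of class `S m` with numerators and a denominator of degree at most `D`. -/
def Good (m D : ℕ) (ω : (Fin m → Fin n → ℂ) → Wr n) : Prop :=
  ω ∈ S m n ∧ ∃ Q : Ar n, Q ≠ 0 ∧ Q.totalDegree ≤ D ∧ ∀ v, ∃ N : Ar n, N.totalDegree ≤ D ∧
    algebraMap (Ar n) (Wr n) Q * ω v = algebraMap (Ar n) (Wr n) N

/-- The conclusion of the main induction. -/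
def Concl (m D : ℕ) (U : Set (Fin n → ℂ)) (ω : (Fin m → Fin n → ℂ) → Wr n) : Prop :=
  ∃ u : Fin m → Fin n → ℂ, (∀ i, u i ∈ U) ∧ ∃ g ∈ PD n D, ∀ p : Fin n → ℂ,
    MvPolynomial.eval p g ≠ 0 → ∃ y : Fin m → ℂ, ∃ N Q : Ar n,
      algebraMap (Ar n) (Wr n) Q * ω u = algebraMap (Ar n) (Wr n) N ∧
      MvPolynomial.eval (p + ∑ i, y i • u i) Q ≠ 0 ∧
      MvPolynomial.eval (p + ∑ i, y i • u i) N ≠ 0

theorem PD_mono {D E : ℕ} (h : D ≤ E) : PD n D ≤ PD n E :=
  Submonoid.closure_mono fun _ hx => ⟨hx.1, hx.2.trans h⟩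

/-- Degree bound for a polynomial which is a sum of fractions. -/
theorem degree_of_sum {ι : Type*} (s : Finset ι) (N Q : ι → Ar n) {D : ℕ}
    (hQ : ∀ a ∈ s, Q a ≠ 0) (hN : ∀ a ∈ s, (N a).totalDegree ≤ D) (x : ι → Wr n)
    (hx : ∀ a ∈ s, algebraMap (Ar n) (Wr n) (Q a) * x a = algebraMap (Ar n) (Wr n) (N a))
    {b : Ar n} (hb : ∑ a ∈ s, x a = algebraMap (Ar n) (Wr n) b) : b.totalDegree ≤ D := by
  classical
  by_cases hb0 : b = 0
  · rw [hb0]
    simp
  have h1 : b * ∏ a ∈ s, Q a = ∑ a ∈ s, N a * ∏ a' ∈ s.erase a, Q a' := by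
    apply injAW
    rw [map_mul, ← hb, Finset.sum_mul, map_sum]
    refine Finset.sum_congr rfl fun a ha => ?_
    rw [map_mul, ← hx a ha, ← Finset.mul_prod_erase s Q ha, map_mul]
    ring
  have hprod : ∏ a ∈ s, Q a ≠ 0 := Finset.prod_ne_zero_iff.2 hQ
  have h2 : (b * ∏ a ∈ s, Q a).totalDegree = b.totalDegree + (∏ a ∈ s, Q a).totalDegree :=
    MvPolynomial.totalDegree_mul_of_isDomain hb0 hprod
  have h3 : (∑ a ∈ s, N a * ∏ a' ∈ s.erase a, Q a').totalDegree ≤
      D + (∏ a ∈ s, Q a).totalDegree := by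
    apply MvPolynomial.totalDegree_finsetSum_le
    intro a ha
    refine (MvPolynomial.totalDegree_mul _ _).trans (add_le_add (hN a ha) ?_)
    have h4 : (∏ a' ∈ s.erase a, Q a') ≠ 0 :=
      Finset.prod_ne_zero_iff.2 fun a' ha' => hQ a' (Finset.mem_of_mem_erase ha')
    rw [← Finset.mul_prod_erase s Q ha,
      MvPolynomial.totalDegree_mul_of_isDomain (hQ a ha) h4]
    exact Nat.le_add_left _ _
  rw [← h1, h2] at h3
  omega

/-- Case 1: the total form has polynomial values. -/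
theorem case1 {m D E : ℕ} {ι : Type*} [Fintype ι] {ω : ι → (Fin m → Fin n → ℂ) → Wr n}
    (hω : ∀ a, Good m D (ω a)) (hA : ∀ v, ∃ b : Ar n, (∑ a, ω a) v = algebraMap (Ar n) (Wr n) b)
    (hne : ∑ a, ω a ≠ 0) {U : Set (Fin n → ℂ)} (hE : 1 ≤ E) (hDE : D ≤ E) (hU : Rich U E) :
    Concl m E U (∑ a, ω a) := by
  have hS : (∑ a, ω a) ∈ S m n := AddSubgroup.sum_mem _ fun a _ => (hω a).1
  obtain ⟨v, hv⟩ := Function.ne_iff.1 hne
  obtain ⟨u, hu, hne'⟩ := exists_rich_tuple hS hv hE hU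
  obtain ⟨b, hb⟩ := hA u
  have hb0 : b ≠ 0 := by
    rintro rfl
    rw [map_zero] at hb
    exact hne' hb
  choose Q hQ0 hQd hQ using fun a => (hω a).2
  choose N hN hQN using fun a => hQ a u
  have hbd : b.totalDegree ≤ D := by
    refine degree_of_sum Finset.univ N Q (fun a _ => hQ0 a) (fun a _ => hN a) (fun a => ω a u)
      (fun a _ => hQN a) ?_
    rw [← hb, Finset.sum_apply]
  refine ⟨u, hu, b, mem_PD hb0 (hbd.trans hDE), fun p hp => ⟨0, b, 1, ?_, ?_, ?_⟩⟩
  · rw [map_one, one_mul, hb]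
  · simp
  · simpa using hp

/-- For `m = 0` we are always in Case 1. -/
theorem case_zero {D : ℕ} {ι : Type*} [Fintype ι] {ω : ι → (Fin 0 → Fin n → ℂ) → Wr n}
    (hω : ∀ a, Good 0 D (ω a)) (v : Fin 0 → Fin n → ℂ) :
    ∃ b : Ar n, (∑ a, ω a) v = algebraMap (Ar n) (Wr n) b := by
  have key : ∀ a, ∃ b : Ar n, ω a v = algebraMap (Ar n) (Wr n) b := by
    intro a
    obtain ⟨hS, Q, hQ0, -, hQ⟩ := hω a
    obtain ⟨N, -, hN⟩ := hQ v
    have hint : IsIntegral (Ar n) (ω a v) := by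
      obtain ⟨κ, fκ, β, ξ, h1, -, h3⟩ := mem_S hS
      rw [h3]
      refine IsIntegral.sum _ fun l _ => ?_
      rw [gen, Matrix.det_fin_zero, mul_one]
      exact h1 l
    have hQK : algebraMap (Ar n) (Kr n) Q ≠ 0 := by
      intro h
      exact hQ0 (IsFractionRing.injective (Ar n) (Kr n) (h.trans (map_zero _).symm))
    have hk : ω a v = algebraMap (Kr n) (Wr n)
        (algebraMap (Ar n) (Kr n) N / algebraMap (Ar n) (Kr n) Q) := by
      rw [map_div₀, ← IsScalarTower.algebraMap_apply, ← IsScalarTower.algebraMap_apply, ← hN]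
      have hQW : algebraMap (Ar n) (Wr n) Q ≠ 0 := by
        intro h
        exact hQ0 (injAW (h.trans (map_zero _).symm))
      field_simp
    rw [hk] at hint
    have hint' := (isIntegral_algebraMap_iff (algebraMap (Kr n) (Wr n)).injective).1 hint
    obtain ⟨b, hb⟩ := IsIntegrallyClosed.algebraMap_eq_of_integral hint'
    refine ⟨b, ?_⟩
    rw [hk, ← hb, ← IsScalarTower.algebraMap_apply]
  choose b hb using key
  refine ⟨∑ a, b a, ?_⟩
  rw [Finset.sum_apply, map_sum]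
  exact Finset.sum_congr rfl fun a _ => hb a

/-- Elements regular at the prime `P`. -/
noncomputable def RegP (P : Ar n) (hP : Prime P) : Submodule ℂ (Wr n) where
  carrier := {w | ∃ N Q : Ar n, ¬ P ∣ Q ∧ algebraMap (Ar n) (Wr n) Q * w =
    algebraMap (Ar n) (Wr n) N}
  zero_mem' := ⟨0, 1, fun h => hP.not_isUnit (isUnit_of_dvd_one h), by simp⟩
  add_mem' := by
    rintro x y ⟨N, Q, h1, h2⟩ ⟨N', Q', h1', h2'⟩
    refine ⟨N * Q' + N' * Q, Q * Q', ?_, ?_⟩
    · intro h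
      rcases hP.dvd_or_dvd h with h | h
      · exact h1 h
      · exact h1' h
    · rw [map_mul, map_add, map_mul, map_mul, ← h2, ← h2']
      ring
  smul_mem' := by
    rintro r x ⟨N, Q, h1, h2⟩
    refine ⟨MvPolynomial.C r * N, Q, h1, ?_⟩
    rw [map_mul, ← h2, Algebra.smul_def]
    have h3 : algebraMap ℂ (Wr n) r = algebraMap (Ar n) (Wr n) (MvPolynomial.C r) := rfl
    rw [h3]
    ring

theorem mem_RegP {P : Ar n} {hP : Prime P} {w : Wr n} : w ∈ RegP P hP ↔ ∃ N Q : Ar n,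
    ¬ P ∣ Q ∧ algebraMap (Ar n) (Wr n) Q * w = algebraMap (Ar n) (Wr n) N := Iff.rfl

theorem totalDegree_pos_of_irreducible {P : Ar n} (hP : Irreducible P) : 1 ≤ P.totalDegree := by
  by_contra h
  have h0 : P.totalDegree = 0 := by omega
  have h1 := MvPolynomial.totalDegree_eq_zero_iff_eq_C.1 h0
  rw [h1] at hP
  by_cases h2 : P.coeff 0 = 0
  · rw [h2, map_zero] at hP
    exact hP.ne_zero rfl
  · exact hP.not_isUnit ((IsUnit.mk0 _ h2).map MvPolynomial.C)

/-- A non-polynomial has a pole along some prime dividing the denominator. -/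
theorem exists_pole : ∀ (k : ℕ) (Q N : Ar n) (w : Wr n), Q.totalDegree ≤ k → Q ≠ 0 →
    algebraMap (Ar n) (Wr n) Q * w = algebraMap (Ar n) (Wr n) N →
    (¬ ∃ b : Ar n, w = algebraMap (Ar n) (Wr n) b) →
    ∃ (P : Ar n) (hP : Prime P), P ∣ Q ∧ w ∉ RegP P hP := by
  intro k
  induction k with
  | zero =>
    intro Q N w hk hQ hw hnot
    exfalso
    have h1 := MvPolynomial.totalDegree_eq_zero_iff_eq_C.1 (Nat.le_zero.1 hk)
    have h2 : Q.coeff 0 ≠ 0 := by
      intro h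
      rw [h, map_zero] at h1
      exact hQ h1
    apply hnot
    refine ⟨MvPolynomial.C (Q.coeff 0)⁻¹ * N, ?_⟩
    rw [map_mul, ← hw, ← mul_assoc, ← map_mul]
    conv_rhs => rw [h1]
    rw [MvPolynomial.coeff_C, if_pos rfl, ← MvPolynomial.C_mul, inv_mul_cancel₀ h2, map_one, map_one,
      one_mul]
  | succ k ih =>
    intro Q N w hk hQ hw hnot
    by_cases hu : IsUnit Q
    · exfalso
      obtain ⟨Q', hQ'⟩ := hu.exists_left_inv
      apply hnot
      refine ⟨Q' * N, ?_⟩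
      rw [map_mul, ← hw, ← mul_assoc, ← map_mul, hQ', map_one, one_mul]
    obtain ⟨P, hPi, hPQ⟩ := WfDvdMonoid.exists_irreducible_factor hu hQ
    have hP : Prime P := hPi.prime
    by_cases hreg : w ∈ RegP P hP
    · obtain ⟨N', Q', h1, h2⟩ := mem_RegP.1 hreg
      obtain ⟨Q2, rfl⟩ := hPQ
      have h3 : N * Q' = P * Q2 * N' := by
        apply injAW
        rw [map_mul, ← hw, map_mul (algebraMap (Ar n) (Wr n)) (P * Q2) N', ← h2]
        ring
      have h4 : P ∣ N := by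
        have h5 : P ∣ N * Q' := by
          rw [h3, mul_assoc]
          exact dvd_mul_right _ _
        rcases hP.dvd_or_dvd h5 with h | h
        · exact h
        · exact absurd h h1
      obtain ⟨N2, rfl⟩ := h4
      have hP0 : P ≠ 0 := hP.ne_zero
      have hQ2 : Q2 ≠ 0 := right_ne_zero_of_mul hQ
      have h6 : algebraMap (Ar n) (Wr n) Q2 * w = algebraMap (Ar n) (Wr n) N2 := by
        have hPW : algebraMap (Ar n) (Wr n) P ≠ 0 := by
          intro h
          exact hP0 (injAW (h.trans (map_zero _).symm))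
        apply mul_left_cancel₀ hPW
        rw [← mul_assoc, ← map_mul, hw, map_mul]
      have h7 : Q2.totalDegree ≤ k := by
        rw [MvPolynomial.totalDegree_mul_of_isDomain hP0 hQ2] at hk
        have := totalDegree_pos_of_irreducible hPi
        omega
      obtain ⟨P', hP', h8, h9⟩ := ih Q2 N2 w h7 hQ2 h6 hnot
      exact ⟨P', hP', h8.mul_left P, h9⟩
    · exact ⟨P, hP, hPQ, hreg⟩

end Pool.Agent.Helper62.D4
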