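import Mathlib
import Pool.Agent.Helper62.D4.Step

namespace Pool.Agent.Helper62.D4

open Polynomial

variable {n : ℕ}

/-- Roots are simple. -/
theorem simple_root {u : Fin n → ℂ} {P : Ar n} (hP : Irreducible P)
    (htop : MvPolynomial.eval u (MvPolynomial.homogeneousComponent P.totalDegree P) = 1)
    {c : Wr n} (hc : c ∈ Rts u P) :
    ∃ Q1 : (Wr n)[X], sW u P = (X - C c) * Q1 ∧ Q1.eval c = (derivative (sW u P)).eval c ∧
      Q1.eval c ≠ 0 := by
  have hc' := (mem_Rts htop).1 hc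
  obtain ⟨Q1, hQ1⟩ := dvd_iff_isRoot.2 hc'
  have h1 : Q1.eval c = (derivative (sW u P)).eval c := by
    rw [hQ1, derivative_mul]
    simp
  exact ⟨Q1, hQ1, h1, by rw [h1]; exact deriv_ne_zero hP htop hc'⟩

theorem exp_le {c : Wr n} {R N1 : (Wr n)[X]} {k e : ℕ} (hR : R.eval c ≠ 0)
    (h : (X - C c) ^ (k + 1) * R = (X - C c) ^ e * N1) : e ≤ k + 1 := by
  by_contra hlt
  push Not at hlt
  obtain ⟨j, hj⟩ := Nat.exists_eq_add_of_lt hlt
  have hX : ((X - C c : (Wr n)[X])) ^ (k + 1) ≠ 0 := pow_ne_zero _ (X_sub_C_ne_zero c)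
  have h1 : R = (X - C c) ^ (j + 1) * N1 := by
    apply mul_left_cancel₀ hX
    rw [h, hj]
    ring
  apply hR
  rw [h1]
  simp

/-- Lemma A: after cancelling, the restriction to the last argument has a simple pole, and the
residues form a form of class `S m`. -/
theorem reduce {m D : ℕ} {ω : (Fin (m + 1) → Fin n → ℂ) → Wr n} (hω : Good (m + 1) D ω)
    {u : Fin n → ℂ} {P : Ar n} (hP : Irreducible P)
    (htop : MvPolynomial.eval u (MvPolynomial.homogeneousComponent P.totalDegree P) = 1) :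
    ∃ (ω' : Wr n → (Fin m → Fin n → ℂ) → Wr n) (Q' : Ar n), (∀ c ∈ Rts u P, ω' c ∈ S m n) ∧
      ¬ P ∣ Q' ∧ Q' ≠ 0 ∧ Q'.totalDegree ≤ D ∧
      ∀ v : Fin m → Fin n → ℂ, ∃ N' : Ar n, N'.totalDegree ≤ D + P.totalDegree ∧
        algebraMap (Ar n) (Wr n) (P * Q') * ω (Fin.snoc (α := fun _ => Fin n → ℂ) v u) =
          algebraMap (Ar n) (Wr n) N' ∧
        ∀ c ∈ Rts u P, ω' c v * aeval c (derivative (shift u P) * shift u Q') =
          aeval c (shift u N') := by
  obtain ⟨hS, Q, hQ0, hQd, hQ⟩ := hω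
  have hres : ∀ c, c ∈ Rts u P → ∃ ω' ∈ S m n, ∀ (v : Fin m → Fin n → ℂ) (N Q : Ar n),
      algebraMap (Ar n) (Wr n) Q * ω (Fin.snoc (α := fun _ => Fin n → ℂ) v u) =
        algebraMap (Ar n) (Wr n) N →
      ∀ (q : ℕ) (Q1 : (Wr n)[X]), sW u Q = (X - C c) ^ q * Q1 → Q1.eval c ≠ 0 →
        ∃ N1 : (Wr n)[X], (X - C c) * sW u N = (X - C c) ^ q * N1 ∧
          ω' v * Q1.eval c = N1.eval c := fun c hc =>
    residue hS u (isIntegral_Rts hP htop hc)
  choose! ω' hω'S hω' using hres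
  obtain ⟨e, Q', hPQ', rfl⟩ := WfDvdMonoid.max_power_factor hQ0 hP
  have hQ'0 : Q' ≠ 0 := right_ne_zero_of_mul hQ0
  have hP0 : P ≠ 0 := hP.ne_zero
  have hQ'd : Q'.totalDegree ≤ D := by
    rw [MvPolynomial.totalDegree_mul_of_isDomain (pow_ne_zero _ hP0) hQ'0] at hQd
    omega
  have hev : ∀ c ∈ Rts u P, ∀ a : Ar n, ¬ P ∣ a → (sW u a).eval c ≠ 0 := by
    intro c hc a ha h
    exact ha (dvd_of_root hP htop ((mem_Rts htop).1 hc) h)
  refine ⟨ω', Q', hω'S, hPQ', hQ'0, hQ'd, fun v => ?_⟩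
  obtain ⟨N, hNd, hN⟩ := hQ (Fin.snoc (α := fun _ => Fin n → ℂ) v u)
  have hPW : algebraMap (Ar n) (Wr n) P ≠ 0 := by
    intro h
    exact hP0 (injAW (h.trans (map_zero _).symm))
  have hN' : ∃ N' : Ar n, N'.totalDegree ≤ D + P.totalDegree ∧
      algebraMap (Ar n) (Wr n) (P * Q') * ω (Fin.snoc (α := fun _ => Fin n → ℂ) v u) =
        algebraMap (Ar n) (Wr n) N' := by
    by_cases hN0 : N = 0
    · refine ⟨0, by simp, ?_⟩
      rw [hN0, map_zero] at hN
      have hQW : algebraMap (Ar n) (Wr n) (P ^ e * Q') ≠ 0 := by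
        intro h
        exact hQ0 (injAW (h.trans (map_zero _).symm))
      have h1 := (mul_eq_zero.1 hN).resolve_left hQW
      rw [h1, mul_zero, map_zero]
    · obtain ⟨k, N'', hPN'', rfl⟩ := WfDvdMonoid.max_power_factor hN0 hP
      have hN''0 : N'' ≠ 0 := right_ne_zero_of_mul hN0
      obtain ⟨c, hc⟩ := Rts_nonempty hP htop
      obtain ⟨Q1, hQ1, -, hQ1c⟩ := simple_root hP htop hc
      have h1 : sW u (P ^ e * Q') = (X - C c) ^ e * (Q1 ^ e * sW u Q') := by
        rw [map_mul, map_pow, hQ1, mul_pow]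
        ring
      have h2 : (Q1 ^ e * sW u Q').eval c ≠ 0 := by
        rw [eval_mul, eval_pow]
        exact mul_ne_zero (pow_ne_zero _ hQ1c) (hev c hc Q' hPQ')
      obtain ⟨N1, hN1, -⟩ := hω' c hc v (P ^ k * N'') (P ^ e * Q') hN e _ h1 h2
      have h3 : (X - C c) ^ (k + 1) * (Q1 ^ k * sW u N'') = (X - C c) ^ e * N1 := by
        rw [← hN1, map_mul, map_pow, hQ1, mul_pow]
        ring
      have hek : e ≤ k + 1 := exp_le (by
        rw [eval_mul, eval_pow]
        exact mul_ne_zero (pow_ne_zero _ hQ1c) (hev c hc N'' hPN'')) h3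
      refine ⟨P ^ (k + 1 - e) * N'', ?_, ?_⟩
      · have h4 : (P ^ (k + 1 - e) * N'').totalDegree ≤ (P * (P ^ k * N'')).totalDegree := by
          have h5 : P * (P ^ k * N'') = P ^ e * (P ^ (k + 1 - e) * N'') := by
            rw [← mul_assoc, ← mul_assoc, ← pow_add, Nat.add_sub_cancel' hek, pow_succ]
            ring
          rw [h5, MvPolynomial.totalDegree_mul_of_isDomain (pow_ne_zero _ hP0)
            (mul_ne_zero (pow_ne_zero _ hP0) hN''0)]
          exact Nat.le_add_left _ _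
        refine h4.trans ((MvPolynomial.totalDegree_mul _ _).trans ?_)
        omega
      · have hPe : algebraMap (Ar n) (Wr n) P ^ e ≠ 0 := pow_ne_zero _ hPW
        apply mul_left_cancel₀ hPe
        have h5 : algebraMap (Ar n) (Wr n) P ^ e * (algebraMap (Ar n) (Wr n) (P * Q') *
            ω (Fin.snoc (α := fun _ => Fin n → ℂ) v u)) = algebraMap (Ar n) (Wr n) P *
            (algebraMap (Ar n) (Wr n) (P ^ e * Q') *
            ω (Fin.snoc (α := fun _ => Fin n → ℂ) v u)) := by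
          rw [map_mul, map_mul, map_pow]
          ring
        rw [h5, hN, ← map_mul, ← map_pow, ← map_mul, ← mul_assoc, ← mul_assoc, ← pow_add,
          Nat.add_sub_cancel' hek, pow_succ]
        congr 1
        ring
  obtain ⟨N', hN'd, hN'⟩ := hN'
  refine ⟨N', hN'd, hN', fun c hc => ?_⟩
  obtain ⟨Q1, hQ1, hQ1d, hQ1c⟩ := simple_root hP htop hc
  have h1 : sW u (P * Q') = (X - C c) ^ 1 * (Q1 * sW u Q') := by
    rw [map_mul, hQ1]
    ring
  have h2 : (Q1 * sW u Q').eval c ≠ 0 := by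
    rw [eval_mul]
    exact mul_ne_zero hQ1c (hev c hc Q' hPQ')
  obtain ⟨N1, hN1, hval⟩ := hω' c hc v N' (P * Q') hN' 1 _ h1 h2
  have h3 : sW u N' = N1 := by
    rw [pow_one] at hN1
    exact mul_left_cancel₀ (X_sub_C_ne_zero c) hN1
  rw [← h3, eval_mul, hQ1d, eval_sW_eq, eval_sW_eq] at hval
  have h4 : (derivative (sW u P)).eval c = aeval c (derivative (shift u P)) := by
    rw [sW, RingHom.comp_apply, coe_mapRingHom, derivative_map, eval_map, aeval_def]
  rw [h4, ← map_mul] at hval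
  exact hval

end Pool.Agent.Helper62.D4
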