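import Mathlib
import Pool.Agent.Helper62.D4.Reduce

namespace Pool.Agent.Helper62.D4

open Polynomial

variable {n : ℕ}

theorem TD_derivative {k : ℕ} {p : (Ar n)[X]} (hp : TD k p) : TD k (derivative p) := by
  intro i hi
  rw [coeff_derivative] at hi ⊢
  have h1 : p.coeff (i + 1) ≠ 0 := left_ne_zero_of_mul hi
  have h2 := hp (i + 1) h1
  have h3 : (p.coeff (i + 1) * ((i : Ar n) + 1)).totalDegree ≤ (p.coeff (i + 1)).totalDegree := by
    refine (MvPolynomial.totalDegree_mul _ _).trans ?_
    have h4 : ((i : Ar n) + 1) = MvPolynomial.C ((i : ℂ) + 1) := by simp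
    rw [h4, MvPolynomial.totalDegree_C, add_zero]
  omega

section

variable {u : Fin n → ℂ} {P : Ar n} (hP : Irreducible P)
  (htop : MvPolynomial.eval u (MvPolynomial.homogeneousComponent P.totalDegree P) = 1)

include hP htop in
theorem aeval_w_ne_zero {Q' : Ar n} (hQ' : ¬ P ∣ Q') {c : Wr n} (hc : c ∈ Rts u P) :
    aeval c (derivative (shift u P) * shift u Q') ≠ 0 := by
  have hc' := (mem_Rts htop).1 hc
  rw [map_mul]
  refine mul_ne_zero ?_ ?_
  · have h4 : (derivative (sW u P)).eval c = aeval c (derivative (shift u P)) := by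
      rw [sW, RingHom.comp_apply, coe_mapRingHom, derivative_map, eval_map, aeval_def]
    rw [← h4]
    exact deriv_ne_zero hP htop hc'
  · rw [← eval_sW_eq]
    intro h
    exact hQ' (dvd_of_root hP htop hc' h)

/-- The trace forms are again of bounded complexity. -/
theorem good_trace [DecidableEq (Wr n)] {m D j : ℕ} (hdP : P.totalDegree ≤ D) (hj : j < P.totalDegree)
    {ω' : Wr n → (Fin m → Fin n → ℂ) → Wr n} {Q' : Ar n}
    (hS : ∀ c ∈ Rts u P, ω' c ∈ S m n) (hPQ' : ¬ P ∣ Q') (hQ'd : Q'.totalDegree ≤ D)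
    (hrel : ∀ v : Fin m → Fin n → ℂ, ∃ N' : Ar n, N'.totalDegree ≤ D + P.totalDegree ∧
      ∀ c ∈ Rts u P, ω' c v * aeval c (derivative (shift u P) * shift u Q') =
          aeval c (shift u N')) (hP : Irreducible P)
    (htop : MvPolynomial.eval u (MvPolynomial.homogeneousComponent P.totalDegree P) = 1) :
    Good m (3 * D ^ 2) (fun v => ∑ c ∈ Rts u P, c ^ j * ω' c v) := by
  have hd1 : 1 ≤ P.totalDegree := totalDegree_pos_of_irreducible hP
  have hw : TD (P.totalDegree + D) (derivative (shift u P) * shift u Q') :=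
    (TD_derivative (shift_TD u P)).mul ((shift_TD u Q').mono hQ'd)
  refine ⟨?_, ?_⟩
  · have h1 : (fun v => ∑ c ∈ Rts u P, c ^ j * ω' c v) =
        ∑ c ∈ Rts u P, (fun v => c ^ j * ω' c v) := by
      funext v
      rw [Finset.sum_apply]
    rw [h1]
    exact AddSubgroup.sum_mem _ fun c hc =>
      S_integral_mul (hS c hc) ((isIntegral_Rts hP htop hc).pow j)
  obtain ⟨s, hs, hsd⟩ := exists_s hP htop hw
  refine ⟨s, ?_, ?_, ?_⟩
  · rintro rfl
    rw [map_zero] at hs
    exact Finset.prod_ne_zero_iff.2 (fun c hc => aeval_w_ne_zero hP htop hPQ' hc) hs.symm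
  · refine hsd.trans ?_
    nlinarith
  · intro v
    obtain ⟨N', hN'd, hN'⟩ := hrel v
    obtain ⟨M, hM, hMd⟩ := exists_M hP htop hw ((shift_TD u N').mono hN'd) j
    refine ⟨M, hMd.trans ?_, ?_⟩
    · obtain ⟨e, he⟩ := Nat.exists_eq_add_of_le hd1
      rw [he] at hdP hj ⊢
      have h2 : 1 + e - 1 = e := by omega
      rw [h2]
      nlinarith
    · rw [hs, hM, Finset.mul_sum]
      refine Finset.sum_congr rfl fun c hc => ?_
      rw [← hN' c hc, ← Finset.mul_prod_erase _ _ hc]
      ring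

end

section Total

variable {ι : Type*} [Fintype ι] [DecidableEq ι]

/-- The numerator of the total form. -/
noncomputable def At (N' Q' : ι → Ar n) : Ar n :=
  ∑ a, N' a * ∏ a' ∈ Finset.univ.erase a, Q' a'

theorem total_rel {x : ι → Wr n} {P : Ar n} {N' Q' : ι → Ar n}
    (h : ∀ a, algebraMap (Ar n) (Wr n) (P * Q' a) * x a = algebraMap (Ar n) (Wr n) (N' a)) :
    algebraMap (Ar n) (Wr n) (P * ∏ a, Q' a) * ∑ a, x a =
      algebraMap (Ar n) (Wr n) (At N' Q') := by
  rw [At, map_sum, Finset.mul_sum]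
  refine Finset.sum_congr rfl fun a _ => ?_
  rw [map_mul (algebraMap (Ar n) (Wr n)) (N' a), ← h a,
    ← Finset.mul_prod_erase Finset.univ Q' (Finset.mem_univ a), map_mul, map_mul, map_mul]
  ring

theorem total_rel' {x : ι → Wr n} {c : Wr n} {u : Fin n → ℂ} {dP : (Ar n)[X]} {N' Q' : ι → Ar n}
    (h : ∀ a, x a * aeval c (dP * shift u (Q' a)) = aeval c (shift u (N' a))) :
    (∑ a, x a) * aeval c (dP * shift u (∏ a, Q' a)) = aeval c (shift u (At N' Q')) := by
  rw [At, map_sum, map_sum, Finset.sum_mul]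
  refine Finset.sum_congr rfl fun a _ => ?_
  have h1 : aeval c (shift u (N' a * ∏ a' ∈ Finset.univ.erase a, Q' a')) =
      aeval c (shift u (N' a)) * aeval c (shift u (∏ a' ∈ Finset.univ.erase a, Q' a')) := by
    rw [map_mul, map_mul]
  rw [h1, ← h a, ← Finset.mul_prod_erase Finset.univ Q' (Finset.mem_univ a)]
  simp only [map_mul]
  ring

end Total

/-- Some power sum is nonzero. -/
theorem exists_power_sum {F : Type*} [Field F] [DecidableEq F] {R : Finset F} {x : F → F} {c0 : F}
    (hc0 : c0 ∈ R) (hx : x c0 ≠ 0) : ∃ j < R.card, ∑ c ∈ R, c ^ j * x c ≠ 0 := by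
  by_contra hcon
  push Not at hcon
  let p : F[X] := ∏ c ∈ R.erase c0, (X - C c)
  have hdeg : p.natDegree = R.card - 1 := by
    rw [natDegree_prod_of_monic _ _ (fun c _ => monic_X_sub_C c)]
    simp [Finset.card_erase_of_mem hc0]
  have hcard : 1 ≤ R.card := Finset.card_pos.2 ⟨c0, hc0⟩
  have h1 : ∑ c ∈ R, p.eval c * x c = p.eval c0 * x c0 := by
    rw [← Finset.add_sum_erase _ _ hc0]
    rw [Finset.sum_eq_zero, add_zero]
    intro c hc
    have : p.eval c = 0 := by
      rw [eval_prod]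
      exact Finset.prod_eq_zero hc (by simp)
    rw [this, zero_mul]
  have h2 : ∑ c ∈ R, p.eval c * x c = 0 := by
    have h3 : ∀ c, p.eval c = ∑ i ∈ Finset.range R.card, p.coeff i * c ^ i := by
      intro c
      rw [eval_eq_sum_range' (n := R.card) (by omega)]
    calc ∑ c ∈ R, p.eval c * x c
        = ∑ c ∈ R, ∑ i ∈ Finset.range R.card, p.coeff i * (c ^ i * x c) := by
          refine Finset.sum_congr rfl fun c _ => ?_
          rw [h3, Finset.sum_mul]
          refine Finset.sum_congr rfl fun i _ => ?_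
          ring
      _ = ∑ i ∈ Finset.range R.card, p.coeff i * ∑ c ∈ R, c ^ i * x c := by
          rw [Finset.sum_comm]
          refine Finset.sum_congr rfl fun i _ => ?_
          rw [Finset.mul_sum]
      _ = 0 := by
          refine Finset.sum_eq_zero fun i hi => ?_
          rw [hcon i (Finset.mem_range.1 hi), mul_zero]
  rw [h1] at h2
  have h4 : p.eval c0 ≠ 0 := by
    rw [eval_prod]
    refine Finset.prod_ne_zero_iff.2 fun c hc => ?_
    rw [eval_sub, eval_X, eval_C]
    exact sub_ne_zero.2 (Finset.ne_of_mem_erase hc).symm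
  exact mul_ne_zero h4 hx h2

end Pool.Agent.Helper62.D4
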