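import Mathlib
import Pool.Agent.Helper62.D4.Trace

namespace Pool.Agent.Helper62.D4

open Polynomial

variable {n : ℕ}

/-- Ring homomorphisms onto an algebraically closed field extend to integral extensions. -/
theorem ext_hom {A B F : Type*} [CommRing A] [CommRing B] [Algebra A B] [Algebra.IsIntegral A B]
    (hinj : Function.Injective (algebraMap A B)) [Field F] [IsAlgClosed F] (f : A →+* F)
    (hf : Function.Surjective f) : ∃ σ : B →+* F, ∀ a, σ (algebraMap A B a) = f a := by
  have hmax : (RingHom.ker f).IsMaximal := RingHom.ker_isMaximal_of_surjective f hf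
  obtain ⟨Q, hQmax, hQ⟩ := Ideal.exists_ideal_over_maximal_of_isIntegral (S := B)
    (RingHom.ker f) (by
      rw [(RingHom.injective_iff_ker_eq_bot _).1 hinj]
      exact bot_le)
  have hdom : IsDomain (B ⧸ Q) := Ideal.Quotient.isDomain Q
  have hlift : ∀ a ∈ RingHom.ker f, ((Ideal.Quotient.mk Q).comp (algebraMap A B)) a = 0 := by
    intro a ha
    rw [← hQ] at ha
    rw [RingHom.comp_apply, Ideal.Quotient.eq_zero_iff_mem]
    exact ha
  let g : F →+* B ⧸ Q := (Ideal.Quotient.lift (RingHom.ker f)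
    ((Ideal.Quotient.mk Q).comp (algebraMap A B)) hlift).comp
      (RingHom.quotientKerEquivOfSurjective hf).symm.toRingHom
  have hg : ∀ a, g (f a) = Ideal.Quotient.mk Q (algebraMap A B a) := by
    intro a
    have h1 : (RingHom.quotientKerEquivOfSurjective hf).symm (f a) =
        Ideal.Quotient.mk (RingHom.ker f) a := by
      rw [RingEquiv.symm_apply_eq]
      rfl
    change (Ideal.Quotient.lift (RingHom.ker f) _ hlift)
      ((RingHom.quotientKerEquivOfSurjective hf).symm (f a)) = _
    rw [h1, Ideal.Quotient.lift_mk]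
    rfl
  have hbij : Function.Bijective g := by
    let algg : Algebra F (B ⧸ Q) := g.toAlgebra
    have hint : Algebra.IsIntegral F (B ⧸ Q) := by
      constructor
      intro z
      obtain ⟨b, rfl⟩ := Ideal.Quotient.mk_surjective z
      obtain ⟨p, hpm, hp⟩ := Algebra.IsIntegral.isIntegral (R := A) b
      refine ⟨p.map f, hpm.map _, ?_⟩
      have h1 : (algebraMap F (B ⧸ Q)) = g := rfl
      rw [h1, eval₂_map]
      have h2 : g.comp f = (Ideal.Quotient.mk Q).comp (algebraMap A B) := by
        apply RingHom.ext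
        intro a
        exact hg a
      rw [h2, ← hom_eval₂, hp, map_zero]
    exact IsAlgClosed.algebraMap_bijective_of_isIntegral (k := F) (K := B ⧸ Q)
  let e : F ≃+* B ⧸ Q := RingEquiv.ofBijective g hbij
  refine ⟨e.symm.toRingHom.comp (Ideal.Quotient.mk Q), fun a => ?_⟩
  change e.symm (Ideal.Quotient.mk Q (algebraMap A B a)) = f a
  rw [RingEquiv.symm_apply_eq, ← hg]
  rfl

/-- Evaluation at points of an affine space. -/
theorem common_point {m : ℕ} (p : Fin n → ℂ) (u : Fin m → Fin n → ℂ) (H1 H2 : Ar n)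
    (h1 : ∃ y : Fin m → ℂ, MvPolynomial.eval (p + ∑ i, y i • u i) H1 ≠ 0)
    (h2 : ∃ y : Fin m → ℂ, MvPolynomial.eval (p + ∑ i, y i • u i) H2 ≠ 0) :
    ∃ y : Fin m → ℂ, MvPolynomial.eval (p + ∑ i, y i • u i) H1 ≠ 0 ∧
      MvPolynomial.eval (p + ∑ i, y i • u i) H2 ≠ 0 := by
  let L : Ar n →ₐ[ℂ] MvPolynomial (Fin m) ℂ := MvPolynomial.aeval fun i =>
    MvPolynomial.C (p i) + ∑ j, MvPolynomial.X j * MvPolynomial.C (u j i)
  have hL : ∀ (y : Fin m → ℂ) (H : Ar n), MvPolynomial.eval y (L H) =
      MvPolynomial.eval (p + ∑ i, y i • u i) H := by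
    intro y H
    have h : ((MvPolynomial.eval y).comp (L : Ar n →+* MvPolynomial (Fin m) ℂ)) =
        MvPolynomial.eval (p + ∑ i, y i • u i) := by
      apply MvPolynomial.ringHom_ext
      · intro r
        simp [L]
      · intro i
        simp [L, Finset.sum_apply]
    exact RingHom.congr_fun h H
  have h3 : L H1 ≠ 0 := by
    intro h
    obtain ⟨y, hy⟩ := h1
    rw [← hL, h, map_zero] at hy
    exact hy rfl
  have h4 : L H2 ≠ 0 := by
    intro h
    obtain ⟨y, hy⟩ := h2
    rw [← hL, h, map_zero] at hy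
    exact hy rfl
  by_contra hcon
  push Not at hcon
  have h5 : L H1 * L H2 = 0 := by
    apply MvPolynomial.funext
    intro y
    rw [map_mul, map_zero, hL, hL]
    by_cases h6 : MvPolynomial.eval (p + ∑ i, y i • u i) H1 = 0
    · rw [h6, zero_mul]
    · rw [hcon y h6, mul_zero]
  exact mul_ne_zero h3 h4 h5

/-- The sequence of degree bounds. -/
def Dseq : ℕ → ℕ → ℕ
  | 0, D => D
  | m + 1, D => Dseq m (3 * D ^ 2)

theorem le_Dseq (m : ℕ) : ∀ D : ℕ, 1 ≤ D → D ≤ Dseq m D := by
  induction m with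
  | zero => intro D _; exact le_rfl
  | succ m ih =>
    intro D hD
    have h1 : D ≤ 3 * D ^ 2 := by nlinarith
    exact h1.trans (ih _ (hD.trans h1))

/-- An algebraic function as an element of the integral closure. -/
noncomputable def toB (c : Wr n) : integralClosure (Ar n) (Wr n) := by
  classical exact if h : IsIntegral (Ar n) c then ⟨c, h⟩ else 0

theorem toB_coe {c : Wr n} (h : IsIntegral (Ar n) c) : ((toB c : integralClosure (Ar n) (Wr n)) : Wr n) = c := by
  unfold toB
  rw [dif_pos h]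

theorem coe_aeval_toB {c : Wr n} (h : IsIntegral (Ar n) c) (p : (Ar n)[X]) :
    ((aeval (toB c) p : integralClosure (Ar n) (Wr n)) : Wr n) = aeval c p := by
  have h1 : (integralClosure (Ar n) (Wr n)).val (aeval (toB c) p) =
      aeval ((integralClosure (Ar n) (Wr n)).val (toB c)) p :=
    (aeval_algHom_apply (integralClosure (Ar n) (Wr n)).val (toB c) p).symm
  have h2 : (integralClosure (Ar n) (Wr n)).val (toB c) = c := toB_coe h
  rw [h2] at h1
  exact h1

/-- The key step: if the specialised numerator vanishes then so does the specialised trace form. -/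
theorem specialise [DecidableEq (Wr n)] {u q : Fin n → ℂ} {P : Ar n} (hP : Irreducible P)
    (htop : MvPolynomial.eval u (MvPolynomial.homogeneousComponent P.totalDegree P) = 1)
    {w At1 s N1 Q1 : Ar n} {j : ℕ} {R : Wr n → Wr n} {T : Wr n}
    (hR : ∀ c ∈ Rts u P, R c * aeval c (derivative (shift u P) * shift u w) = aeval c (shift u At1))
    (hT : T = ∑ c ∈ Rts u P, c ^ j * R c)
    (hNQ : algebraMap (Ar n) (Wr n) Q1 * T = algebraMap (Ar n) (Wr n) N1)
    (hs : algebraMap (Ar n) (Wr n) s =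
      ∏ c ∈ Rts u P, aeval c (derivative (shift u P) * shift u w))
    (hsq : MvPolynomial.eval q s ≠ 0) (hN1 : MvPolynomial.eval q N1 ≠ 0) :
    (shift u At1).map (MvPolynomial.eval q) ≠ 0 := by
  intro h0
  have hinjB : Function.Injective (algebraMap (Ar n) (integralClosure (Ar n) (Wr n))) := by
    intro a b hab
    apply injAW
    have := congrArg (algebraMap (integralClosure (Ar n) (Wr n)) (Wr n)) hab
    rwa [← IsScalarTower.algebraMap_apply, ← IsScalarTower.algebraMap_apply] at this
  obtain ⟨σ, hσ⟩ := ext_hom (B := integralClosure (Ar n) (Wr n)) hinjB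
    (MvPolynomial.eval q) (by
      intro z
      exact ⟨MvPolynomial.C z, MvPolynomial.eval_C _⟩)
  set wt : (Ar n)[X] := derivative (shift u P) * shift u w with hwt
  have hint : ∀ c ∈ Rts u P, IsIntegral (Ar n) c := fun c hc => isIntegral_Rts hP htop hc
  have hσ0 : ∀ c : Wr n, σ (aeval (toB c) (shift u At1)) = 0 := by
    intro c
    rw [aeval_def, hom_eval₂]
    have h1 : σ.comp (algebraMap (Ar n) (integralClosure (Ar n) (Wr n))) = MvPolynomial.eval q := by
      apply RingHom.ext
      intro a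
      exact hσ a
    rw [h1, ← eval_map, h0, eval_zero]
  let Z : integralClosure (Ar n) (Wr n) := ∏ c ∈ Rts u P, aeval (toB c) wt
  let Y : integralClosure (Ar n) (Wr n) :=
    ∑ c ∈ Rts u P, (toB c) ^ j * aeval (toB c) (shift u At1) *
      ∏ c' ∈ (Rts u P).erase c, aeval (toB c') wt
  have hZ : (Z : Wr n) = ∏ c ∈ Rts u P, aeval c wt := by
    change (integralClosure (Ar n) (Wr n)).val Z = _
    rw [map_prod]
    exact Finset.prod_congr rfl fun c hc => coe_aeval_toB (hint c hc) wt
  have hZs : Z = algebraMap (Ar n) (integralClosure (Ar n) (Wr n)) s := by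
    apply Subtype.ext
    rw [hZ, ← hs]
    rfl
  have hσZ : σ Z ≠ 0 := by
    rw [hZs, hσ]
    exact hsq
  have hσY : σ Y = 0 := by
    rw [map_sum]
    refine Finset.sum_eq_zero fun c _ => ?_
    rw [map_mul, map_mul, hσ0, mul_zero, zero_mul]
  have hY : (Y : Wr n) = (Z : Wr n) * T := by
    rw [hZ, hT, Finset.mul_sum]
    change (integralClosure (Ar n) (Wr n)).val Y = _
    rw [map_sum]
    refine Finset.sum_congr rfl fun c hc => ?_
    rw [map_mul, map_mul, map_pow, map_prod]
    have e1 : (integralClosure (Ar n) (Wr n)).val (toB c) = c := toB_coe (hint c hc)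
    have e2 : (integralClosure (Ar n) (Wr n)).val (aeval (toB c) (shift u At1)) =
        aeval c (shift u At1) := coe_aeval_toB (hint c hc) _
    have e3 : ∏ c' ∈ (Rts u P).erase c, (integralClosure (Ar n) (Wr n)).val (aeval (toB c') wt) =
        ∏ c' ∈ (Rts u P).erase c, aeval c' wt :=
      Finset.prod_congr rfl fun c' hc' => coe_aeval_toB (hint c' (Finset.mem_of_mem_erase hc')) wt
    rw [e1, e2, e3, ← hR c hc, ← Finset.mul_prod_erase _ _ hc]
    ring
  have hfin : algebraMap (Ar n) (integralClosure (Ar n) (Wr n)) Q1 * Y =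
      Z * algebraMap (Ar n) (integralClosure (Ar n) (Wr n)) N1 := by
    apply Subtype.ext
    change algebraMap (Ar n) (Wr n) Q1 * (Y : Wr n) = (Z : Wr n) * algebraMap (Ar n) (Wr n) N1
    rw [hY, ← hNQ]
    ring
  have := congrArg σ hfin
  rw [map_mul, map_mul, hσY, mul_zero, hσ] at this
  exact mul_ne_zero hσZ hN1 this.symm

theorem normalise {u : Fin n → ℂ} {P : Ar n} (hP : Irreducible P)
    (hk : MvPolynomial.eval u (MvPolynomial.homogeneousComponent P.totalDegree P) ≠ 0) :
    ∃ (P0 : Ar n), Irreducible P0 ∧ P0.totalDegree = P.totalDegree ∧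
      MvPolynomial.eval u (MvPolynomial.homogeneousComponent P0.totalDegree P0) = 1 ∧
      ∀ a : Ar n, P0 ∣ a ↔ P ∣ a := by
  set κ := MvPolynomial.eval u (MvPolynomial.homogeneousComponent P.totalDegree P) with hκ
  have hu : IsUnit (MvPolynomial.C κ⁻¹ : Ar n) := (IsUnit.mk0 _ (inv_ne_zero hk)).map MvPolynomial.C
  have hdeg : (MvPolynomial.C κ⁻¹ * P).totalDegree = P.totalDegree := by
    rw [MvPolynomial.totalDegree_mul_of_isDomain hu.ne_zero hP.ne_zero, MvPolynomial.totalDegree_C,
      zero_add]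
  refine ⟨MvPolynomial.C κ⁻¹ * P, ?_, hdeg, ?_, ?_⟩
  · exact (irreducible_isUnit_mul hu).2 hP
  · rw [hdeg, MvPolynomial.homogeneousComponent_C_mul, map_mul, MvPolynomial.eval_C, ← hκ,
      inv_mul_cancel₀ hk]
  · intro a
    exact hu.mul_left_dvd

/-- The main induction. -/
theorem main_induction : ∀ (m D E : ℕ), 1 ≤ D → Dseq m D ≤ E → ∀ {ι : Type} [Fintype ι]
    (ω : ι → (Fin m → Fin n → ℂ) → Wr n), (∀ a, Good m D (ω a)) → ∑ a, ω a ≠ 0 →
    ∀ U : Set (Fin n → ℂ), Rich U E → Concl m E U (∑ a, ω a) := by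
  classical
  intro m
  induction m with
  | zero =>
    intro D E hD hE ι _ ω hω hne U hU
    exact case1 hω (case_zero hω) hne (hD.trans hE) hE hU
  | succ m ih =>
    intro D E hD hE ι _ ω hω hne U hU
    have hD3 : 1 ≤ 3 * D ^ 2 := by nlinarith
    have hD3E : 3 * D ^ 2 ≤ E := (le_Dseq m _ hD3).trans hE
    have hDE : D ≤ E := le_trans (by nlinarith) hD3E
    by_cases hA : ∀ v, ∃ b : Ar n, (∑ a, ω a) v = algebraMap (Ar n) (Wr n) b
    · exact case1 hω hA hne (hD.trans hDE) hDE hU
    rw [not_forall] at hA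
    obtain ⟨v, hv⟩ := hA
    have hS : (∑ a, ω a) ∈ S (m + 1) n := AddSubgroup.sum_mem _ fun a _ => (hω a).1
    -- the pole
    choose Q hQ0 hQd hQ using fun a => (hω a).2
    choose N hN hQN using fun a => hQ a v
    have htot : algebraMap (Ar n) (Wr n) (1 * ∏ a, Q a) * (∑ a, ω a) v =
        algebraMap (Ar n) (Wr n) (At N Q) := by
      rw [Finset.sum_apply]
      apply total_rel
      intro a
      rw [one_mul]
      exact hQN a
    obtain ⟨P, hPp, hPQ, hreg⟩ := exists_pole _ _ _ _ le_rfl (by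
      rw [one_mul]
      exact Finset.prod_ne_zero_iff.2 fun a _ => hQ0 a) htot hv
    have hPirr : Irreducible P := hPp.irreducible
    rw [one_mul] at hPQ
    obtain ⟨a0, -, hPa0⟩ := (Prime.dvd_finsetProd_iff hPp Q).1 hPQ
    have hPd : P.totalDegree ≤ D :=
      (MvPolynomial.totalDegree_le_of_dvd_of_isDomain hPa0 (hQ0 a0)).trans (hQd a0)
    -- the direction
    let L := (RegP P hPp).mkQ ∘ₗ argLin hS v (Fin.last m)
    have hL : L (v (Fin.last m)) ≠ 0 := by
      change (RegP P hPp).mkQ (argLin hS v (Fin.last m) (v (Fin.last m))) ≠ 0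
      rw [argLin_apply, Function.update_eq_self]
      intro h
      exact hreg ((Submodule.Quotient.mk_eq_zero _).1 h)
    obtain ⟨H, hH0, hHd, hH⟩ := exists_linear L hL
    have hPtop0 : MvPolynomial.homogeneousComponent P.totalDegree P ≠ 0 := by
      intro h
      obtain ⟨x, hx, hxd⟩ : ∃ x ∈ P.support, x.degree = P.totalDegree := by
        obtain ⟨x, hx, hxe⟩ := Finset.exists_mem_eq_sup P.support
          (MvPolynomial.support_nonempty.2 hPirr.ne_zero) (fun s => s.sum fun _ e => e)
        refine ⟨x, hx, ?_⟩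
        rw [MvPolynomial.totalDegree, hxe]
        rfl
      have h2 := congrArg (MvPolynomial.coeff x) h
      rw [MvPolynomial.coeff_homogeneousComponent, if_pos hxd, MvPolynomial.coeff_zero] at h2
      exact (MvPolynomial.mem_support_iff.1 hx) h2
    have hPtopd : (MvPolynomial.homogeneousComponent P.totalDegree P).totalDegree ≤ E := by
      refine le_trans ?_ (hPd.trans hDE)
      exact (MvPolynomial.homogeneousComponent_isHomogeneous _ _).totalDegree_le
    obtain ⟨u, huU, hu⟩ := hU (H * MvPolynomial.homogeneousComponent P.totalDegree P)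
      (Submonoid.mul_mem _ (mem_PD hH0 (hHd.trans (hD.trans hDE))) (mem_PD hPtop0 hPtopd))
    rw [map_mul] at hu
    obtain ⟨P0, hP0, hP0d, htop, hP0dvd⟩ := normalise hPirr (right_ne_zero_of_mul hu)
    have hdP0 : P0.totalDegree ≤ D := hP0d.le.trans hPd
    set v0 : Fin m → Fin n → ℂ := Fin.init (α := fun _ => Fin n → ℂ) v with hv0
    have hnr : (∑ a, ω a) (Fin.snoc (α := fun _ => Fin n → ℂ) v0 u) ∉ RegP P hPp := by
      have h1 := hH u (left_ne_zero_of_mul hu)
      intro h
      apply h1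
      change (RegP P hPp).mkQ (argLin hS v (Fin.last m) u) = 0
      rw [argLin_apply]
      have h2 : Function.update v (Fin.last m) u =
          Fin.snoc (α := fun _ => Fin n → ℂ) v0 u := by
        conv_lhs => rw [← Fin.snoc_init_self v]
        rw [Fin.update_snoc_last]
      rw [h2]
      exact (Submodule.Quotient.mk_eq_zero _).2 h
    -- residues
    choose ω' Q' hω'S hPQ' hQ'0 hQ'd hrel using fun a => reduce (hω a) hP0 htop
    have hPprod : ¬ P0 ∣ ∏ a, Q' a := by
      intro h
      obtain ⟨a, -, ha⟩ := (Prime.dvd_finsetProd_iff hP0.prime Q').1 h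
      exact hPQ' a ha
    choose N0 hN0d hN0 hN0' using fun a => hrel a v0
    have hAt0 : algebraMap (Ar n) (Wr n) (P0 * ∏ a, Q' a) *
        (∑ a, ω a) (Fin.snoc (α := fun _ => Fin n → ℂ) v0 u) =
        algebraMap (Ar n) (Wr n) (At N0 Q') := by
      rw [Finset.sum_apply]
      exact total_rel hN0
    have hPAt0 : ¬ P0 ∣ At N0 Q' := by
      rintro ⟨A2, hA2⟩
      apply hnr
      rw [mem_RegP]
      refine ⟨A2, ∏ a, Q' a, fun h => hPprod ((hP0dvd _).2 h), ?_⟩
      have hPW : algebraMap (Ar n) (Wr n) P0 ≠ 0 := by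
        intro h
        exact hP0.ne_zero (injAW (h.trans (map_zero _).symm))
      apply mul_left_cancel₀ hPW
      rw [← mul_assoc, ← map_mul, hAt0, hA2, map_mul]
    obtain ⟨c0, hc0⟩ := Rts_nonempty hP0 htop
    have hres0 : ∑ a, ω' a c0 v0 ≠ 0 := by
      intro h
      have h1 := total_rel' (x := fun a => ω' a c0 v0) (c := c0) (u := u)
        (dP := derivative (shift u P0)) (N' := N0) (Q' := Q') (fun a => hN0' a c0 hc0)
      rw [h, zero_mul, ← eval_sW_eq] at h1
      exact hPAt0 (dvd_of_root hP0 htop ((mem_Rts htop).1 hc0) h1.symm)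
    obtain ⟨j, hjlt, hj⟩ := exists_power_sum (x := fun c => ∑ a, ω' a c v0) hc0 hres0
    have hjd : j < P0.totalDegree := hjlt.trans_le (card_Rts_le htop)
    -- trace forms
    let ωt : ι → (Fin m → Fin n → ℂ) → Wr n := fun a v => ∑ c ∈ Rts u P0, c ^ j * ω' a c v
    have hωt : ∀ a, Good m (3 * D ^ 2) (ωt a) := fun a =>
      good_trace hdP0 hjd (hω'S a) (hPQ' a) (hQ'd a) (fun v => by
        obtain ⟨N', h1, -, h3⟩ := hrel a v
        exact ⟨N', h1, h3⟩) hP0 htop
    have hsumt : ∀ v, (∑ a, ωt a) v = ∑ c ∈ Rts u P0, c ^ j * ∑ a, ω' a c v := by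
      intro v
      rw [Finset.sum_apply]
      simp only [ωt, Finset.mul_sum]
      rw [Finset.sum_comm]
    have hωtne : ∑ a, ωt a ≠ 0 := by
      intro h
      apply hj
      rw [← hsumt v0, h]
      rfl
    obtain ⟨u', hu'U, g', hg', hmain⟩ := ih (3 * D ^ 2) E hD3 hE ωt hωt hωtne U hU
    -- the avoidance polynomial
    obtain ⟨sP, hsP, hsPd⟩ := exists_s hP0 htop (TD_derivative (shift_TD u P0))
    choose sQ hsQ hsQd using fun a => exists_s hP0 htop (shift_TD u (Q' a))
    have hw0 : ∀ a, ∀ c ∈ Rts u P0, aeval c (derivative (shift u P0)) ≠ 0 ∧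
        aeval c (shift u (Q' a)) ≠ 0 := by
      intro a c hc
      have h1 := aeval_w_ne_zero hP0 htop (hPQ' a) hc
      rw [map_mul] at h1
      exact ⟨left_ne_zero_of_mul h1, right_ne_zero_of_mul h1⟩
    have hsP0 : sP ≠ 0 := by
      rintro rfl
      rw [map_zero] at hsP
      exact Finset.prod_ne_zero_iff.2 (fun c hc => (hw0 a0 c hc).1) hsP.symm
    have hsQ0 : ∀ a, sQ a ≠ 0 := by
      intro a h
      have h1 := hsQ a
      rw [h, map_zero] at h1
      exact Finset.prod_ne_zero_iff.2 (fun c hc => (hw0 a c hc).2) h1.symm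
    have hsPmem : sP ∈ PD n E := by
      refine mem_PD hsP0 (hsPd.trans (le_trans ?_ hD3E))
      nlinarith
    have hsQmem : ∀ a, sQ a ∈ PD n E := by
      intro a
      refine mem_PD (hsQ0 a) ((hsQd a).trans (le_trans ?_ hD3E))
      have := hQ'd a
      nlinarith
    refine ⟨Fin.snoc (α := fun _ => Fin n → ℂ) u' u, ?_, g' * (sP * ∏ a, (Q' a * sQ a)), ?_, ?_⟩
    · intro i
      induction i using Fin.lastCases with
      | last => rw [Fin.snoc_last]; exact huU
      | cast i => rw [Fin.snoc_castSucc]; exact hu'U i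
    · refine Submonoid.mul_mem _ hg' (Submonoid.mul_mem _ hsPmem (Submonoid.prod_mem _ ?_))
      intro a _
      exact Submonoid.mul_mem _ (mem_PD (hQ'0 a) ((hQ'd a).trans hDE)) (hsQmem a)
    intro p hp
    rw [map_mul] at hp
    obtain ⟨y', N1, Q1, hNQ, hQ1, hN1⟩ := hmain p (left_ne_zero_of_mul hp)
    obtain ⟨y, hy1, hy2⟩ := common_point p u' (Q1 * N1) (sP * ∏ a, (Q' a * sQ a))
      ⟨y', by rw [map_mul]; exact mul_ne_zero hQ1 hN1⟩
      ⟨0, by
        have : p + ∑ i, (0 : Fin m → ℂ) i • u' i = p := by simp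
        rw [this]
        exact right_ne_zero_of_mul hp⟩
    set q : Fin n → ℂ := p + ∑ i, y i • u' i with hq
    rw [map_mul] at hy1 hy2
    have hqQ1 := left_ne_zero_of_mul hy1
    have hqN1 := right_ne_zero_of_mul hy1
    have hqsP := left_ne_zero_of_mul hy2
    have hqprod := right_ne_zero_of_mul hy2
    rw [map_prod] at hqprod
    have hqa : ∀ a, MvPolynomial.eval q (Q' a) ≠ 0 ∧ MvPolynomial.eval q (sQ a) ≠ 0 := by
      intro a
      have h1 := Finset.prod_ne_zero_iff.1 hqprod a (Finset.mem_univ a)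
      rw [map_mul] at h1
      exact ⟨left_ne_zero_of_mul h1, right_ne_zero_of_mul h1⟩
    choose N2 hN2d hN2 hN2' using fun a => hrel a u'
    have hAt1 : algebraMap (Ar n) (Wr n) (P0 * ∏ a, Q' a) *
        (∑ a, ω a) (Fin.snoc (α := fun _ => Fin n → ℂ) u' u) =
        algebraMap (Ar n) (Wr n) (At N2 Q') := by
      rw [Finset.sum_apply]
      exact total_rel hN2
    have hspec : (shift u (At N2 Q')).map (MvPolynomial.eval q) ≠ 0 := by
      refine specialise hP0 htop (w := ∏ a, Q' a) (s := sP * ∏ a, sQ a) (N1 := N1) (Q1 := Q1)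
        (j := j) (R := fun c => ∑ a, ω' a c u') (T := (∑ a, ωt a) u') ?_ (hsumt u') hNQ ?_ ?_ hqN1
      · intro c hc
        exact total_rel' fun a => hN2' a c hc
      · rw [map_mul, map_prod, hsP]
        simp only [map_mul, map_prod, Finset.prod_mul_distrib]
        congr 1
        rw [Finset.prod_comm]
        exact Finset.prod_congr rfl fun a _ => hsQ a
      · rw [map_mul, map_prod]
        exact mul_ne_zero hqsP (Finset.prod_ne_zero_iff.2 fun a _ => (hqa a).2)
    have hden : (shift u (P0 * ∏ a, Q' a)).map (MvPolynomial.eval q) ≠ 0 := by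
      rw [map_mul, Polynomial.map_mul]
      refine mul_ne_zero ((shift_monic htop).1.map _).ne_zero ?_
      intro h
      have h1 := eval_shift u q 0 (∏ a, Q' a)
      rw [h, eval_zero, zero_smul, add_zero, map_prod] at h1
      exact Finset.prod_ne_zero_iff.2 (fun a _ => (hqa a).1) h1.symm
    obtain ⟨l, hl⟩ : ∃ l : ℂ, ((shift u (P0 * ∏ a, Q' a)).map (MvPolynomial.eval q) *
        (shift u (At N2 Q')).map (MvPolynomial.eval q)).eval l ≠ 0 := by
      by_contra hcon
      push Not at hcon
      exact mul_ne_zero hden hspec (Polynomial.funext fun l => by rw [hcon l, eval_zero])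
    rw [eval_mul, eval_shift, eval_shift] at hl
    have hpt : p + ∑ i, (Fin.snoc (α := fun _ => ℂ) y l : Fin (m + 1) → ℂ) i •
        (Fin.snoc (α := fun _ => Fin n → ℂ) u' u : Fin (m + 1) → Fin n → ℂ) i = q + l • u := by
      rw [Fin.sum_univ_castSucc]
      simp only [Fin.snoc_castSucc, Fin.snoc_last]
      rw [hq, add_assoc]
    refine ⟨Fin.snoc (α := fun _ => ℂ) y l, At N2 Q', P0 * ∏ a, Q' a, hAt1, ?_, ?_⟩
    · rw [hpt]
      exact left_ne_zero_of_mul hl
    · rw [hpt]
      exact right_ne_zero_of_mul hl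

end Pool.Agent.Helper62.D4
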