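import Mathlib
import Pool.Agent.Helper62.D4.Main
import Pool.Agent.Helper93.D4.M1
import Pool.Agent.Helper93.D4.M2
import Pool.Agent.Helper28.D4.Hit
import Pool.Agent.Helper28.D4.Norm

namespace Pool.Agent.Helper62.D4

variable {n : ℕ}

theorem dA_eq_sum (v : Fin n → ℂ) (a : Ar n) :
    dA v a = ∑ k, MvPolynomial.C (v k) * MvPolynomial.pderiv k a := by
  classical
  induction a using MvPolynomial.induction_on with
  | C a =>
    rw [dA_C]
    symm
    apply Finset.sum_eq_zero
    intro k _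
    rw [MvPolynomial.pderiv_C, mul_zero]
  | add p q hp hq =>
    rw [Der.map_add, hp, hq, ← Finset.sum_add_distrib]
    refine Finset.sum_congr rfl fun k _ => ?_
    rw [map_add, mul_add]
  | mul_X p i hp =>
    rw [Der.map_mul, hp, dA_X, Finset.mul_sum]
    have h1 : ∀ k, MvPolynomial.C (v k) * MvPolynomial.pderiv k (p * MvPolynomial.X i) =
        (if k = i then p * MvPolynomial.C (v i) else 0) +
          MvPolynomial.X i * (MvPolynomial.C (v k) * MvPolynomial.pderiv k p) := by
      intro k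
      rw [Derivation.leibniz, smul_eq_mul, smul_eq_mul, MvPolynomial.pderiv_X, Pi.single_apply]
      by_cases h : k = i
      · rw [if_pos h.symm, if_pos h, h]
        ring
      · rw [if_neg (fun h' => h h'.symm), if_neg h]
        ring
    simp only [h1]
    rw [Finset.sum_add_distrib, Finset.sum_ite_eq' Finset.univ i, if_pos (Finset.mem_univ i)]

theorem dA_single (k : Fin n) (a : Ar n) : dA (Pi.single k 1) a = MvPolynomial.pderiv k a := by
  classical
  rw [dA_eq_sum, Finset.sum_eq_single k]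
  · rw [Pi.single_eq_same, map_one, one_mul]
  · intro j _ hj
    rw [Pi.single_eq_of_ne hj, map_zero, zero_mul]
  · intro h
    exact absurd (Finset.mem_univ k) h

theorem totalDegree_pderiv_le (k : Fin n) (a : Ar n) :
    (MvPolynomial.pderiv k a).totalDegree ≤ a.totalDegree := by
  classical
  conv_lhs => rw [MvPolynomial.as_sum a, map_sum]
  apply MvPolynomial.totalDegree_finsetSum_le
  intro m hm
  rw [MvPolynomial.pderiv_monomial]
  refine (MvPolynomial.totalDegree_monomial_le _ _).trans ?_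
  refine le_trans ?_ (MvPolynomial.le_totalDegree hm)
  apply Finsupp.degree_mono
  exact tsub_le_self

theorem totalDegree_dA_le (v : Fin n → ℂ) (a : Ar n) : (dA v a).totalDegree ≤ a.totalDegree := by
  rw [dA_eq_sum]
  apply MvPolynomial.totalDegree_finsetSum_le
  intro k _
  refine (MvPolynomial.totalDegree_mul _ _).trans ?_
  rw [MvPolynomial.totalDegree_C, zero_add]
  exact totalDegree_pderiv_le k a

theorem gen_good {r D : ℕ} {δ : ℕ} (hD : r * δ ≤ D) (f : Fin r → Ar n) (hf0 : ∀ i, f i ≠ 0)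
    (hf : ∀ i, (f i).totalDegree ≤ δ) :
    Good r D (gen 1 fun i => algebraMap (Ar n) (Wr n) (f i)) := by
  classical
  have hsum : ∀ g : Fin r → Ar n, (∀ i, (g i).totalDegree ≤ δ) → (∏ i, g i).totalDegree ≤ D := by
    intro g hg
    refine (MvPolynomial.totalDegree_finsetProd _ _).trans ?_
    refine (Finset.sum_le_card_nsmul _ _ δ fun i _ => hg i).trans ?_
    rw [Finset.card_univ, Fintype.card_fin, smul_eq_mul]
    exact hD
  refine ⟨gen_mem isIntegral_one fun i h => hf0 i (injAW (h.trans (map_zero _).symm)),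
    ∏ i, f i, Finset.prod_ne_zero_iff.2 fun i _ => hf0 i, hsum f hf, fun v =>
      ⟨(Matrix.of fun i j => dA (v j) (f i)).det, ?_, ?_⟩⟩
  · rw [Matrix.det_apply]
    apply MvPolynomial.totalDegree_finsetSum_le
    intro σ _
    rw [Units.smul_def, zsmul_eq_mul]
    refine (MvPolynomial.totalDegree_mul _ _).trans ?_
    have h1 : (((Equiv.Perm.sign σ : ℤ) : Ar n)).totalDegree = 0 := by
      have : (((Equiv.Perm.sign σ : ℤ) : Ar n)) = MvPolynomial.C ((Equiv.Perm.sign σ : ℤ) : ℂ) := by
        rw [map_intCast]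
      rw [this, MvPolynomial.totalDegree_C]
    rw [h1, zero_add]
    rw [← Equiv.prod_comp σ⁻¹]
    apply hsum
    intro i
    have h2 : σ (σ⁻¹ i) = i := by simp
    rw [Matrix.of_apply, h2]
    exact (totalDegree_dA_le _ _).trans (hf i)
  · have h0 : ∀ i, algebraMap (Ar n) (Wr n) (f i) ≠ 0 := fun i h =>
      hf0 i (injAW (h.trans (map_zero _).symm))
    have h1 : (Matrix.of fun i j => ld (dW (v j)) (algebraMap (Ar n) (Wr n) (f i))) =
        Matrix.of fun i j => (algebraMap (Ar n) (Wr n) (f i))⁻¹ *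
          (Matrix.of fun i j => dW (v j) (algebraMap (Ar n) (Wr n) (f i))) i j := by
      ext i j
      rw [Matrix.of_apply, Matrix.of_apply, Matrix.of_apply, ld, mul_comm]
    rw [gen, h1, Matrix.det_mul_column, one_mul, map_prod, ← mul_assoc, ← Finset.prod_mul_distrib,
      Finset.prod_eq_one (fun i _ => mul_inv_cancel₀ (h0 i)), one_mul, RingHom.map_det]
    congr 1
    ext i j
    rw [Matrix.of_apply, RingHom.mapMatrix_apply, Matrix.map_apply, Matrix.of_apply, dW_alg]

theorem ld_prod {F : Type*} [Field F] (d : Der F) {ι : Type*} (s : Finset ι) (f : ι → F)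
    (hf : ∀ i ∈ s, f i ≠ 0) : ld d (∏ i ∈ s, f i) = ∑ i ∈ s, ld d (f i) := by
  classical
  induction s using Finset.induction_on with
  | empty => rw [Finset.prod_empty, Finset.sum_empty, ld_one]
  | insert a s ha ih =>
    rw [Finset.prod_insert ha, Finset.sum_insert ha, ld_mul, ih]
    · exact fun i hi => hf i (Finset.mem_insert_of_mem hi)
    · exact hf a (Finset.mem_insert_self a s)
    · exact Finset.prod_ne_zero_iff.2 fun i hi => hf i (Finset.mem_insert_of_mem hi)

theorem gen_expand {r : ℕ} {ι : Fin r → Type} [∀ i, Fintype (ι i)]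
    (f : ∀ i, ι i → Ar n) (hf : ∀ i a, f i a ≠ 0) :
    gen 1 (fun i => algebraMap (Ar n) (Wr n) (∏ a, f i a)) =
      ∑ a : ∀ i, ι i, gen 1 fun i => algebraMap (Ar n) (Wr n) (f i (a i)) := by
  classical
  funext v
  rw [Finset.sum_apply]
  simp only [gen, one_mul]
  have h0 : ∀ i a, algebraMap (Ar n) (Wr n) (f i a) ≠ 0 := fun i a h =>
      hf i a (injAW (h.trans (map_zero _).symm))
  have h1 : (Matrix.of fun i j => ld (dW (v j)) (algebraMap (Ar n) (Wr n) (∏ a, f i a))) =
      fun i => ∑ a : ι i, fun j => ld (dW (v j)) (algebraMap (Ar n) (Wr n) (f i a)) := by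
    ext i j
    rw [Matrix.of_apply, map_prod, ld_prod _ _ _ fun a _ => h0 i a, Finset.sum_apply]
  rw [h1]
  exact (Matrix.detRowAlternating (n := Fin r) (R := Wr n)).toMultilinearMap.map_sum
    (fun i a => fun j => ld (dW (v j)) (algebraMap (Ar n) (Wr n) (f i a)))

/-- Products of polynomials of degree at most `δ`. -/
theorem exists_factors {δ : ℕ} {P : Ar n} (hP : P ∈ Submonoid.closure {h : Ar n | h.totalDegree ≤ δ})
    (hP0 : P ≠ 0) : ∃ (ι : Type) (_ : Fintype ι) (f : ι → Ar n), (∀ a, f a ≠ 0) ∧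
      (∀ a, (f a).totalDegree ≤ δ) ∧ P = ∏ a, f a := by
  obtain ⟨l, hl, rfl⟩ := Submonoid.exists_list_of_mem_closure hP
  refine ⟨Fin l.length, inferInstance, l.get, ?_, fun a => hl _ (List.get_mem l a), ?_⟩
  · intro a h
    apply hP0
    apply List.prod_eq_zero
    rw [← h]
    exact List.get_mem l a
  · rw [← List.prod_ofFn, List.ofFn_get]

/-- Restriction of a polynomial to the affine space `p + span u`. -/
noncomputable def res {r : ℕ} (p : Fin n → ℂ) (u : Fin r → Fin n → ℂ) :
    Ar n →ₐ[ℂ] MvPolynomial (Fin r) ℂ :=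
  MvPolynomial.aeval fun i => MvPolynomial.C (p i) + ∑ k, MvPolynomial.X k * MvPolynomial.C (u k i)

theorem res_X {r : ℕ} (p : Fin n → ℂ) (u : Fin r → Fin n → ℂ) (i : Fin n) :
    res p u (MvPolynomial.X i) =
      MvPolynomial.C (p i) + ∑ k, MvPolynomial.X k * MvPolynomial.C (u k i) :=
  MvPolynomial.aeval_X _ _

theorem eval_res {r : ℕ} (p : Fin n → ℂ) (u : Fin r → Fin n → ℂ) (y : Fin r → ℂ) (a : Ar n) :
    MvPolynomial.eval y (res p u a) = MvPolynomial.eval (p + ∑ i, y i • u i) a := by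
  have h : (MvPolynomial.eval y).comp (res p u).toRingHom =
      MvPolynomial.eval (p + ∑ i, y i • u i) := by
    apply MvPolynomial.ringHom_ext
    · intro c
      change MvPolynomial.eval y (res p u (MvPolynomial.C c)) = _
      rw [← MvPolynomial.algebraMap_eq, AlgHom.commutes, MvPolynomial.algebraMap_eq,
        MvPolynomial.eval_C, MvPolynomial.algebraMap_eq, MvPolynomial.eval_C]
    · intro i
      change MvPolynomial.eval y (res p u (MvPolynomial.X i)) = _
      rw [res_X, MvPolynomial.eval_X, map_add, MvPolynomial.eval_C, map_sum, Pi.add_apply,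
        Finset.sum_apply]
      congr 1
      refine Finset.sum_congr rfl fun k _ => ?_
      rw [map_mul, MvPolynomial.eval_X, MvPolynomial.eval_C, Pi.smul_apply, smul_eq_mul]
  exact RingHom.congr_fun h a

theorem pderiv_res {r : ℕ} (p : Fin n → ℂ) (u : Fin r → Fin n → ℂ) (j : Fin r) (a : Ar n) :
    MvPolynomial.pderiv j (res p u a) = res p u (dA (u j) a) := by
  classical
  induction a using MvPolynomial.induction_on with
  | C a =>
    rw [dA_C, map_zero, ← MvPolynomial.algebraMap_eq, AlgHom.commutes, MvPolynomial.algebraMap_eq,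
      MvPolynomial.pderiv_C]
  | add a b ha hb => rw [map_add, map_add, ha, hb, Der.map_add, map_add]
  | mul_X a i ha =>
    rw [map_mul, Derivation.leibniz, ha, Der.map_mul, dA_X, map_add, map_mul, map_mul,
      smul_eq_mul, smul_eq_mul]
    congr 2
    rw [res_X, map_add, MvPolynomial.pderiv_C, zero_add, map_sum, Finset.sum_eq_single j]
    · rw [Derivation.leibniz, MvPolynomial.pderiv_C, smul_zero, zero_add, MvPolynomial.pderiv_X_self,
        smul_eq_mul, mul_one, ← MvPolynomial.algebraMap_eq, ← MvPolynomial.algebraMap_eq,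
        AlgHom.commutes]
    · intro k _ hk
      rw [Derivation.leibniz, MvPolynomial.pderiv_C, smul_zero, zero_add,
        MvPolynomial.pderiv_X_of_ne (Ne.symm hk.symm), smul_zero]
    · intro h
      exact absurd (Finset.mem_univ j) h

theorem Dseq_mono : ∀ (m : ℕ) {D E : ℕ}, D ≤ E → Dseq m D ≤ Dseq m E := by
  intro m
  induction m with
  | zero => exact fun h => h
  | succ m ih =>
    intro D E h
    change Dseq m (3 * D ^ 2) ≤ Dseq m (3 * E ^ 2)
    exact ih (Nat.mul_le_mul_left _ (Nat.pow_le_pow_left h 2))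

theorem Dseq_le_succ (m D : ℕ) (hD : 1 ≤ D) : Dseq m D ≤ Dseq (m + 1) D := by
  change Dseq m D ≤ Dseq m (3 * D ^ 2)
  exact Dseq_mono m (by nlinarith)

theorem Dseq_le {m m' D E : ℕ} (hm : m ≤ m') (hD : 1 ≤ D) (h : D ≤ E) : Dseq m D ≤ Dseq m' E := by
  refine (Dseq_mono m h).trans ?_
  induction m', hm using Nat.le_induction with
  | base => exact le_rfl
  | succ k hk ih => exact ih.trans (Dseq_le_succ k E (hD.trans h))

/-- The restriction to the affine space `u 0 + span (u 1 .. u r)` keeps algebraic independence. -/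
theorem exists_restriction {r δ E : ℕ} (hE : Dseq r (max 1 (r * δ)) ≤ E) (P : Fin r → Ar n)
    (hP : ∀ i, P i ∈ Submonoid.closure {h : Ar n | h.totalDegree ≤ δ})
    (hind : AlgebraicIndependent ℂ P) (U : Set (Fin n → ℂ)) (hU : Rich U E) :
    ∃ u0 ∈ U, ∃ u : Fin r → Fin n → ℂ, (∀ i, u i ∈ U) ∧
      AlgebraicIndependent ℂ fun i => res u0 u (P i) := by
  classical
  have hP0 : ∀ i, P i ≠ 0 := fun i => hind.ne_zero i
  choose ι fι f hf0 hfd hPf using fun i => exists_factors (hP i) (hP0 i)
  obtain ⟨e, he⟩ := Pool.Agent.Helper93.D4.jac_of_algInd P hind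
  have h0 : ∀ i, algebraMap (Ar n) (Wr n) (P i) ≠ 0 := fun i h =>
      hP0 i (injAW (h.trans (map_zero _).symm))
  -- the form
  have hform : ∀ v : Fin r → Fin n → ℂ,
      algebraMap (Ar n) (Wr n) (∏ i, P i) * gen 1 (fun i => algebraMap (Ar n) (Wr n) (P i)) v =
        algebraMap (Ar n) (Wr n) (Matrix.of fun i j => dA (v j) (P i)).det := by
    intro v
    have h1 : (Matrix.of fun i j => ld (dW (v j)) (algebraMap (Ar n) (Wr n) (P i))) =
        Matrix.of fun i j => (algebraMap (Ar n) (Wr n) (P i))⁻¹ *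
          (Matrix.of fun i j => dW (v j) (algebraMap (Ar n) (Wr n) (P i))) i j := by
      ext i j
      rw [Matrix.of_apply, Matrix.of_apply, Matrix.of_apply, ld, mul_comm]
    rw [gen, h1, Matrix.det_mul_column, one_mul, map_prod, ← mul_assoc, ← Finset.prod_mul_distrib,
      Finset.prod_eq_one (fun i _ => mul_inv_cancel₀ (h0 i)), one_mul, RingHom.map_det]
    congr 1
    ext i j
    rw [Matrix.of_apply, RingHom.mapMatrix_apply, Matrix.map_apply, Matrix.of_apply, dW_alg]
  have hexp : gen 1 (fun i => algebraMap (Ar n) (Wr n) (P i)) =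
      ∑ a : ∀ i, ι i, gen 1 fun i => algebraMap (Ar n) (Wr n) (f i (a i)) := by
    rw [← gen_expand f hf0]
    congr 1
    funext i
    rw [← hPf i]
  have hne : ∑ a : ∀ i, ι i, gen 1 (fun i => algebraMap (Ar n) (Wr n) (f i (a i))) ≠ 0 := by
    rw [← hexp]
    intro h
    have h1 := hform fun j => Pi.single (e j) 1
    rw [h] at h1
    simp only [Pi.zero_apply, mul_zero, dA_single] at h1
    exact he (injAW (h1.symm.trans (map_zero _).symm))
  have hgood : ∀ a : ∀ i, ι i, Good r (max 1 (r * δ))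
      (gen 1 fun i => algebraMap (Ar n) (Wr n) (f i (a i))) := fun a =>
    gen_good (le_max_right _ _) (fun i => f i (a i)) (fun i => hf0 i (a i)) fun i => hfd i (a i)
  obtain ⟨u, huU, g, hg, hmain⟩ :=
    main_induction r (max 1 (r * δ)) E (le_max_left _ _) hE _ hgood hne U hU
  rw [← hexp] at hmain
  have hδE : r ≠ 0 → δ ≤ E := by
    intro hr
    refine le_trans ?_ ((le_Dseq r _ (le_max_left _ _)).trans hE)
    refine le_trans ?_ (le_max_right _ _)
    exact Nat.le_mul_of_pos_left δ (Nat.pos_of_ne_zero hr)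
  have hPmem : ∏ i, P i ∈ PD n E := by
    refine Submonoid.prod_mem _ fun i _ => ?_
    rw [hPf i]
    refine Submonoid.prod_mem _ fun a _ => ?_
    exact mem_PD (hf0 i a) ((hfd i a).trans (hδE (by
      rintro rfl
      exact i.elim0)))
  obtain ⟨u0, hu0, hu0ne⟩ := hU (g * ∏ i, P i) (Submonoid.mul_mem _ hg hPmem)
  rw [map_mul] at hu0ne
  refine ⟨u0, hu0, u, huU, ?_⟩
  apply Pool.Agent.Helper93.D4.algInd_of_jac
  obtain ⟨y, N, Q, hQN, hQy, hNy⟩ := hmain u0 (left_ne_zero_of_mul hu0ne)
  have hres : (Matrix.of fun i j => MvPolynomial.pderiv j (res u0 u (P i))).det =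
      res u0 u (Matrix.of fun i j => dA (u j) (P i)).det := by
    rw [AlgHom.map_det]
    congr 1
    ext i j
    rw [Matrix.of_apply, AlgHom.mapMatrix_apply, Matrix.map_apply, Matrix.of_apply, pderiv_res]
  rw [hres]
  have hrel : Q * (Matrix.of fun i j => dA (u j) (P i)).det = N * ∏ i, P i := by
    apply injAW
    rw [map_mul, ← hform u, map_mul, ← hQN]
    ring
  intro hcon
  have h2 := congrArg (res u0 u) hrel
  rw [map_mul, hcon, mul_zero, map_mul] at h2
  rcases mul_eq_zero.1 h2.symm with h3 | h3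
  · apply hNy
    rw [← eval_res, h3, map_zero]
  · apply right_ne_zero_of_mul hu0ne
    have h4 : u0 = u0 + ∑ i, (0 : Fin r → ℂ) i • u i := by simp
    rw [h4, ← eval_res, h3, map_zero]

/-- Points hitting all members of the class. -/
theorem exists_point {m r δ E d : ℕ} (hE : Dseq r (max 1 (r * δ)) ≤ E) (P : Fin m → Ar n)
    (hP : ∀ i, P i ∈ Submonoid.closure {h : Ar n | h.totalDegree ≤ δ})
    (hr : ∀ s : Fin (r + 1) → Fin m, ¬ AlgebraicIndependent ℂ fun i => P (s i))
    (g : MvPolynomial (Fin m) ℂ) (hne : MvPolynomial.aeval P g ≠ 0)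
    (hd : (MvPolynomial.aeval P g).totalDegree ≤ d) :
    ∃ a ∈ Pool.Agent.Helper28.D4.hit n E r (d * (n + 1)),
      MvPolynomial.eval (fun i => ((a i : ℤ) : ℂ)) (MvPolynomial.aeval P g) ≠ 0 := by
  classical
  set f := MvPolynomial.aeval P g with hf
  apply Pool.Agent.Helper28.D4.hit_hits n E r (d * (n + 1)) d le_rfl f hd
  obtain ⟨r', hr', s, hind, B, h, hB, hBh⟩ := Pool.Agent.Helper28.D4.norm_trick P hr g hne
  let G : (Fin E → ℂ) × (Fin E → ℂ) → Fin n → ℂ := fun t => Pool.Agent.Helper28.D4.G n E t.1 t.2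
  have hrich : Rich (Set.range G) E := by
    intro q hq
    obtain ⟨z, w, hzw⟩ := Pool.Agent.Helper28.D4.G_rich n E q hq
    exact ⟨_, ⟨(z, w), rfl⟩, hzw⟩
  have hE' : Dseq r' (max 1 (r' * δ)) ≤ E := by
    refine le_trans (Dseq_le hr' (le_max_left _ _) ?_) hE
    exact max_le_max le_rfl (Nat.mul_le_mul_right _ hr')
  obtain ⟨u0, ⟨⟨z0, w0⟩, rfl⟩, u, hu, hind'⟩ :=
    exists_restriction hE' (fun i => P (s i)) (fun i => hP (s i)) hind (Set.range G) hrich
  choose t ht using hu
  have h1 : MvPolynomial.aeval (fun i => res (G (z0, w0)) u (P (s i))) B ≠ 0 := by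
    intro h0
    exact hB (hind' (h0.trans (map_zero _).symm))
  have h2 : MvPolynomial.aeval (fun i => res (G (z0, w0)) u (P (s i))) B =
      res (G (z0, w0)) u (MvPolynomial.aeval (fun i => P (s i)) B) := by
    have h3 := MvPolynomial.comp_aeval (fun i => P (s i)) (res (G (z0, w0)) u)
    rw [← h3]
    rfl
  rw [h2, hBh, map_mul] at h1
  have h4 := left_ne_zero_of_mul h1
  rw [← hf] at h4
  obtain ⟨y, hy⟩ : ∃ y : Fin r' → ℂ, MvPolynomial.eval y (res (G (z0, w0)) u f) ≠ 0 := by
    by_contra hcon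
    push Not at hcon
    exact h4 (MvPolynomial.funext fun y => by rw [hcon y, map_zero])
  rw [eval_res] at hy
  -- padding
  let y' : Fin r → ℂ := fun k => if hk : (k : ℕ) < r' then y ⟨k, hk⟩ else 0
  let tt : Fin r → (Fin E → ℂ) × (Fin E → ℂ) := fun k =>
    if hk : (k : ℕ) < r' then t ⟨k, hk⟩ else (z0, w0)
  refine ⟨y', Fin.cons z0 fun k => (tt k).1, Fin.cons w0 fun k => (tt k).2, ?_⟩
  convert hy using 2
  congr 1
  funext i
  rw [Pi.add_apply, Finset.sum_apply]
  congr 1
  simp only [Fin.cons_succ]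
  have h5 : ∀ k : Fin r, y' k * Pool.Agent.Helper28.D4.G n E (tt k).1 (tt k).2 i =
      if hk : (k : ℕ) < r' then y ⟨k, hk⟩ * u ⟨k, hk⟩ i else 0 := by
    intro k
    by_cases hk : (k : ℕ) < r'
    · simp only [y', tt, dif_pos hk]
      rw [← ht ⟨k, hk⟩]
    · simp only [y', dif_neg hk, zero_mul]
  simp only [h5, Pi.smul_apply, smul_eq_mul]
  symm
  apply Fintype.sum_of_injective (Fin.castLE hr') (Fin.castLE_injective hr')
  · intro k hk
    rw [dif_neg]
    intro hk'
    exact hk ⟨⟨k, hk'⟩, Fin.ext rfl⟩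
  · intro k
    have hk : ((Fin.castLE hr' k : Fin r) : ℕ) < r' := k.2
    rw [dif_pos hk]
    rfl

end Pool.Agent.Helper62.D4

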